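import Pool.Agent.DensePos.ClassTop
import Pool.Agent.DD7719.TArith

/-! DP5b. Nonpositive terms have a small leading sum. -/

set_option autoImplicit false

namespace Pool.Agent.DD7719.M

open Complex Filter Topology GS

private theorem cs_choose {k e d n : ℕ} (h1 : e < d) (h2 : d < k) (h3 : 2 * k ≤ n) :
    n * n.choose e ≤ 2 * k * n.choose d := by
  induction d with
  | zero => omega
  | succ d ih =>
    rcases Nat.lt_succ_iff_lt_or_eq.mp h1 with h | h
    · refine (ih h (by omega)).trans (Nat.mul_le_mul_left _ ?_)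
      exact Nat.choose_le_succ_of_lt_half_left (by omega)
    · subst h
      have h4 := Nat.choose_succ_right_eq n e
      calc n * n.choose e ≤ 2 * (n - e) * n.choose e := Nat.mul_le_mul_right _ (by omega)
        _ = 2 * (n.choose e * (n - e)) := by ring
        _ = 2 * (e + 1) * n.choose (e + 1) := by rw [← h4]; ring
        _ ≤ 2 * k * n.choose (e + 1) := Nat.mul_le_mul_right _ (by omega)

private theorem cs_pow {P n a b : ℕ} {ρ : ℝ} (h0 : (1 / 2 : ℝ) ^ P ≤ ρ) (h1 : ρ ≤ 2 ^ P)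
    (ha : a ≤ P) (hb : b ≤ P) (hn : P ≤ n) : ρ ^ (n - a) ≤ 2 ^ (P * P) * ρ ^ (n - b) := by
  have hρ : 0 < ρ := lt_of_lt_of_le (by positivity) h0
  rcases le_total a b with h | h
  · have e1 : n - a = (n - b) + (b - a) := by omega
    rw [e1, pow_add, mul_comm]
    apply mul_le_mul_of_nonneg_right _ (by positivity)
    calc ρ ^ (b - a) ≤ ((2 : ℝ) ^ P) ^ (b - a) := pow_le_pow_left₀ hρ.le h1 _
      _ ≤ ((2 : ℝ) ^ P) ^ P := pow_le_pow_right₀ (one_le_pow₀ (by norm_num)) (by omega)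
      _ = 2 ^ (P * P) := (pow_mul _ _ _).symm
  · have e1 : n - b = (n - a) + (a - b) := by omega
    rw [e1, pow_add]
    have e2 : (1 / 2 : ℝ) ^ (P * P) ≤ ρ ^ (a - b) := by
      calc (1 / 2 : ℝ) ^ (P * P) = ((1 / 2 : ℝ) ^ P) ^ P := pow_mul _ _ _
        _ ≤ ((1 / 2 : ℝ) ^ P) ^ (a - b) := pow_le_pow_of_le_one (by positivity)
            (pow_le_one₀ (by norm_num) (by norm_num)) (by omega)
        _ ≤ ρ ^ (a - b) := pow_le_pow_left₀ (by positivity) h0 _
    have e3 : (2 : ℝ) ^ (P * P) * (1 / 2) ^ (P * P) = 1 := by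
      rw [← mul_pow]
      norm_num
    calc ρ ^ (n - a) = ρ ^ (n - a) * ((2 : ℝ) ^ (P * P) * (1 / 2) ^ (P * P)) := by
          rw [e3, mul_one]
      _ ≤ ρ ^ (n - a) * ((2 : ℝ) ^ (P * P) * ρ ^ (a - b)) := by gcongr
      _ = _ := by ring

private theorem cs_thr {P n : ℕ} (hn : 2 ^ (P + 2) ^ 2 ≤ n) :
    (P + 1) * (2 * P + 2 + n / 2 ^ (2 * P + 2)) ≤ (n - P) / 2 ^ P := by
  set a := n / 2 ^ (2 * P + 2) with ha
  have h1 : 2 ^ (2 * P + 2) * a ≤ n := Nat.mul_div_le _ _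
  have h2 : 2 ^ (P * P + 2 * P + 2) ≤ a := by
    rw [ha, Nat.le_div_iff_mul_le (by positivity), ← pow_add]
    convert hn using 2
    ring
  have h3 : 2 * P + 2 ≤ a := by
    refine le_trans ?_ h2
    have : 2 * P + 2 < 2 ^ (2 * P + 2) := Nat.lt_two_pow_self
    exact this.le.trans (Nat.pow_le_pow_right (by norm_num) (by nlinarith))
  have h4 : P + 1 ≤ 2 ^ P := Nat.lt_two_pow_self
  rw [Nat.le_div_iff_mul_le (by positivity)]
  have h5 : 2 ^ (2 * P + 2) = 4 * 2 ^ P * 2 ^ P := by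
    rw [show 2 * P + 2 = P + P + 2 by ring, pow_add, pow_add]
    ring
  have h6 : (P + 1) * (2 * P + 2 + a) * 2 ^ P ≤ 2 * a * 2 ^ P * 2 ^ P := by
    have : (P + 1) * (2 * P + 2 + a) ≤ 2 ^ P * (2 * a) := Nat.mul_le_mul h4 (by omega)
    calc (P + 1) * (2 * P + 2 + a) * 2 ^ P ≤ 2 ^ P * (2 * a) * 2 ^ P := Nat.mul_le_mul_right _ this
      _ = _ := by ring
  have h7 : P ≤ 2 * a * 2 ^ P * 2 ^ P := by
    have h8 : 1 ≤ 2 ^ P := Nat.one_le_two_pow
    have h9 : 1 ≤ a := by omega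
    calc P ≤ 2 ^ P := by omega
      _ = 1 * 1 * 2 ^ P := by ring
      _ ≤ (2 * a) * 2 ^ P * 2 ^ P := by
        apply Nat.mul_le_mul_right
        exact Nat.mul_le_mul (by omega) h8
  have h10 : 2 * a * 2 ^ P * 2 ^ P + 2 * a * 2 ^ P * 2 ^ P ≤ n := by
    refine le_trans (le_of_eq ?_) h1
    rw [h5]
    ring
  omega

private theorem cs_geom {P n : ℕ} (hn : 2 ^ (P + 2) ^ 2 ≤ n) :
    (n : ℝ) ^ (P + 1) * (1 - 1 / 2 ^ P) ^ (n - P) ≤ 1 := by
  have h1 : (n : ℝ) ^ (P + 1) ≤ 2 ^ ((P + 1) * (2 * P + 2 + n / 2 ^ (2 * P + 2))) := by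
    exact_mod_cast nat_pow_bound n (P + 1) (P + 1) (2 * P + 2) le_rfl
  have h2 := half_pow_bound P (n - P)
  have h0 : (0 : ℝ) ≤ 1 - 1 / 2 ^ P := by
    have : 1 / (2 : ℝ) ^ P ≤ 1 := by
      rw [div_le_one (by positivity)]
      exact one_le_pow₀ (by norm_num)
    linarith
  have h3 := cs_thr hn
  calc (n : ℝ) ^ (P + 1) * (1 - 1 / 2 ^ P) ^ (n - P)
      ≤ 2 ^ ((P + 1) * (2 * P + 2 + n / 2 ^ (2 * P + 2))) * (1 / 2) ^ ((n - P) / 2 ^ P) :=
        mul_le_mul h1 h2 (by positivity) (by positivity)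
    _ ≤ 2 ^ ((n - P) / 2 ^ P) * (1 / 2) ^ ((n - P) / 2 ^ P) := by
        apply mul_le_mul_of_nonneg_right _ (by positivity)
        exact pow_le_pow_right₀ (by norm_num) h3
    _ = 1 := by
        rw [← mul_pow]
        norm_num

private theorem cs_term {k P : ℕ} {l c : Fin k → ℂ} {ex : Fin k → ℕ} {e : ℕ}
    (h : DData k P l c ex e) {i0 i : Fin k} (hi0 : l i0 ≠ 0)
    (hlow : ‖l i‖ < ‖l i0‖ ∨ (‖l i‖ = ‖l i0‖ ∧ ex i < ex i0)) {n : ℕ}
    (hn : 2 ^ (P + 2) ^ 2 ≤ n) :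
    ‖c i * (n.choose (ex i) : ℂ) * l i ^ (n - ex i)‖ * n ≤
      2 ^ (P * P + 2 * P + 1) * ((n.choose (ex i0) : ℝ) * ‖l i0‖ ^ (n - ex i0)) := by
  have hkP := h.kle
  have hei := h.exlt i
  have he0 := h.exlt i0
  have hPn : 2 * P ≤ n := by
    refine le_trans ?_ hn
    have h1 : 2 * P < 2 ^ (2 * P) := Nat.lt_two_pow_self
    exact h1.le.trans (Nat.pow_le_pow_right (by norm_num) (by nlinarith))
  have hρ : 0 < ‖l i0‖ := norm_pos_iff.2 hi0
  have hpow := cs_pow (n := n) (a := ex i) (b := ex i0) (h.llow i0 hi0) (h.lup i0)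
    (by omega) (by omega) (by omega)
  have hk2 : (2 * k : ℝ) ≤ 2 ^ (P + 1) := by
    have h1 : k ≤ 2 ^ P := hkP.trans Nat.lt_two_pow_self.le
    have h2 : (k : ℝ) ≤ 2 ^ P := by exact_mod_cast h1
    rw [pow_succ]
    linarith
  have hnorm : ‖c i * (n.choose (ex i) : ℂ) * l i ^ (n - ex i)‖ * n =
      ‖c i‖ * ((n : ℝ) * n.choose (ex i)) * ‖l i‖ ^ (n - ex i) := by
    rw [norm_mul, norm_mul, norm_pow, norm_natCast]
    ring
  rw [hnorm]
  rcases hlow with hlt | ⟨heq, hlt⟩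
  · have h1 := h.gap i i0 hlt
    have h0 : (0 : ℝ) ≤ 1 - 1 / 2 ^ P := by
      have : 1 / (2 : ℝ) ^ P ≤ 1 := by
        rw [div_le_one (by positivity)]
        exact one_le_pow₀ (by norm_num)
      linarith
    have h1' : (1 : ℝ) - 1 / 2 ^ P ≤ 1 := by
      have : 0 ≤ 1 / (2 : ℝ) ^ P := by positivity
      linarith
    rw [one_div_pow] at h1
    have h2 : ‖l i‖ ^ (n - ex i) ≤ (1 - 1 / 2 ^ P) ^ (n - P) *
        (2 ^ (P * P) * ‖l i0‖ ^ (n - ex i0)) := by
      calc ‖l i‖ ^ (n - ex i) ≤ ((1 - 1 / 2 ^ P) * ‖l i0‖) ^ (n - ex i) :=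
            pow_le_pow_left₀ (norm_nonneg _) h1 _
        _ = (1 - 1 / 2 ^ P) ^ (n - ex i) * ‖l i0‖ ^ (n - ex i) := mul_pow _ _ _
        _ ≤ (1 - 1 / 2 ^ P) ^ (n - P) * (2 ^ (P * P) * ‖l i0‖ ^ (n - ex i0)) :=
            mul_le_mul (pow_le_pow_of_le_one h0 h1' (by omega)) hpow (by positivity)
              (by positivity)
    have h3 : (n : ℝ) * n.choose (ex i) ≤ (n : ℝ) ^ (P + 1) := by
      have h4 : n * n.choose (ex i) ≤ n ^ (P + 1) := by
        calc n * n.choose (ex i) ≤ n * n ^ P := by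
              apply Nat.mul_le_mul_left
              exact (Nat.choose_le_pow _ _).trans (Nat.pow_le_pow_right (by omega) (by omega))
          _ = n ^ (P + 1) := by ring
      exact_mod_cast h4
    have h5 := cs_geom hn
    have h6 : (1 : ℝ) ≤ n.choose (ex i0) := by
      exact_mod_cast Nat.choose_pos (by omega)
    calc ‖c i‖ * ((n : ℝ) * n.choose (ex i)) * ‖l i‖ ^ (n - ex i)
        ≤ 2 ^ P * (n : ℝ) ^ (P + 1) * ((1 - 1 / 2 ^ P) ^ (n - P) *
          (2 ^ (P * P) * ‖l i0‖ ^ (n - ex i0))) := by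
          apply mul_le_mul _ h2 (by positivity) (by positivity)
          exact mul_le_mul (h.cup i) h3 (by positivity) (by positivity)
      _ = ((n : ℝ) ^ (P + 1) * (1 - 1 / 2 ^ P) ^ (n - P)) *
          (2 ^ (P + P * P) * ‖l i0‖ ^ (n - ex i0)) := by
          rw [pow_add]
          ring
      _ ≤ 1 * (2 ^ (P * P + 2 * P + 1) * ((n.choose (ex i0) : ℝ) * ‖l i0‖ ^ (n - ex i0))) := by
          apply mul_le_mul h5 _ (by positivity) zero_le_one
          apply mul_le_mul (pow_le_pow_right₀ (by norm_num) (by omega)) _ (by positivity)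
            (by positivity)
          exact le_mul_of_one_le_left (by positivity) h6
      _ = _ := one_mul _
  · have h3 : (n : ℝ) * n.choose (ex i) ≤ 2 ^ (P + 1) * n.choose (ex i0) := by
      have h4 := cs_choose (n := n) hlt he0 (by omega)
      have h5 : (n : ℝ) * n.choose (ex i) ≤ 2 * k * n.choose (ex i0) := by exact_mod_cast h4
      exact h5.trans (mul_le_mul_of_nonneg_right hk2 (by positivity))
    rw [heq]
    calc ‖c i‖ * ((n : ℝ) * n.choose (ex i)) * ‖l i0‖ ^ (n - ex i)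
        ≤ 2 ^ P * (2 ^ (P + 1) * n.choose (ex i0)) * (2 ^ (P * P) * ‖l i0‖ ^ (n - ex i0)) := by
          apply mul_le_mul _ hpow (by positivity) (by positivity)
          exact mul_le_mul (h.cup i) h3 (by positivity) (by positivity)
      _ = _ := by
          rw [show P * P + 2 * P + 1 = P + (P + 1) + P * P by ring, pow_add, pow_add]
          ring

section Rep

variable {k : ℕ}

open scoped Classical in
/-- the smallest element of the class -/
private noncomputable def cs_rp (l : Fin k → ℂ) (ex : Fin k → ℕ) (n0 : ℕ) (i : Fin k) : Fin k :=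
  (Finset.univ.filter fun i' => l i' ^ n0 = l i ^ n0 ∧ ex i' = ex i).min' ⟨i, by simp⟩

private theorem cs_rp_spec (l : Fin k → ℂ) (ex : Fin k → ℕ) (n0 : ℕ) (i : Fin k) :
    l (cs_rp l ex n0 i) ^ n0 = l i ^ n0 ∧ ex (cs_rp l ex n0 i) = ex i := by
  classical
  have h := Finset.min'_mem (Finset.univ.filter fun i' => l i' ^ n0 = l i ^ n0 ∧ ex i' = ex i)
    ⟨i, by simp⟩
  exact (Finset.mem_filter.1 h).2

private theorem cs_rp_eq {l : Fin k → ℂ} {ex : Fin k → ℕ} {n0 : ℕ} {i i' : Fin k}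
    (h1 : l i ^ n0 = l i' ^ n0) (h2 : ex i = ex i') : cs_rp l ex n0 i = cs_rp l ex n0 i' := by
  simp only [cs_rp, h1, h2]

open scoped Classical in
/-- the merged coefficient -/
private noncomputable def cs_mg (l c : Fin k → ℂ) (ex : Fin k → ℕ) (n0 a : ℕ) (i : Fin k) : ℂ :=
  ∑ i' with l i' ^ n0 = l i ^ n0 ∧ ex i' = ex i, c i' * (l i' / l i) ^ a

private noncomputable def cs_C (l c : Fin k → ℂ) (ex : Fin k → ℕ) (n0 a : ℕ) (i : Fin k) : ℂ :=
  cs_mg l c ex n0 a i * nz (l i) ^ a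

open scoped Classical in
private noncomputable def cs_S (l c : Fin k → ℂ) (ex : Fin k → ℕ) (n0 a : ℕ) (ρ : ℝ) (d : ℕ) :
    Finset (Fin k) :=
  Finset.univ.filter fun i => (‖l i‖ = ρ ∧ ex i = d) ∧ cs_rp l ex n0 i = i ∧
    cs_mg l c ex n0 a i ≠ 0

private theorem cs_norm_C (l c : Fin k → ℂ) (ex : Fin k → ℕ) (n0 a : ℕ) (i : Fin k) :
    ‖cs_C l c ex n0 a i‖ = ‖cs_mg l c ex n0 a i‖ := by
  rw [cs_C, norm_mul, norm_pow, norm_nz, one_pow, mul_one]

private theorem cs_norm_eq {z w : ℂ} {n0 : ℕ} (hn0 : 0 < n0) (h : z ^ n0 = w ^ n0) :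
    ‖z‖ = ‖w‖ := by
  have h1 := congrArg norm h
  rw [norm_pow, norm_pow] at h1
  exact (pow_left_inj₀ (norm_nonneg _) (norm_nonneg _) hn0.ne').1 h1

private theorem cs_nz_eq {z w : ℂ} {n0 : ℕ} (hn0 : 0 < n0) (h : z ^ n0 = w ^ n0) (hw : w ≠ 0) :
    nz z ^ n0 = nz w ^ n0 := by
  have h1 := cs_norm_eq hn0 h
  have h2 := nz_pow_eq (z := z) n0
  have h3 := nz_pow_eq (z := w) n0
  rw [h, ← h3, h1] at h2
  exact mul_left_cancel₀ (pow_ne_zero _ (by exact_mod_cast norm_ne_zero_iff.2 hw)) h2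

open scoped Classical in
/-- the grouped coefficient in terms of the merged coefficient -/
private theorem cs_grp (l c : Fin k → ℂ) (ex : Fin k → ℕ) (n0 a : ℕ) {i : Fin k} (hi : l i ≠ 0) :
    ∑ i' with l i' ^ n0 = l i ^ n0 ∧ ex i' = ex i, c i' * l i' ^ a =
      (‖l i‖ : ℂ) ^ a * cs_C l c ex n0 a i := by
  rw [cs_C, cs_mg, Finset.sum_mul, Finset.mul_sum]
  refine Finset.sum_congr rfl fun i' _ => ?_
  have h1 : l i' ^ a = (l i' / l i) ^ a * ((‖l i‖ : ℂ) ^ a * nz (l i) ^ a) := by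
    rw [← mul_pow, nz_mul_norm, ← mul_pow, div_mul_cancel₀ _ hi]
  rw [h1]
  ring

open scoped Classical in
private theorem cs_level (l c : Fin k → ℂ) (ex : Fin k → ℕ) {n0 : ℕ} (hn0 : 0 < n0) (j d : ℕ)
    {ρ : ℝ} (hρ : 0 < ρ) (m : ℕ) :
    levelSum l c ex n0 j ρ d m = (ρ : ℂ) ^ (j - d) *
      ∑ i ∈ cs_S l c ex n0 (j - d) ρ d, cs_C l c ex n0 (j - d) i * (nz (l i) ^ n0) ^ m := by
  rw [levelSum, ← Finset.sum_filter]
  set A := Finset.univ.filter fun i : Fin k => ‖l i‖ = ρ ∧ ex i = d with hA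
  set B := A.filter fun i => cs_rp l ex n0 i = i with hB
  have hmaps : ∀ i ∈ A, cs_rp l ex n0 i ∈ B := by
    intro i hi
    obtain ⟨h1, h2⟩ := cs_rp_spec l ex n0 i
    rw [hA, Finset.mem_filter] at hi
    rw [hB, Finset.mem_filter, hA, Finset.mem_filter]
    refine ⟨⟨Finset.mem_univ _, ?_, ?_⟩, cs_rp_eq h1 h2⟩
    · rw [cs_norm_eq hn0 h1]
      exact hi.2.1
    · rw [h2]
      exact hi.2.2
  rw [← Finset.sum_fiberwise_of_maps_to hmaps, Finset.mul_sum]
  have hS : cs_S l c ex n0 (j - d) ρ d ⊆ B := by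
    intro i hi
    rw [cs_S, Finset.mem_filter] at hi
    rw [hB, Finset.mem_filter, hA, Finset.mem_filter]
    exact ⟨⟨Finset.mem_univ _, hi.2.1⟩, hi.2.2.1⟩
  have hfib : ∀ s ∈ B, ∑ i ∈ A with cs_rp l ex n0 i = s,
      c i * l i ^ (j - d) * (nz (l i) ^ n0) ^ m =
        (ρ : ℂ) ^ (j - d) * (cs_C l c ex n0 (j - d) s * (nz (l s) ^ n0) ^ m) := by
    intro s hs
    rw [hB, Finset.mem_filter, hA, Finset.mem_filter] at hs
    obtain ⟨⟨-, hs1, hs2⟩, hs3⟩ := hs
    have hs0 : l s ≠ 0 := by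
      rw [← norm_pos_iff, hs1]
      exact hρ
    have h1 : (A.filter fun i => cs_rp l ex n0 i = s) =
        Finset.univ.filter fun i => l i ^ n0 = l s ^ n0 ∧ ex i = ex s := by
      ext i
      rw [Finset.mem_filter, hA, Finset.mem_filter, Finset.mem_filter]
      constructor
      · rintro ⟨-, rfl⟩
        obtain ⟨h2, h3⟩ := cs_rp_spec l ex n0 i
        exact ⟨Finset.mem_univ _, h2.symm, h3.symm⟩
      · rintro ⟨-, h2, h3⟩
        refine ⟨⟨Finset.mem_univ _, ?_, ?_⟩, ?_⟩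
        · rw [cs_norm_eq hn0 h2, hs1]
        · rw [h3, hs2]
        · rw [cs_rp_eq h2 h3, hs3]
    have h4 := cs_grp l c ex n0 (j - d) hs0
    rw [hs1] at h4
    rw [h1, ← mul_assoc, ← h4, Finset.sum_mul]
    refine Finset.sum_congr rfl fun i hi => ?_
    rw [Finset.mem_filter] at hi
    rw [cs_nz_eq hn0 hi.2.1 hs0]
  rw [← Finset.sum_subset hS]
  · exact Finset.sum_congr rfl fun s hs => hfib s (hS hs)
  · intro s hs hs'
    rw [hfib s hs]
    rw [hB, Finset.mem_filter, hA, Finset.mem_filter] at hs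
    have h1 : cs_mg l c ex n0 (j - d) s = 0 := by
      by_contra h2
      exact hs' (Finset.mem_filter.2 ⟨Finset.mem_univ _, hs.1.2, hs.2, h2⟩)
    rw [cs_C, h1, zero_mul, zero_mul, mul_zero]

end Rep

/- PROOF SKETCH (uses DP5a = `class_top`, which may still be sorry). Take `i0` from `class_top`,
`ρ = ‖l i0‖`, `d0 = ex i0`. `S` = one representative of each class of `{i : ‖l i‖ = ρ, ex i = d0}`
with respect to `l i ^ n0 = l i' ^ n0` whose grouped coefficient `grp` is not `0` (contains a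
representative of the class of `i0`); `C i = (∑_{i' : l i' ^ n0 = l i ^ n0, ex i' = d0}
c i' (l i' / l i)^(j - d0)) * nz (l i)^(j - d0)`, so `‖C i‖ ≥ 2^(-P)` by `merged` and
`‖C i‖ ≤ k 2^P ≤ 2^(2P)`, and `levelSum l c ex n0 j ρ d0 m = ρ^(j - d0) * ∑_{i ∈ S} C i (nz (l i) ^ n0)^m`.
Different elements of `S` have ratios which are not roots of unity (`tor`, `e ∣ n0`).
Error: with `n = j + n0 m`, `v n = C(n, d0) ρ^(n - d0) (T m + err)`, `T m = ∑_{i ∈ S} ..`, where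
(terms above the level vanish) the terms with `‖l i‖ = ρ`, `ex i < d0` contribute to `err` at most
`‖c i‖ C(n, ex i)/C(n, d0) ρ^(d0 - ex i) ≤ 2^(poly P) / n` for `n ≥ 2 k`, and the terms with
`‖l i‖ < ρ` at most `2^(poly P) n^k (1 - 2^(-P))^n ≤ 2^(poly P) / n` once `n ≥ 2^(poly P)` (`gap`,
`llow` for the negative powers of `ρ`, `lup`; compare `half_pow_bound`, `threshold_ineq` in
DD7719/TArith.lean). `v n` is real, `Re T m ≥ 0` and `v n ≤ 0`, so `‖T m‖ ≤ 2 ‖err‖`. -/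

open scoped Classical in
theorem class_small : ∃ d : ℕ, ∀ (k P : ℕ) (l c : Fin k → ℂ) (ex : Fin k → ℕ) (e : ℕ),
    DData k P l c ex e → ∀ v : ℕ → ℝ,
    (∀ n, ∑ i, c i * (n.choose (ex i) : ℂ) * l i ^ (n - ex i) = (v n : ℂ)) → AEPos v →
    ∀ n0 j : ℕ, 0 < n0 → e ∣ n0 → k ≤ j →
    ∃ (S : Finset (Fin k)) (C : Fin k → ℂ), S.Nonempty ∧
      (∀ i ∈ S, l i ≠ 0 ∧ (1 / 2 : ℝ) ^ P ≤ ‖C i‖ ∧ ‖C i‖ ≤ 2 ^ (2 * P)) ∧
      (∀ i ∈ S, ∀ i' ∈ S, i ≠ i' → ‖l i‖ = ‖l i'‖ ∧ ∀ h : ℕ, 0 < h → (l i / l i') ^ h ≠ 1) ∧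
      ∀ m : ℕ, 2 ^ ((P + 2) ^ d) ≤ j + n0 * m → v (j + n0 * m) ≤ 0 →
        ‖∑ i ∈ S, C i * (nz (l i) ^ n0) ^ m‖ * ((j + n0 * m : ℕ) : ℝ) ≤ 2 ^ ((P + 2) ^ d) := by
  classical
  refine ⟨2, fun k P l c ex e hD v hv hAE n0 j hn0 he hj => ?_⟩
  obtain ⟨i0, hi0, hgrp, hvan, hre⟩ := class_top l c ex hD.exlt n0 j hn0 hj v hv hAE
  set ρ := ‖l i0‖ with hρdef
  have hρ : 0 < ρ := norm_pos_iff.2 hi0
  set d := ex i0 with hd
  have hdk : d < k := hD.exlt i0
  have hne : ∀ i, ‖l i‖ = ρ → l i ≠ 0 := fun i h => by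
    rw [← norm_pos_iff, h]
    exact hρ
  have hmemS : ∀ i ∈ cs_S l c ex n0 (j - d) ρ d, (‖l i‖ = ρ ∧ ex i = d) ∧
      cs_rp l ex n0 i = i ∧ cs_mg l c ex n0 (j - d) i ≠ 0 := by
    intro i hi
    rw [cs_S, Finset.mem_filter] at hi
    exact hi.2
  refine ⟨cs_S l c ex n0 (j - d) ρ d, cs_C l c ex n0 (j - d), ?_, ?_, ?_, ?_⟩
  · -- the class of `i0`
    obtain ⟨h1, h2⟩ := cs_rp_spec l ex n0 i0
    refine ⟨cs_rp l ex n0 i0, Finset.mem_filter.2 ⟨Finset.mem_univ _, ⟨?_, h2⟩,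
      cs_rp_eq h1 h2, ?_⟩⟩
    · exact cs_norm_eq hn0 h1
    · intro h3
      apply hgrp
      have h4 := cs_grp l c ex n0 (j - d) (i := cs_rp l ex n0 i0)
        (hne _ (cs_norm_eq hn0 h1))
      rw [cs_C, h3, zero_mul, mul_zero, h1, h2] at h4
      exact h4
  · intro i hi
    obtain ⟨⟨h1, h2⟩, -, h3⟩ := hmemS i hi
    have h4 := hne i h1
    refine ⟨h4, ?_, ?_⟩
    · rw [cs_norm_C]
      exact hD.merged i n0 (j - d) hn0 h4 h3
    · rw [cs_norm_C, cs_mg]
      calc ‖∑ i' with l i' ^ n0 = l i ^ n0 ∧ ex i' = ex i, c i' * (l i' / l i) ^ (j - d)‖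
          ≤ ∑ i' with l i' ^ n0 = l i ^ n0 ∧ ex i' = ex i,
            ‖c i' * (l i' / l i) ^ (j - d)‖ := norm_sum_le _ _
        _ ≤ ∑ i' with l i' ^ n0 = l i ^ n0 ∧ ex i' = ex i, (2 : ℝ) ^ P := by
            refine Finset.sum_le_sum fun i' hi' => ?_
            rw [Finset.mem_filter] at hi'
            rw [norm_mul, norm_pow, norm_div, cs_norm_eq hn0 hi'.2.1,
              div_self (norm_ne_zero_iff.2 h4), one_pow, mul_one]
            exact hD.cup i'
        _ ≤ ∑ _i' : Fin k, (2 : ℝ) ^ P :=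
            Finset.sum_le_sum_of_subset_of_nonneg (Finset.filter_subset _ _)
              fun _ _ _ => by positivity
        _ = (k : ℝ) * 2 ^ P := by simp
        _ ≤ 2 ^ P * 2 ^ P := by
            have h5 : k ≤ 2 ^ P := hD.kle.trans Nat.lt_two_pow_self.le
            have h6 : (k : ℝ) ≤ 2 ^ P := by exact_mod_cast h5
            gcongr
        _ = 2 ^ (2 * P) := by rw [← pow_add, two_mul]
  · intro i hi i' hi' hii
    obtain ⟨⟨h1, h2⟩, h3, -⟩ := hmemS i hi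
    obtain ⟨⟨h1', h2'⟩, h3', -⟩ := hmemS i' hi'
    refine ⟨h1.trans h1'.symm, fun h hh h4 => hii ?_⟩
    have h5 := hD.tor i i' (hne i h1) (hne i' h1') ⟨h, hh, h4⟩
    obtain ⟨t, rfl⟩ := he
    have h6 : (l i / l i') ^ (e * t) = 1 := by rw [pow_mul, h5, one_pow]
    rw [div_pow, div_eq_one_iff_eq (pow_ne_zero _ (hne i' h1'))] at h6
    rw [← h3, ← h3']
    exact cs_rp_eq h6 (h2.trans h2'.symm)
  · intro m hn hvn
    set n := j + n0 * m with hndef
    set T := ∑ i ∈ cs_S l c ex n0 (j - d) ρ d, cs_C l c ex n0 (j - d) i * (nz (l i) ^ n0) ^ m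
      with hT
    have hlev : levelSum l c ex n0 j ρ d m = (ρ : ℂ) ^ (j - d) * T :=
      cs_level l c ex hn0 j d hρ m
    have hTre : 0 ≤ T.re := by
      have h1 := hre m
      rw [hlev, ← ofReal_pow, re_ofReal_mul] at h1
      exact nonneg_of_mul_nonneg_right h1 (by positivity)
    set E : ℂ := ∑ i, if ¬ Above ρ d (l i) (ex i) ∧ ¬ (‖l i‖ = ρ ∧ ex i = d) then
      c i * (n.choose (ex i) : ℂ) * l i ^ (n - ex i) else 0 with hE
    set D : ℝ := (n.choose d : ℝ) * ρ ^ (n - d) with hDdef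
    have hdn : d ≤ n := by omega
    have hDpos : 0 < D := by
      have : 0 < (n.choose d : ℝ) := by exact_mod_cast Nat.choose_pos hdn
      positivity
    have hdec : (v n : ℂ) = (D : ℂ) * T + E := by
      have h1 : (D : ℂ) * T = ∑ i, if ‖l i‖ = ρ ∧ ex i = d then
          c i * (n.choose (ex i) : ℂ) * l i ^ (n - ex i) else 0 := by
        have h2 : (D : ℂ) * T = (n.choose d : ℂ) * ρ ^ (n0 * m) *
            levelSum l c ex n0 j ρ d m := by
          have h3 : n - d = n0 * m + (j - d) := by omega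
          rw [hlev, hDdef, h3]
          push_cast
          rw [pow_add]
          ring
        rw [h2, levelSum, Finset.mul_sum]
        refine Finset.sum_congr rfl fun i _ => ?_
        split_ifs with h3
        · have h4 := nz_pow_eq (z := l i) n0
          rw [h3.1] at h4
          rw [h3.2, pow_split (l i) j n0 d m (by omega), ← h4, mul_pow, ← pow_mul]
          ring
        · rw [mul_zero]
      rw [← hv n, ← sub_zero (∑ i, c i * (n.choose (ex i) : ℂ) * l i ^ (n - ex i)), ← hvan m, h1,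
        hE, ← Finset.sum_sub_distrib, ← Finset.sum_add_distrib]
      refine Finset.sum_congr rfl fun i _ => ?_
      change c i * (n.choose (ex i) : ℂ) * l i ^ (n - ex i) -
        (if Above ρ d (l i) (ex i) then c i * (n.choose (ex i) : ℂ) * l i ^ (n - ex i) else 0) = _
      by_cases h2 : Above ρ d (l i) (ex i)
      · have h3 : ¬ (‖l i‖ = ρ ∧ ex i = d) := by
          rintro ⟨h4, h5⟩
          rcases h2 with h2 | h2
          · linarith
          · omega
        rw [if_pos h2, if_neg h3, if_neg (fun h => h.1 h2), sub_self, add_zero]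
      · by_cases h3 : ‖l i‖ = ρ ∧ ex i = d
        · rw [if_neg h2, if_pos h3, if_neg (fun h => h.2 h3), sub_zero, add_zero]
        · rw [if_neg h2, if_neg h3, if_pos ⟨h2, h3⟩, sub_zero, zero_add]
    have hEb : ‖E‖ * n ≤ k * (2 ^ (P * P + 2 * P + 1) * D) := by
      calc ‖E‖ * n ≤ (∑ i, ‖if ¬ Above ρ d (l i) (ex i) ∧ ¬ (‖l i‖ = ρ ∧ ex i = d) then
            c i * (n.choose (ex i) : ℂ) * l i ^ (n - ex i) else 0‖) * n :=
            mul_le_mul_of_nonneg_right (norm_sum_le _ _) (by positivity)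
        _ = ∑ i, ‖if ¬ Above ρ d (l i) (ex i) ∧ ¬ (‖l i‖ = ρ ∧ ex i = d) then
            c i * (n.choose (ex i) : ℂ) * l i ^ (n - ex i) else 0‖ * n := Finset.sum_mul _ _ _
        _ ≤ ∑ _i : Fin k, 2 ^ (P * P + 2 * P + 1) * D := by
            refine Finset.sum_le_sum fun i _ => ?_
            split_ifs with h1
            · exact cs_term hD hi0 (below_of_not hρ h1.1 h1.2) hn
            · rw [norm_zero, zero_mul]
              positivity
        _ = _ := by simp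
    have hre' : D * T.re + E.re = v n := by
      have h1 := congrArg Complex.re hdec
      rw [add_re, re_ofReal_mul, ofReal_re] at h1
      exact h1.symm
    have him' : D * T.im + E.im = 0 := by
      have h1 := congrArg Complex.im hdec
      rw [add_im, im_ofReal_mul, ofReal_im] at h1
      exact h1.symm
    have h1 : D * ‖T‖ ≤ 2 * ‖E‖ := by
      have h2 := norm_le_abs_re_add_abs_im T
      have h3 := abs_re_le_norm E
      have h4 := abs_im_le_norm E
      have h5 : D * |T.re| ≤ ‖E‖ := by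
        rw [abs_of_nonneg hTre]
        have := neg_abs_le E.re
        linarith
      have h6 : D * |T.im| ≤ ‖E‖ := by
        have h7 : D * T.im = -E.im := by linarith
        have h8 : D * |T.im| = |D * T.im| := by rw [abs_mul, abs_of_pos hDpos]
        rw [h8, h7, abs_neg]
        exact h4
      calc D * ‖T‖ ≤ D * (|T.re| + |T.im|) := mul_le_mul_of_nonneg_left h2 hDpos.le
        _ ≤ 2 * ‖E‖ := by linarith
    have h2 : D * (‖T‖ * n) ≤ D * (2 * (k * 2 ^ (P * P + 2 * P + 1))) := by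
      calc D * (‖T‖ * n) = D * ‖T‖ * n := by ring
        _ ≤ 2 * ‖E‖ * n := mul_le_mul_of_nonneg_right h1 (by positivity)
        _ = 2 * (‖E‖ * n) := by ring
        _ ≤ 2 * (k * (2 ^ (P * P + 2 * P + 1) * D)) := by linarith
        _ = _ := by ring
    have h3 := le_of_mul_le_mul_left h2 hDpos
    refine h3.trans ?_
    have h5 : k ≤ 2 ^ P := hD.kle.trans Nat.lt_two_pow_self.le
    have h6 : (k : ℝ) ≤ 2 ^ P := by exact_mod_cast h5
    calc 2 * ((k : ℝ) * 2 ^ (P * P + 2 * P + 1)) ≤ 2 * (2 ^ P * 2 ^ (P * P + 2 * P + 1)) := by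
          gcongr
      _ = 2 ^ (P * P + 3 * P + 2) := by
          rw [show P * P + 3 * P + 2 = 1 + P + (P * P + 2 * P + 1) by ring, pow_add, pow_add,
            pow_one]
          ring
      _ ≤ 2 ^ (P + 2) ^ 2 := pow_le_pow_right₀ (by norm_num) (by nlinarith)

end Pool.Agent.DD7719.M
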