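import Pool.Agent.DensePos.Defs
import Pool.Agent.AlmostPos.TopPos
import Pool.Agent.AlmostPos.AESound
import Pool.Agent.DD7719.TClass

/-! DP5a. The top level of a class of an almost everywhere positive sequence. -/

set_option autoImplicit false

namespace Pool.Agent.DD7719.M

open Complex Filter Topology GS

variable {k : ℕ}

/- PROOF SKETCH. `level_cases` / `level_data` (DD7719/GSimple.lean): either all grouped coefficients
with `l i ≠ 0` vanish, then `v (j + n0 m) = 0` for large `m`, an arithmetic progression of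
nonpositive terms, so `AEPos v` fails; or there is a top level `i0`. If
`Re levelSum m0 = -κ < 0`, then by `returns` (AlmostPos/TopPos.lean) there are `H` and for every `m` an
`h ∈ [m, m + H]` with `levelSum (m0 + h)` within `κ/2` of `levelSum m0` (`levelSum` is an exponential sum
with unit frequencies), and by the asymptotics (`level_asym` in GSimple.lean or `asym` in GBase.lean)
`v (j + n0 (m0 + h)) < 0` for all large such `h`: positive lower density, so `AEPos v` fails. -/

open scoped Classical in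
theorem class_top (l c : Fin k → ℂ) (ex : Fin k → ℕ) (hex : ∀ i, ex i < k) (n0 j : ℕ)
    (hn0 : 0 < n0) (hj : k ≤ j) (v : ℕ → ℝ)
    (hv : ∀ n, ∑ i, c i * (n.choose (ex i) : ℂ) * l i ^ (n - ex i) = (v n : ℂ))
    (hAE : AEPos v) :
    ∃ i0 : Fin k, l i0 ≠ 0 ∧ grp l c ex n0 j (l i0 ^ n0) (ex i0) ≠ 0 ∧
      (∀ m, ∑ i, (if Above ‖l i0‖ (ex i0) (l i) (ex i) then
        c i * ((j + n0 * m).choose (ex i) : ℂ) * l i ^ (j + n0 * m - ex i) else 0) = 0) ∧
      ∀ m, 0 ≤ (levelSum l c ex n0 j ‖l i0‖ (ex i0) m).re := by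
  have hej : ∀ i, ex i ≤ j := fun i => (hex i).le.trans hj
  rcases level_cases l c ex n0 j hn0 hej with h | ⟨i0, hi0, hG, hvan⟩
  · exfalso
    refine not_aePos_of_prog v j n0 1 0 hn0 (fun K _ => ⟨K, le_rfl, by omega, ?_⟩) hAE
    have h1 : (v (j + n0 * K) : ℂ) = 0 := by
      rw [← hv, ← h K]
      refine Finset.sum_congr rfl fun i _ => ?_
      split_ifs with hi
      · rfl
      · push Not at hi
        rw [hi, zero_pow, mul_zero]
        have := hex i
        omega
    have h2 : v (j + n0 * K) = 0 := by exact_mod_cast h1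
    exact h2.le
  · refine ⟨i0, hi0, hG, hvan, fun m0 => ?_⟩
    by_contra hneg
    rw [not_le] at hneg
    set ρ : ℝ := ‖l i0‖ with hρdef
    set d : ℕ := ex i0 with hddef
    have hρpos : 0 < ρ := norm_pos_iff.mpr hi0
    obtain ⟨r, hr, hvr⟩ := asym l c ex hex j n0 d ρ hj hn0 hρpos (hex i0) v hv _
      (fun i => Iff.rfl) hvan
    set Fs : (Fin k → ℂ) → ℂ := fun W => ∑ i, (if ‖l i‖ = ρ ∧ ex i = d then
      c i * l i ^ (j - d) * W i else 0) with hFs
    set S : ℝ := ∑ i, ‖c i * l i ^ (j - d)‖ with hS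
    have hS0 : 0 ≤ S := Finset.sum_nonneg fun i _ => norm_nonneg _
    have hclose : ∀ (W W' : Fin k → ℂ) (η : ℝ), (∀ i, ‖W i - W' i‖ ≤ η) →
        ‖Fs W - Fs W'‖ ≤ S * η := by
      intro W W' η h
      have hη : 0 ≤ η := (norm_nonneg _).trans (h i0)
      simp only [hFs]
      rw [← Finset.sum_sub_distrib]
      refine (norm_sum_le _ _).trans ?_
      rw [hS, Finset.sum_mul]
      apply Finset.sum_le_sum
      intro i _
      split_ifs
      · rw [← mul_sub, norm_mul]
        exact mul_le_mul_of_nonneg_left (h i) (norm_nonneg _)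
      · rw [sub_zero, norm_zero]
        positivity
    have hvre : ∀ m, v (j + n0 * m) = ρ ^ (n0 * m) * ((j + n0 * m).choose d : ℝ) *
        (Fs (fun i => nz (l i) ^ (n0 * m)) + r m).re := by
      intro m
      have h1 := congrArg Complex.re (hvr m)
      rw [ofReal_re] at h1
      rw [h1]
      have h2 : (ρ : ℂ) ^ (n0 * m) * ((j + n0 * m).choose d : ℂ) =
          ((ρ ^ (n0 * m) * ((j + n0 * m).choose d : ℝ) : ℝ) : ℂ) := by
        push_cast
        rfl
      rw [h2, re_ofReal_mul]
    have hlev : levelSum l c ex n0 j ρ d m0 = Fs (fun i => nz (l i) ^ (n0 * m0)) := by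
      simp only [levelSum, hFs, pow_mul]
    set a : ℝ := -(Fs (fun i => nz (l i) ^ (n0 * m0))).re with ha
    have ha0 : 0 < a := by
      rw [ha, ← hlev]
      linarith
    obtain ⟨N2, hN2⟩ : ∃ N, ∀ m, N ≤ m → ‖r m‖ < a / 8 := by
      have h1 := hr.norm
      rw [norm_zero] at h1
      have h2 := h1.eventually_lt_const (show (0 : ℝ) < a / 8 by positivity)
      rwa [eventually_atTop] at h2
    have hSκ : S * (a / (8 * (S + 1))) ≤ a / 8 := by
      have h7 : S * (a / (8 * (S + 1))) = (S / (S + 1)) * (a / 8) := by field_simp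
      rw [h7]
      have h8 : S / (S + 1) ≤ 1 := by
        rw [div_le_one (by linarith)]
        linarith
      nlinarith
    obtain ⟨H', -, hH'⟩ := Pool.Agent.AlmostPos.returns (fun i => nz (l i) ^ n0)
      (fun i => by rw [norm_pow, norm_nz, one_pow]) (a / (8 * (S + 1))) (by positivity)
    refine not_aePos_of_prog v j n0 H' (m0 + N2) hn0 ?_ hAE
    intro K hK
    obtain ⟨h, hh1, hh2, hh3⟩ := hH' (K - m0)
    refine ⟨m0 + h, by omega, by omega, ?_⟩
    have h6 := hclose (fun i => nz (l i) ^ (n0 * (m0 + h))) (fun i => nz (l i) ^ (n0 * m0))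
      (a / (8 * (S + 1))) (fun i => by
        have h7 : nz (l i) ^ (n0 * (m0 + h)) - nz (l i) ^ (n0 * m0) =
            nz (l i) ^ (n0 * m0) * ((nz (l i) ^ n0) ^ h - 1) := by
          rw [mul_add, pow_add, ← pow_mul]
          ring
        rw [h7, norm_mul, norm_pow, norm_nz, one_pow, one_mul]
        exact hh3 i)
    have h7 := (abs_re_le_norm _).trans (h6.trans hSκ)
    rw [sub_re] at h7
    have h8 := (abs_le.mp h7).2
    have h9 := (abs_le.mp ((abs_re_le_norm (r (m0 + h))).trans (hN2 (m0 + h) (by omega)).le)).2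
    rw [hvre, add_re]
    apply mul_nonpos_of_nonneg_of_nonpos
    · positivity
    · linarith

end Pool.Agent.DD7719.M
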