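import Pool.Agent.DD7719.TCoef

/-! DP3. Bounds for the coefficients of a recurrence with integer coefficients and integer values,
with repeated roots, and for merged coefficients. -/

set_option autoImplicit false

namespace Pool.Agent.DD7719.M

open Polynomial Finset

/- PROOF SKETCH. `V n i = C(n, ex i) l i ^ (n - ex i)` (`vmat`, TCoef.lean), `det V ≠ 0`
(`RootData.det_ne_zero`), `V c = w`. Everything is algebraic: `F` = the splitting field in `ℂ`
(`IntermediateField.adjoin ℚ (rootSet)`), or use the automorphisms of `AlgebraicClosure ℚ`.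
(a) Every automorphism `σ` permutes the pairs: there is `π : Perm (Fin k)` with `σ (l i) = l (π i)`,
`ex (π i) = ex i` (`RootData.mem`, `RootData.surj`: the index set is the set of the pairs `(root, e)`,
`e < multiplicity`, and conjugate roots have the same multiplicity). So `σ (det V) = ± det V`, hence
`Δ = (det V)^2` is fixed by all `σ`, so rational, integral over `ℤ`, nonzero: `‖Δ‖ ≥ 1` and
`‖det V‖ ≥ 1`. By uniqueness of the solution `σ (c i) = c (π i)`.
(b) Cramer: `c i = det V_i / det V`, `‖det V_i‖ ≤ k! (2R)^(k k) U`, `‖det V‖ ≤ G := k! (2R)^(k k)`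
(entries `C(n, e) ≤ 2^n`; see AlmostPos/Coeff.lean for the determinant bounds). This gives the first
claim; `Δ c i = det V det V_i` is integral.
(c) second claim: the product of all nonzero `l i` with `ex i = 0` (the distinct nonzero roots) is fixed by
all `σ`, integral, nonzero, so has norm `≥ 1`, and there are at most `k` factors of norm `≤ R`.
(d) third claim: `y i0 = ∑_{i : l i ^ n0 = l i0 ^ n0, ex i = ex i0} c i (l i / l i0)^a`. The ratios in
the sum are roots of unity (`n0 > 0`), so integral, `Δ y i0` is integral, `σ (y i0) = y (π i0)`,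
`‖Δ y i0‖ ≤ G^2 k G U`. Let `J` be the set of the `i` with `ex i = ex i0`, `l i ≠ 0`, `y i ≠ 0`: the
product of `Δ y i`, `i ∈ J`, is fixed by all `σ`, integral, nonzero, so `1 ≤ ∏ ‖Δ y i‖ ≤
‖Δ y i0‖ (k G^3 U)^(k-1) ≤ ‖y i0‖ (k G^3 U)^(k+1)`. -/

private theorem conf_det_bound {k : ℕ} (M : Matrix (Fin k) (Fin k) ℂ) (b : Fin k → ℝ)
    (h : ∀ i j, ‖M i j‖ ≤ b j) : ‖M.det‖ ≤ k.factorial * ∏ j, b j := by
  rw [Matrix.det_apply']
  calc ‖∑ σ : Equiv.Perm (Fin k), ((Equiv.Perm.sign σ : ℤ) : ℂ) * ∏ i, M (σ i) i‖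
      ≤ ∑ σ : Equiv.Perm (Fin k), ‖((Equiv.Perm.sign σ : ℤ) : ℂ) * ∏ i, M (σ i) i‖ :=
        norm_sum_le _ _
    _ ≤ ∑ _σ : Equiv.Perm (Fin k), ∏ j, b j := by
        refine Finset.sum_le_sum fun σ _ => ?_
        rw [norm_mul, norm_prod]
        have h1 : ‖((Equiv.Perm.sign σ : ℤ) : ℂ)‖ = 1 := by
          rcases Int.units_eq_one_or (Equiv.Perm.sign σ) with h | h <;> rw [h] <;> simp
        rw [h1, one_mul]
        exact Finset.prod_le_prod (fun i _ => norm_nonneg _) fun i _ => h _ _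
    _ = k.factorial * ∏ j, b j := by
        rw [Finset.sum_const, Finset.card_univ, Fintype.card_perm, Fintype.card_fin, nsmul_eq_mul]

section

variable {F : Type} [Field F] [Algebra ℚ F] [IsGalois ℚ F] (ψ : F →+* ℂ)

private theorem conf_one_le (x : F) (hx : IsIntegral ℤ x) (h0 : x ≠ 0)
    (hfix : ∀ σ : F ≃ₐ[ℚ] F, σ x = x) : 1 ≤ ‖ψ x‖ := by
  obtain ⟨q, hq⟩ := IntermediateField.mem_bot.1 ((InfiniteGalois.mem_bot_iff_fixed x).2 hfix)
  have h1 : IsIntegral ℤ q :=
    (isIntegral_algebraMap_iff (algebraMap ℚ F).injective).1 (by rw [hq]; exact hx)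
  obtain ⟨m, hm⟩ := IsIntegrallyClosed.isIntegral_iff.1 h1
  have h2 : ψ x = (m : ℂ) := by
    rw [← hq, ← hm]
    simp
  rw [h2, Complex.norm_intCast]
  have h3 : m ≠ 0 := by
    rintro rfl
    apply h0
    rw [← hq, ← hm]
    simp
  exact_mod_cast Int.one_le_abs h3

/-- products of conjugate systems -/
private theorem conf_prod {k : ℕ} (z : Fin k → F) (hint : ∀ i, IsIntegral ℤ (z i))
    (h0 : ∀ i, z i ≠ 0)
    (hperm : ∀ σ : F ≃ₐ[ℚ] F, ∃ π : Equiv.Perm (Fin k), ∀ i, σ (z i) = z (π i))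
    (B : ℝ) (hB : 1 ≤ B) (hzB : ∀ i, ‖ψ (z i)‖ ≤ B) (i0 : Fin k) : 1 ≤ ‖ψ (z i0)‖ * B ^ k := by
  have h1 : 1 ≤ ‖ψ (∏ i, z i)‖ := by
    apply conf_one_le ψ _ (IsIntegral.prod _ fun i _ => hint i)
      (Finset.prod_ne_zero_iff.2 fun i _ => h0 i)
    intro σ
    obtain ⟨π, hπ⟩ := hperm σ
    rw [map_prod]
    simp only [hπ]
    exact Equiv.prod_comp π z
  rw [map_prod, norm_prod, ← Finset.mul_prod_erase _ _ (Finset.mem_univ i0)] at h1
  have h2 : ∏ i ∈ Finset.univ.erase i0, ‖ψ (z i)‖ ≤ B ^ k := by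
    calc ∏ i ∈ Finset.univ.erase i0, ‖ψ (z i)‖ ≤ ∏ _i ∈ (Finset.univ : Finset (Fin k)).erase i0, B :=
          Finset.prod_le_prod (fun i _ => norm_nonneg _) fun i _ => hzB i
      _ = B ^ ((Finset.univ : Finset (Fin k)).erase i0).card := by rw [Finset.prod_const]
      _ ≤ B ^ k := by
          apply pow_le_pow_right₀ hB
          refine (Finset.card_le_univ _).trans ?_
          rw [Fintype.card_fin]
  exact h1.trans (mul_le_mul_of_nonneg_left h2 (norm_nonneg _))

/-- the matrix of the system over `F` -/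
private def vF (k : ℕ) (l' : Fin k → F) (ex : ℕ → ℕ) : Matrix (Fin k) (Fin k) F :=
  fun n i => ((n : ℕ).choose (ex i) : F) * l' i ^ ((n : ℕ) - ex i)

omit [Algebra ℚ F] [IsGalois ℚ F] in
private theorem vF_map {k : ℕ} {l : ℕ → ℂ} {ex : ℕ → ℕ} {l' : Fin k → F}
    (hl' : ∀ i, ψ (l' i) = l i) : ψ (vF k l' ex).det = (vmat k fun i => (l i, ex i)).det := by
  rw [RingHom.map_det]
  congr 1
  ext n i
  simp only [RingHom.mapMatrix_apply, Matrix.map_apply, vF, vmat, map_mul, map_natCast, map_pow,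
    hl']

omit [IsGalois ℚ F] in
private theorem conf_perm {k : ℕ} {b : ℕ → ℤ} {w : ℕ → ℝ} {l c : ℕ → ℂ} {ex : ℕ → ℕ}
    (hrd : RootData k (fun t => (b t : ℝ)) w l c ex) {l' : Fin k → F}
    (hl' : ∀ i, ψ (l' i) = l i) (σ : F ≃ₐ[ℚ] F) :
    ∃ π : Equiv.Perm (Fin k), ∀ i, σ (l' i) = l' (π i) ∧ ex (π i) = ex i := by
  have h1 : ∀ i : Fin k, ∃ j : Fin k, l j = ψ (σ (l' i)) ∧ ex j = ex i := by
    intro i
    apply hrd.surj
    rw [count_roots, ← Nat.succ_le_iff, le_rootMultiplicity_iff (cp_monic k _).ne_zero]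
    apply pow_dvd_of_hasse
    intro e he
    rw [hasse_cp, sub_eq_zero]
    have h2 := hrd.2.2.1 i i.2 e (by omega)
    rw [← hl' i] at h2
    have h3 : (k.choose e : F) * l' i ^ (k - e) =
        ∑ t ∈ range k, (b t : F) * ((k - 1 - t).choose e : F) * l' i ^ (k - 1 - t - e) := by
      apply ψ.injective
      rw [map_mul, map_pow, map_sum, map_natCast, h2]
      apply Finset.sum_congr rfl
      intro t _
      rw [map_mul, map_mul, map_pow, map_natCast, map_intCast]
      push_cast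
      rfl
    have h4 := congrArg (fun x => ψ (σ x)) h3
    simp only [map_mul, map_pow, map_sum, map_natCast, map_intCast] at h4
    rw [h4]
    apply Finset.sum_congr rfl
    intro t _
    push_cast
    rfl
  choose π hπ using h1
  have hπ' : ∀ i, l' (π i) = σ (l' i) := by
    intro i
    apply ψ.injective
    rw [hl', (hπ i).1]
  have hinj : Function.Injective π := by
    intro i j hij
    have h5 : l' i = l' j := by
      apply σ.injective
      rw [← hπ', ← hπ', hij]
    have h6 : ex i = ex j := by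
      rw [← (hπ i).2, ← (hπ j).2, hij]
    by_contra hne
    have hne' : (i : ℕ) ≠ j := fun h => hne (Fin.ext h)
    rcases hrd.2.1 i i.2 j j.2 hne' with h' | h'
    · apply h'
      rw [← hl', ← hl', h5]
    · exact h' h6
  refine ⟨Equiv.ofBijective π (Finite.injective_iff_bijective.1 hinj), fun i => ?_⟩
  rw [Equiv.ofBijective_apply]
  exact ⟨(hπ' i).symm, (hπ i).2⟩

omit [IsGalois ℚ F] in
private theorem vF_sigma {k : ℕ} {ex : ℕ → ℕ} {l' : Fin k → F} {σ : F ≃ₐ[ℚ] F}
    {π : Equiv.Perm (Fin k)} (hπ : ∀ i, σ (l' i) = l' (π i) ∧ ex (π i) = ex i) (n i : Fin k) :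
    σ (vF k l' ex n i) = vF k l' ex n (π i) := by
  simp only [vF, map_mul, map_natCast, map_pow, (hπ i).1, (hπ i).2]

omit [IsGalois ℚ F] in
private theorem vF_sigma_det {k : ℕ} {ex : ℕ → ℕ} {l' : Fin k → F} {σ : F ≃ₐ[ℚ] F}
    {π : Equiv.Perm (Fin k)} (hπ : ∀ i, σ (l' i) = l' (π i) ∧ ex (π i) = ex i) :
    σ ((vF k l' ex).det ^ 2) = (vF k l' ex).det ^ 2 := by
  have h1 : σ (vF k l' ex).det = ((vF k l' ex).submatrix id π).det := by
    rw [AlgEquiv.map_det]
    congr 1
    ext n i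
    exact vF_sigma hπ n i
  rw [map_pow, h1, Matrix.det_permute', mul_pow]
  rcases Int.units_eq_one_or (Equiv.Perm.sign π) with h | h <;> rw [h] <;> simp

omit [Algebra ℚ F] [IsGalois ℚ F] in
/-- uniqueness of the solution -/
private theorem vF_unique {k : ℕ} {ex : ℕ → ℕ} {l' : Fin k → F} (hdet : (vF k l' ex).det ≠ 0)
    {c c' : Fin k → F} (h : ∀ n, ∑ i, vF k l' ex n i * c i = ∑ i, vF k l' ex n i * c' i) :
    c = c' := by
  have h1 : (vF k l' ex).mulVec (c - c') = 0 := by
    funext n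
    rw [Matrix.mulVec_sub, Pi.sub_apply, Pi.zero_apply, sub_eq_zero]
    exact h n
  exact sub_eq_zero.1 (Matrix.eq_zero_of_mulVec_eq_zero hdet h1)

omit [Algebra ℚ F] [IsGalois ℚ F] in
private theorem vF_cramer {k : ℕ} {ex : ℕ → ℕ} {l' : Fin k → F} {c : Fin k → F} {w : ℕ → ℤ}
    (h : ∀ n : Fin k, ∑ i, vF k l' ex n i * c i = (w n : F)) (i : Fin k) :
    (vF k l' ex).det * c i = ((vF k l' ex).updateCol i fun n => (w n : F)).det := by
  have h1 : (vF k l' ex).mulVec c = fun n : Fin k => (w n : F) := by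
    funext n
    exact h n
  rw [← Matrix.cramer_apply, ← h1, Matrix.cramer_eq_adjugate_mulVec, Matrix.mulVec_mulVec,
    Matrix.adjugate_mul, Matrix.smul_mulVec, Matrix.one_mulVec]
  simp

omit [Algebra ℚ F] [IsGalois ℚ F] in
private theorem vF_int {k : ℕ} {ex : ℕ → ℕ} {l' : Fin k → F} (hint : ∀ i, IsIntegral ℤ (l' i))
    (n i : Fin k) : IsIntegral ℤ (vF k l' ex n i) := by
  unfold vF
  have h1 : IsIntegral ℤ (((n : ℕ).choose (ex i) : ℕ) : F) := by
    have := isIntegral_algebraMap (R := ℤ) (A := F) (x := (((n : ℕ).choose (ex i) : ℕ) : ℤ))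
    simpa using this
  exact h1.mul ((hint i).pow _)

omit [Algebra ℚ F] [IsGalois ℚ F] in
private theorem vF_int_det {k : ℕ} {ex : ℕ → ℕ} {l' : Fin k → F}
    (hint : ∀ i, IsIntegral ℤ (l' i)) : IsIntegral ℤ (vF k l' ex).det :=
  IsIntegral.det fun n i => vF_int hint n i

omit [Algebra ℚ F] [IsGalois ℚ F] in
private theorem vF_int_det' {k : ℕ} {ex : ℕ → ℕ} {l' : Fin k → F}
    (hint : ∀ i, IsIntegral ℤ (l' i)) (w : ℕ → ℤ) (i : Fin k) :
    IsIntegral ℤ ((vF k l' ex).updateCol i fun n => (w n : F)).det := by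
  refine IsIntegral.det fun n j => ?_
  by_cases hj : j = i
  · subst hj
    rw [Matrix.updateCol_self]
    exact isIntegral_algebraMap (R := ℤ) (x := w n)
  · rw [Matrix.updateCol_ne hj]
    exact vF_int hint n j

omit [Algebra ℚ F] [IsGalois ℚ F] in
private theorem vF_norm {k : ℕ} {ex : ℕ → ℕ} {l' : Fin k → F} {R : ℝ} (hR : 1 ≤ R)
    (hRl : ∀ i, ‖ψ (l' i)‖ ≤ R) (n i : Fin k) : ‖ψ (vF k l' ex n i)‖ ≤ (2 * R) ^ k := by
  unfold vF
  rw [map_mul, map_natCast, map_pow, norm_mul, norm_pow, mul_pow]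
  have h1 : ‖(((n : ℕ).choose (ex i) : ℕ) : ℂ)‖ ≤ 2 ^ k := by
    rw [Complex.norm_natCast]
    have h2 : (n : ℕ).choose (ex i) ≤ 2 ^ k :=
      (Nat.choose_le_two_pow _ _).trans (Nat.pow_le_pow_right (by norm_num) n.2.le)
    exact_mod_cast h2
  have h3 : ‖ψ (l' i)‖ ^ ((n : ℕ) - ex i) ≤ R ^ k :=
    (pow_le_pow_left₀ (norm_nonneg _) (hRl i) _).trans
      (pow_le_pow_right₀ hR ((Nat.sub_le _ _).trans n.2.le))
  exact mul_le_mul h1 h3 (by positivity) (by positivity)

omit [Algebra ℚ F] [IsGalois ℚ F] in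
private theorem vF_norm_det {k : ℕ} {ex : ℕ → ℕ} {l' : Fin k → F} {R : ℝ} (hR : 1 ≤ R)
    (hRl : ∀ i, ‖ψ (l' i)‖ ≤ R) : ‖ψ (vF k l' ex).det‖ ≤ k.factorial * (2 * R) ^ (k * k) := by
  rw [RingHom.map_det]
  refine (conf_det_bound _ (fun _ => (2 * R) ^ k) fun n i => ?_).trans ?_
  · exact vF_norm ψ hR hRl n i
  · rw [Finset.prod_const, Finset.card_univ, Fintype.card_fin, ← pow_mul]

omit [Algebra ℚ F] [IsGalois ℚ F] in
private theorem vF_norm_det' {k : ℕ} {ex : ℕ → ℕ} {l' : Fin k → F} {R : ℝ} (hR : 1 ≤ R)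
    (hRl : ∀ i, ‖ψ (l' i)‖ ≤ R) (w : ℕ → ℤ) (U : ℝ) (hU1 : 1 ≤ U)
    (hU : ∀ n < k, |(w n : ℝ)| ≤ U) (i : Fin k) :
    ‖ψ ((vF k l' ex).updateCol i fun n => (w n : F)).det‖ ≤
      k.factorial * (2 * R) ^ (k * k) * U := by
  rw [RingHom.map_det]
  have h2R : 1 ≤ 2 * R := by linarith
  refine (conf_det_bound _ (Function.update (fun _ => (2 * R) ^ k) i U) fun n j => ?_).trans ?_
  · simp only [RingHom.mapMatrix_apply, Matrix.map_apply]
    by_cases hj : j = i
    · subst hj
      rw [Matrix.updateCol_self, Function.update_self, map_intCast]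
      rw [Complex.norm_intCast]
      exact hU n n.2
    · rw [Matrix.updateCol_ne hj, Function.update_of_ne hj]
      exact vF_norm ψ hR hRl n j
  · rw [mul_assoc]
    refine mul_le_mul_of_nonneg_left ?_ (Nat.cast_nonneg _)
    rw [Finset.prod_update_of_mem (Finset.mem_univ i), Finset.prod_const, mul_comm]
    refine mul_le_mul_of_nonneg_right ?_ (by linarith)
    rw [← pow_mul]
    refine pow_le_pow_right₀ h2R (Nat.mul_le_mul_left k ?_)
    refine (Finset.card_le_univ _).trans ?_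
    rw [Fintype.card_fin]

omit [IsGalois ℚ F] in
private theorem conf_int {k : ℕ} {b : ℕ → ℤ} {w : ℕ → ℝ} {l c : ℕ → ℂ} {ex : ℕ → ℕ}
    (hrd : RootData k (fun t => (b t : ℝ)) w l c ex) {l' : Fin k → F}
    (hl' : ∀ i, ψ (l' i) = l i) (i : Fin k) : IsIntegral ℤ (l' i) := by
  have hdeg : (∑ t ∈ range k, C (b t) * X ^ (k - 1 - t) : ℤ[X]).degree < k := by
    rw [degree_lt_iff_coeff_zero]
    intro m hm
    rw [finsetSum_coeff]
    apply Finset.sum_eq_zero
    intro t ht
    rw [mem_range] at ht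
    rw [coeff_C_mul_X_pow, if_neg]
    omega
  refine ⟨X ^ k - ∑ t ∈ range k, C (b t) * X ^ (k - 1 - t), monic_X_pow_sub hdeg, ?_⟩
  have h2 := hrd.2.2.1 i i.2 0 (Nat.zero_le _)
  rw [← hl' i] at h2
  apply ψ.injective
  rw [eval₂_sub, eval₂_pow, eval₂_X, eval₂_finsetSum, map_sub, map_zero, sub_eq_zero, map_pow,
    map_sum]
  simp only [Nat.choose_zero_right, Nat.cast_one, one_mul, Nat.sub_zero, mul_one] at h2
  rw [h2]
  apply Finset.sum_congr rfl
  intro t _
  rw [eval₂_mul, eval₂_C, eval₂_pow, eval₂_X, map_mul, map_pow]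
  simp

/-- the terms of the merged coefficient -/
private noncomputable def yt {k : ℕ} (l' c' : Fin k → F) (ex : ℕ → ℕ) (n0 a : ℕ) (j i : Fin k) :
    F := by
  classical
  exact if l' i ^ n0 = l' j ^ n0 ∧ ex i = ex j then c' i * (l' i / l' j) ^ a else 0

omit [IsGalois ℚ F] in
private theorem yt_sigma {k : ℕ} {l' c' : Fin k → F} {ex : ℕ → ℕ} {n0 a : ℕ} {σ : F ≃ₐ[ℚ] F}
    {π : Equiv.Perm (Fin k)} (hπ : ∀ i, σ (l' i) = l' (π i) ∧ ex (π i) = ex i)
    (hc : ∀ i, σ (c' i) = c' (π i)) (j i : Fin k) :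
    σ (yt l' c' ex n0 a j i) = yt l' c' ex n0 a (π j) (π i) := by
  classical
  unfold yt
  have h1 : (l' i ^ n0 = l' j ^ n0 ∧ ex i = ex j) ↔
      (l' (π i) ^ n0 = l' (π j) ^ n0 ∧ ex (π i) = ex (π j)) := by
    rw [(hπ i).2, (hπ j).2, ← (hπ i).1, ← (hπ j).1, ← map_pow, ← map_pow]
    constructor
    · rintro ⟨h2, h3⟩
      exact ⟨by rw [h2], h3⟩
    · rintro ⟨h2, h3⟩
      exact ⟨σ.injective h2, h3⟩
  by_cases h : l' i ^ n0 = l' j ^ n0 ∧ ex i = ex j
  · rw [if_pos h, if_pos (h1.1 h), map_mul, map_pow, map_div₀, hc, (hπ i).1, (hπ j).1]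
  · rw [if_neg h, if_neg fun h2 => h (h1.2 h2), map_zero]

private theorem conf_main {k : ℕ} (hk : 0 < k) {b w : ℕ → ℤ} {l c : ℕ → ℂ} {ex : ℕ → ℕ}
    (hrd : RootData k (fun t => (b t : ℝ)) (fun n => (w n : ℝ)) l c ex) {R U : ℝ} (hR : 1 ≤ R)
    (hRl : ∀ i < k, ‖l i‖ ≤ R) (hU : 1 ≤ U) (hUw : ∀ n < k, |(w n : ℝ)| ≤ U)
    {l' : Fin k → F} (hl' : ∀ i, ψ (l' i) = l i) :
    ∃ c' : Fin k → F, (∀ i, ψ (c' i) = c i) ∧
      (∀ i : Fin k, ‖c i‖ ≤ k.factorial * (2 * R) ^ (k * k) * U) ∧
      (∀ i, l' i ≠ 0 → 1 ≤ ‖ψ (l' i)‖ * R ^ k) ∧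
      ∀ (j : Fin k) (n0 a : ℕ), 0 < n0 → l' j ≠ 0 → ∑ i, yt l' c' ex n0 a j i ≠ 0 →
        1 ≤ ‖ψ (∑ i, yt l' c' ex n0 a j i)‖ *
          (k * (k.factorial * (2 * R) ^ (k * k)) ^ 3 * U) ^ (k + 1) := by
  classical
  have hk1 : (1 : ℝ) ≤ k := by exact_mod_cast hk
  have hRl' : ∀ i, ‖ψ (l' i)‖ ≤ R := fun i => by rw [hl']; exact hRl i i.2
  have hint := fun i => conf_int ψ hrd hl' i
  have hdet0 : ψ (vF k l' ex).det ≠ 0 := by
    rw [vF_map ψ hl']
    exact hrd.det_ne_zero
  have hdet : (vF k l' ex).det ≠ 0 := fun h => hdet0 (by rw [h, map_zero])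
  obtain ⟨G, hG⟩ : ∃ G : ℝ, G = k.factorial * (2 * R) ^ (k * k) := ⟨_, rfl⟩
  have hG1 : 1 ≤ G := by
    rw [hG]
    have h1 : (1 : ℝ) ≤ k.factorial := by exact_mod_cast Nat.factorial_pos k
    have h2 : (1 : ℝ) ≤ (2 * R) ^ (k * k) := one_le_pow₀ (by linarith)
    exact one_le_mul_of_one_le_of_one_le h1 h2
  rw [← hG]
  -- the determinant has norm at least one
  have hdet1 : 1 ≤ ‖ψ (vF k l' ex).det‖ := by
    have h1 := conf_one_le ψ ((vF k l' ex).det ^ 2) ((vF_int_det hint).pow 2)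
      (pow_ne_zero 2 hdet) (fun σ => by
        obtain ⟨π, hπ⟩ := conf_perm ψ hrd hl' σ
        exact vF_sigma_det hπ)
    rw [map_pow, norm_pow] at h1
    by_contra hcon
    have h2 := pow_lt_one₀ (norm_nonneg _) (not_le.1 hcon) two_ne_zero
    linarith
  -- the coefficients over `F`
  obtain ⟨c', hc'⟩ : ∃ c' : Fin k → F, ∀ n : Fin k, ∑ i, vF k l' ex n i * c' i = (w n : F) := by
    refine ⟨(vF k l' ex)⁻¹.mulVec fun n => (w n : F), fun n => ?_⟩
    have h1 : (vF k l' ex).mulVec ((vF k l' ex)⁻¹.mulVec fun n : Fin k => (w n : F)) =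
        fun n : Fin k => (w n : F) := by
      rw [Matrix.mulVec_mulVec, Matrix.mul_nonsing_inv _ (isUnit_iff_ne_zero.2 hdet),
        Matrix.one_mulVec]
    exact congrFun h1 n
  have hψc : ∀ i, ψ (c' i) = c i := by
    have h1 : (vmat k fun i => (l i, ex i)).mulVec (fun i => ψ (c' i)) =
        (vmat k fun i => (l i, ex i)).mulVec (fun i : Fin k => c i) := by
      funext n
      have h2 := hrd.2.2.2 n n.2
      rw [Finset.sum_range] at h2
      have h3 := congrArg ψ (hc' n)
      rw [map_sum, map_intCast] at h3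
      have h4 : (vmat k fun i => (l i, ex i)).mulVec (fun i => ψ (c' i)) n = (w n : ℂ) := by
        rw [← h3]
        simp only [Matrix.mulVec, dotProduct, vmat, vF, map_mul, map_natCast, map_pow, hl']
      have h5 : (vmat k fun i => (l i, ex i)).mulVec (fun i : Fin k => c i) n = (w n : ℂ) := by
        have h6 : (((w n : ℤ) : ℝ) : ℂ) = (w n : ℂ) := by push_cast; rfl
        rw [← h6, ← h2]
        simp only [Matrix.mulVec, dotProduct, vmat]
        apply Finset.sum_congr rfl
        intro i _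
        ring
      rw [h4, h5]
    intro i
    have h2 : (fun i => ψ (c' i)) - (fun i : Fin k => c i) = 0 := by
      apply Matrix.eq_zero_of_mulVec_eq_zero hrd.det_ne_zero
      rw [Matrix.mulVec_sub, h1, sub_self]
    exact congrFun (sub_eq_zero.1 h2) i
  have hcr := fun i => vF_cramer hc' i
  have hcb : ∀ i : Fin k, ‖c i‖ ≤ G * U := by
    intro i
    have h1 := vF_norm_det' ψ (ex := ex) hR hRl' w U hU hUw i
    rw [← hcr i, map_mul, norm_mul, hψc, ← hG] at h1
    calc ‖c i‖ = 1 * ‖c i‖ := (one_mul _).symm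
      _ ≤ ‖ψ (vF k l' ex).det‖ * ‖c i‖ := mul_le_mul_of_nonneg_right hdet1 (norm_nonneg _)
      _ ≤ G * U := h1
  have hGdet : ‖ψ (vF k l' ex).det‖ ≤ G := by
    rw [hG]
    exact vF_norm_det ψ hR hRl'
  refine ⟨c', hψc, hcb, ?_, ?_⟩
  · intro i hi
    obtain ⟨z, hz⟩ : ∃ z : Fin k → F, z = fun i => if l' i = 0 then 1 else l' i := ⟨_, rfl⟩
    have h1 := conf_prod ψ z (fun i => by
        rw [hz]
        dsimp only
        split_ifs
        · exact isIntegral_one
        · exact hint i)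
      (fun i => by
        rw [hz]
        dsimp only
        split_ifs with h
        · exact one_ne_zero
        · exact h)
      (fun σ => by
        obtain ⟨π, hπ⟩ := conf_perm ψ hrd hl' σ
        refine ⟨π, fun i => ?_⟩
        rw [hz]
        dsimp only
        by_cases h : l' i = 0
        · have h' : l' (π i) = 0 := by rw [← (hπ i).1, h, map_zero]
          rw [if_pos h, if_pos h', map_one]
        · have h' : l' (π i) ≠ 0 := by
            rw [← (hπ i).1]
            exact fun h2 => h ((map_eq_zero_iff σ σ.injective).1 h2)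
          rw [if_neg h, if_neg h', (hπ i).1])
      R hR (fun i => by
        rw [hz]
        dsimp only
        split_ifs
        · rw [map_one, norm_one]
          exact hR
        · exact hRl' i) i
    have h2 : z i = l' i := by
      rw [hz]
      exact if_neg hi
    rw [h2] at h1
    exact h1
  · intro j n0 a hn0 hj hy
    obtain ⟨y, hydef⟩ : ∃ y : Fin k → F, y = fun j => ∑ i, yt l' c' ex n0 a j i := ⟨_, rfl⟩
    have hyj : ∑ i, yt l' c' ex n0 a j i = y j := by rw [hydef]
    rw [hyj] at hy ⊢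
    obtain ⟨B, hB⟩ : ∃ B : ℝ, B = k * G ^ 3 * U := ⟨_, rfl⟩
    rw [← hB]
    have hG2 : G ^ 2 ≤ B := by
      rw [hB]
      have h1 : (1 : ℝ) ≤ k * G * U :=
        one_le_mul_of_one_le_of_one_le (one_le_mul_of_one_le_of_one_le hk1 hG1) hU
      calc G ^ 2 = G ^ 2 * 1 := (mul_one _).symm
        _ ≤ G ^ 2 * (k * G * U) := mul_le_mul_of_nonneg_left h1 (by positivity)
        _ = k * G ^ 3 * U := by ring
    have hB1 : 1 ≤ B := le_trans (one_le_pow₀ hG1) hG2
    have hratio : ∀ j i : Fin k, l' j ≠ 0 → l' i ^ n0 = l' j ^ n0 → (l' i / l' j) ^ n0 = 1 := by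
      intro j i hj h
      rw [div_pow, h, div_self (pow_ne_zero _ hj)]
    have hyint : ∀ j, l' j ≠ 0 → IsIntegral ℤ ((vF k l' ex).det ^ 2 * y j) := by
      intro j hj
      rw [hydef]
      dsimp only
      rw [Finset.mul_sum]
      apply IsIntegral.sum
      intro i _
      unfold yt
      split_ifs with h
      · have h1 : (vF k l' ex).det ^ 2 * (c' i * (l' i / l' j) ^ a) =
            (vF k l' ex).det * ((vF k l' ex).det * c' i) * (l' i / l' j) ^ a := by ring
        rw [h1, hcr i]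
        refine ((vF_int_det hint).mul (vF_int_det' hint w i)).mul (IsIntegral.pow ?_ a)
        apply IsIntegral.of_pow hn0
        rw [hratio j i hj h.1]
        exact isIntegral_one
      · rw [mul_zero]
        exact isIntegral_zero
    have hynorm : ∀ j, l' j ≠ 0 → ‖ψ ((vF k l' ex).det ^ 2 * y j)‖ ≤ B := by
      intro j hj
      have h1 : ‖ψ (y j)‖ ≤ k * (G * U) := by
        rw [hydef]
        dsimp only
        rw [map_sum]
        refine (norm_sum_le _ _).trans ?_
        calc ∑ i, ‖ψ (yt l' c' ex n0 a j i)‖ ≤ ∑ _i : Fin k, G * U := by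
              apply Finset.sum_le_sum
              intro i _
              unfold yt
              split_ifs with h
              · have h2 : ‖ψ (l' i / l' j)‖ = 1 := by
                  have h3 := congrArg (fun x => ‖ψ x‖) (hratio j i hj h.1)
                  simp only [map_pow, norm_pow, map_one, norm_one] at h3
                  exact (pow_eq_one_iff_of_nonneg (norm_nonneg _) hn0.ne').1 h3
                rw [map_mul, map_pow, norm_mul, norm_pow, h2, one_pow, mul_one, hψc]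
                exact hcb i
              · rw [map_zero, norm_zero]
                positivity
          _ = k * (G * U) := by
              rw [Finset.sum_const, Finset.card_univ, Fintype.card_fin, nsmul_eq_mul]
      rw [map_mul, map_pow, norm_mul, norm_pow, hB]
      calc ‖ψ (vF k l' ex).det‖ ^ 2 * ‖ψ (y j)‖ ≤ G ^ 2 * (k * (G * U)) := by
            apply mul_le_mul (pow_le_pow_left₀ (norm_nonneg _) hGdet 2) h1 (norm_nonneg _)
            positivity
        _ = k * G ^ 3 * U := by ring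
    obtain ⟨z, hz⟩ : ∃ z : Fin k → F, z = fun i =>
        if l' i = 0 ∨ y i = 0 then 1 else (vF k l' ex).det ^ 2 * y i := ⟨_, rfl⟩
    have h1 := conf_prod ψ z (fun i => by
        rw [hz]
        dsimp only
        split_ifs with h
        · exact isIntegral_one
        · push Not at h
          exact hyint i h.1)
      (fun i => by
        rw [hz]
        dsimp only
        split_ifs with h
        · exact one_ne_zero
        · push Not at h
          exact mul_ne_zero (pow_ne_zero 2 hdet) h.2)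
      (fun σ => by
        obtain ⟨π, hπ⟩ := conf_perm ψ hrd hl' σ
        have hcσ : ∀ i, σ (c' i) = c' (π i) := by
          have h2 : (fun i => σ (c' (π.symm i))) = c' := by
            apply vF_unique hdet
            intro n
            rw [hc' n]
            have h3 := congrArg σ (hc' n)
            rw [map_sum, map_intCast] at h3
            rw [← h3]
            rw [← Equiv.sum_comp π]
            apply Finset.sum_congr rfl
            intro i _
            rw [Equiv.symm_apply_apply, map_mul, vF_sigma hπ]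
          intro i
          have h3 := congrFun h2 (π i)
          simp only [Equiv.symm_apply_apply] at h3
          exact h3
        have hyσ : ∀ i, σ (y i) = y (π i) := by
          intro i
          rw [hydef]
          dsimp only
          rw [map_sum, ← Equiv.sum_comp π (yt l' c' ex n0 a (π i))]
          apply Finset.sum_congr rfl
          intro t _
          exact yt_sigma hπ hcσ i t
        refine ⟨π, fun i => ?_⟩
        rw [hz]
        dsimp only
        by_cases h : l' i = 0 ∨ y i = 0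
        · have h' : l' (π i) = 0 ∨ y (π i) = 0 := by
            rcases h with h | h
            · left
              rw [← (hπ i).1, h, map_zero]
            · right
              rw [← hyσ i, h, map_zero]
          rw [if_pos h, if_pos h', map_one]
        · have h' : ¬ (l' (π i) = 0 ∨ y (π i) = 0) := by
            rintro (h2 | h2)
            · rw [← (hπ i).1] at h2
              exact h (Or.inl ((map_eq_zero_iff σ σ.injective).1 h2))
            · rw [← hyσ i] at h2
              exact h (Or.inr ((map_eq_zero_iff σ σ.injective).1 h2))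
          rw [if_neg h, if_neg h', map_mul, vF_sigma_det hπ, hyσ])
      B hB1 (fun i => by
        rw [hz]
        dsimp only
        split_ifs with h
        · rw [map_one, norm_one]
          exact hB1
        · push Not at h
          exact hynorm i h.1) j
    have h2 : z j = (vF k l' ex).det ^ 2 * y j := by
      rw [hz]
      apply if_neg
      push Not
      exact ⟨hj, hy⟩
    rw [h2, map_mul, map_pow, norm_mul, norm_pow] at h1
    calc (1 : ℝ) ≤ ‖ψ (vF k l' ex).det‖ ^ 2 * ‖ψ (y j)‖ * B ^ k := h1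
      _ ≤ B * ‖ψ (y j)‖ * B ^ k := by
          apply mul_le_mul_of_nonneg_right _ (by positivity)
          apply mul_le_mul_of_nonneg_right _ (norm_nonneg _)
          exact (pow_le_pow_left₀ (norm_nonneg _) hGdet 2).trans hG2
      _ = ‖ψ (y j)‖ * B ^ (k + 1) := by ring

end

private theorem conf_galois : IsGalois ℚ (algebraicClosure ℚ ℂ) := by
  have h1 : Algebra.IsAlgebraic ℚ (algebraicClosure ℚ ℂ) := algebraicClosure.isAlgebraic ℚ ℂ
  have h2 : Algebra.IsSeparable ℚ (algebraicClosure ℚ ℂ) :=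
    Algebra.IsAlgebraic.isSeparable_of_perfectField
  have h3 : IsAlgClosure ℚ (algebraicClosure ℚ ℂ) := algebraicClosure.isAlgClosure ℚ ℂ
  have h4 : Normal ℚ (algebraicClosure ℚ ℂ) := IsAlgClosure.normal ℚ _
  exact ⟨⟩

open scoped Classical in
theorem conf_bounds (k : ℕ) (hk : 0 < k) (b w : ℕ → ℤ) (l c : ℕ → ℂ) (ex : ℕ → ℕ)
    (hrd : RootData k (fun t => (b t : ℝ)) (fun n => (w n : ℝ)) l c ex) (R U : ℝ) (hR : 1 ≤ R)
    (hRl : ∀ i < k, ‖l i‖ ≤ R) (hU : 1 ≤ U) (hUw : ∀ n < k, |(w n : ℝ)| ≤ U) :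
    (∀ i < k, ‖c i‖ ≤ k.factorial * (2 * R) ^ (k * k) * U) ∧
    (∀ i < k, l i ≠ 0 → 1 ≤ ‖l i‖ * R ^ k) ∧
    (∀ i0 n0 a : ℕ, i0 < k → 0 < n0 → l i0 ≠ 0 →
      ∑ i ∈ range k with l i ^ n0 = l i0 ^ n0 ∧ ex i = ex i0, c i * (l i / l i0) ^ a ≠ 0 →
      1 ≤ ‖∑ i ∈ range k with l i ^ n0 = l i0 ^ n0 ∧ ex i = ex i0, c i * (l i / l i0) ^ a‖ *
        (k * (k.factorial * (2 * R) ^ (k * k)) ^ 3 * U) ^ (k + 1)) := by
  have hgal := conf_galois
  -- the roots are algebraic
  have halg : ∀ i : Fin k, IsIntegral ℤ (l i) := by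
    intro i
    have hdeg : (∑ t ∈ range k, C (b t) * X ^ (k - 1 - t) : ℤ[X]).degree < k := by
      rw [degree_lt_iff_coeff_zero]
      intro m hm
      rw [finsetSum_coeff]
      apply Finset.sum_eq_zero
      intro t ht
      rw [mem_range] at ht
      rw [coeff_C_mul_X_pow, if_neg]
      omega
    refine ⟨X ^ k - ∑ t ∈ range k, C (b t) * X ^ (k - 1 - t), monic_X_pow_sub hdeg, ?_⟩
    have h2 := hrd.2.2.1 i i.2 0 (Nat.zero_le _)
    rw [eval₂_sub, eval₂_pow, eval₂_X, eval₂_finsetSum, sub_eq_zero]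
    simp only [Nat.choose_zero_right, Nat.cast_one, one_mul, Nat.sub_zero, mul_one] at h2
    rw [h2]
    apply Finset.sum_congr rfl
    intro t _
    rw [eval₂_mul, eval₂_C, eval₂_pow, eval₂_X]
    simp
  have hmem : ∀ i : Fin k, l i ∈ algebraicClosure ℚ ℂ := by
    intro i
    rw [mem_algebraicClosure_iff']
    exact (halg i).tower_top
  let ψ : algebraicClosure ℚ ℂ →+* ℂ := algebraMap _ ℂ
  let l' : Fin k → algebraicClosure ℚ ℂ := fun i => ⟨l i, hmem i⟩
  have hl' : ∀ i, ψ (l' i) = l i := fun i => rfl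
  obtain ⟨c', hc', h1, h2, h3⟩ := conf_main ψ hk hrd hR hRl hU hUw hl'
  refine ⟨fun i hi => h1 ⟨i, hi⟩, fun i hi hli => ?_, fun i0 n0 a hi0 hn0 hl0 hsum => ?_⟩
  · apply h2 ⟨i, hi⟩
    intro h0
    apply hli
    have := congrArg ψ h0
    rw [hl', map_zero] at this
    exact this
  · have hj : l' ⟨i0, hi0⟩ ≠ 0 := by
      intro h0
      apply hl0
      have := congrArg ψ h0
      rw [hl', map_zero] at this
      exact this
    have hsumeq : ∑ i ∈ range k with l i ^ n0 = l i0 ^ n0 ∧ ex i = ex i0,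
        c i * (l i / l i0) ^ a = ψ (∑ i, yt l' c' ex n0 a ⟨i0, hi0⟩ i) := by
      rw [Finset.sum_filter, Finset.sum_range, map_sum]
      apply Finset.sum_congr rfl
      intro i _
      unfold yt
      by_cases h : l i ^ n0 = l i0 ^ n0 ∧ ex i = ex i0
      · have h' : l' i ^ n0 = l' ⟨i0, hi0⟩ ^ n0 ∧ ex i = ex ((⟨i0, hi0⟩ : Fin k) : ℕ) := by
          refine ⟨?_, h.2⟩
          apply ψ.injective
          rw [map_pow, map_pow, hl', hl']
          exact h.1
        rw [if_pos h, if_pos h', map_mul, map_pow, map_div₀, hl', hl', hc']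
      · have h' : ¬ (l' i ^ n0 = l' ⟨i0, hi0⟩ ^ n0 ∧ ex i = ex ((⟨i0, hi0⟩ : Fin k) : ℕ)) := by
          rintro ⟨h4, h5⟩
          apply h
          refine ⟨?_, h5⟩
          have h6 := congrArg ψ h4
          rw [map_pow, map_pow, hl', hl'] at h6
          exact h6
        rw [if_neg h, if_neg h', map_zero]
    rw [hsumeq] at hsum ⊢
    apply h3 ⟨i0, hi0⟩ n0 a hn0 hj
    intro h0
    apply hsum
    rw [h0, map_zero]

end Pool.Agent.DD7719.M
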