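import Pool.Agent.DensePos.Window
import Pool.Agent.DD7719.CertComplete

/-! DP2b. Exponential polynomials are rarely small. -/

set_option autoImplicit false

namespace Pool.Agent.DensePos

open Finset Pool.Agent.DD7719.M

/- PROOF SKETCH (uses DP2a = `window_count`, which may still be sorry). By Dirichlet (`exists_n0` in
DD7719/CertComplete.lean with `e = 1`, `Q' = 2^(4a+4)`; reindex `ι` by `Fin (card ι)`) there is
`0 < h ≤ 2^((4a+4) K)` with `‖z i ^ h - 1‖ ≤ 7 / 2^(4a+4)` for all `i`. Put `w i = z i ^ h`. For each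
`s`, `∑ C i z i ^ (s + h t) = ∑ (C i z i ^ s) w i ^ t`, so by `window_count` at most `r 2^a` of the
`t < M = 2^(2a)` have a value `≤ ε`. An interval of length `h M` consists of `h` progressions of this
kind, so it contains at most `h r 2^a` small values; `[X, X + Y)` is covered by at most
`Y / (h M) + 1 ≤ 2 Y / (h M)` such intervals (`h M ≤ Y`). Total: `≤ 2 Y r 2^a / M = 2 Y r / 2^a`. -/

/-- covering an interval by progressions -/
private theorem remez_cover (S : ℕ → Prop) [DecidablePred S] (X Y h M c : ℕ) (hh : 0 < h)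
    (hM : 0 < M) (hc : ∀ s, ((range M).filter fun t => S (s + h * t)).card ≤ c) :
    ((Ico X (X + Y)).filter S).card ≤ (Y / (h * M) + 1) * (h * c) := by
  have hcov : (Ico X (X + Y)).filter S ⊆ (range (Y / (h * M) + 1)).biUnion fun j =>
      (range h).biUnion fun s => ((range M).filter fun t =>
        S ((X + h * M * j + s) + h * t)).image fun t => (X + h * M * j + s) + h * t := by
    intro m hm
    rw [mem_filter, mem_Ico] at hm
    obtain ⟨⟨h1, h2⟩, h3⟩ := hm
    obtain ⟨q, hq⟩ : ∃ q, q = m - X := ⟨_, rfl⟩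
    have hhM : 0 < h * M := Nat.mul_pos hh hM
    have e1 := Nat.div_add_mod q (h * M)
    have e2 := Nat.div_add_mod (q % (h * M)) h
    have e3 : q % (h * M) < h * M := Nat.mod_lt _ hhM
    have e4 : q % (h * M) / h < M := by
      rw [Nat.div_lt_iff_lt_mul hh, mul_comm M h]
      exact e3
    have e5 : q % (h * M) % h < h := Nat.mod_lt _ hh
    have e6 : q / (h * M) ≤ Y / (h * M) := Nat.div_le_div_right (by omega)
    have e7 : m = (X + h * M * (q / (h * M)) + q % (h * M) % h) + h * (q % (h * M) / h) := by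
      omega
    rw [mem_biUnion]
    refine ⟨q / (h * M), mem_range.2 (by omega), ?_⟩
    rw [mem_biUnion]
    refine ⟨q % (h * M) % h, mem_range.2 e5, ?_⟩
    rw [mem_image]
    refine ⟨q % (h * M) / h, ?_, e7.symm⟩
    rw [mem_filter]
    refine ⟨mem_range.2 e4, ?_⟩
    rw [← e7]
    exact h3
  refine (card_le_card hcov).trans ?_
  refine card_biUnion_le.trans ?_
  calc ∑ j ∈ range (Y / (h * M) + 1), ((range h).biUnion fun s => ((range M).filter fun t =>
        S ((X + h * M * j + s) + h * t)).image fun t => (X + h * M * j + s) + h * t).card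
      ≤ ∑ _j ∈ range (Y / (h * M) + 1), h * c := by
        apply sum_le_sum
        intro j _
        refine card_biUnion_le.trans ?_
        calc _ ≤ ∑ _s ∈ range h, c := by
              apply sum_le_sum
              intro s _
              exact card_image_le.trans (hc _)
          _ = h * c := by rw [sum_const, card_range, smul_eq_mul]
    _ = (Y / (h * M) + 1) * (h * c) := by rw [sum_const, card_range, smul_eq_mul]

open scoped Classical in
theorem remez_count {ι : Type} [Fintype ι] [Nonempty ι] (z C : ι → ℂ) (hz : ∀ i, ‖z i‖ = 1)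
    (P D a : ℕ) (ha : 2 ≤ a) (hK : Fintype.card ι ≤ a)
    (hC1 : ∀ i, (1 / 2 : ℝ) ^ P ≤ ‖C i‖) (hC2 : ∀ i, ‖C i‖ ≤ 2 ^ P)
    (hsep : ∀ h : ℕ, 0 < h → h ≤ 2 ^ ((4 * a + 4) * Fintype.card ι) → ∀ i j, i ≠ j →
      (1 / 2 : ℝ) ^ D ≤ ‖z i ^ h - z j ^ h‖)
    (ε : ℝ) (hε : ε ≤ (1 / 2) ^ ((a + 2) * (2 * P + (D + 1) * Fintype.card ι + 3)))
    (X Y : ℕ) (hY : 2 ^ ((4 * a + 4) * Fintype.card ι + 2 * a) ≤ Y) :
    ((Ico X (X + Y)).filter fun m => ‖∑ i, C i * z i ^ m‖ ≤ ε).card * 2 ^ a ≤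
      2 * (2 * P + (D + 1) * Fintype.card ι + 3) * Y := by
  obtain ⟨K, hKdef⟩ : ∃ K, K = Fintype.card ι := ⟨_, rfl⟩
  obtain ⟨e⟩ : Nonempty (ι ≃ Fin K) := by
    rw [hKdef]
    exact ⟨Fintype.equivFin ι⟩
  obtain ⟨h, hh, hhQ, hw⟩ := exists_n0 (fun i : Fin K => z (e.symm i)) (fun i => hz _) 1
    (2 ^ (4 * a + 4)) (by positivity)
  have hhQ' : h ≤ 2 ^ ((4 * a + 4) * K) := by
    rwa [← pow_mul] at hhQ
  have hw' : ∀ i : ι, ‖z i ^ h - 1‖ ≤ 7 / 2 ^ (4 * a + 4) := by
    intro i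
    have h1 := hw (e i)
    simp only [Equiv.symm_apply_apply, one_mul] at h1
    push_cast at h1
    exact h1
  obtain ⟨r, hr⟩ : ∃ r, r = 2 * P + (D + 1) * Fintype.card ι + 3 := ⟨_, rfl⟩
  have hwin : ∀ s, ((range (2 ^ (2 * a))).filter
      fun t => ‖∑ i, C i * z i ^ (s + h * t)‖ ≤ ε).card ≤ r * 2 ^ a := by
    intro s
    have h1 := window_count (fun i => z i ^ h) (fun i => C i * z i ^ s)
      (fun i => by rw [norm_pow, hz, one_pow]) P D a ha hK hw'
      (fun i => by rw [norm_mul, norm_pow, hz, one_pow, mul_one]; exact hC1 i)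
      (fun i => by rw [norm_mul, norm_pow, hz, one_pow, mul_one]; exact hC2 i)
      (fun i j hij => hsep h hh (by rw [← hKdef]; exact hhQ') i j hij) ε hε
    rw [← hr] at h1
    have h2 : ∀ t : ℕ, ∑ i, C i * z i ^ (s + h * t) = ∑ i, C i * z i ^ s * (z i ^ h) ^ t := by
      intro t
      apply sum_congr rfl
      intro i _
      rw [pow_add, pow_mul]
      ring
    simp only [h2]
    exact h1
  have hM : 0 < 2 ^ (2 * a) := by positivity
  have hcount := remez_cover (fun m => ‖∑ i, C i * z i ^ m‖ ≤ ε) X Y h (2 ^ (2 * a)) (r * 2 ^ a)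
    hh hM hwin
  rw [← hr]
  have hhM : h * 2 ^ (2 * a) ≤ Y := by
    calc h * 2 ^ (2 * a) ≤ 2 ^ ((4 * a + 4) * K) * 2 ^ (2 * a) := Nat.mul_le_mul_right _ hhQ'
      _ = 2 ^ ((4 * a + 4) * Fintype.card ι + 2 * a) := by rw [← hKdef, pow_add]
      _ ≤ Y := hY
  have hB : (Y / (h * 2 ^ (2 * a)) + 1) * (h * 2 ^ (2 * a)) ≤ 2 * Y := by
    have h3 := Nat.div_mul_le_self Y (h * 2 ^ (2 * a))
    have h4 : (Y / (h * 2 ^ (2 * a)) + 1) * (h * 2 ^ (2 * a)) =
      Y / (h * 2 ^ (2 * a)) * (h * 2 ^ (2 * a)) + h * 2 ^ (2 * a) := by ring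
    omega
  calc _ ≤ (Y / (h * 2 ^ (2 * a)) + 1) * (h * (r * 2 ^ a)) * 2 ^ a :=
        Nat.mul_le_mul_right _ hcount
    _ = (Y / (h * 2 ^ (2 * a)) + 1) * (h * 2 ^ (2 * a)) * r := by
        have h5 : (2 : ℕ) ^ (2 * a) = 2 ^ a * 2 ^ a := by rw [← pow_add]; congr 1; ring
        have h6 : ∀ B : ℕ, B * (h * (r * 2 ^ a)) * 2 ^ a = B * (h * (2 ^ a * 2 ^ a)) * r := by
          intro B; ring
        rw [h6, ← h5]
    _ ≤ 2 * Y * r := Nat.mul_le_mul_right _ hB
    _ = 2 * r * Y := by ring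

end Pool.Agent.DensePos
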