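import Pool.Agent.BakerGap.Gap

/-! DP1. A strong lower bound for `γ ^ n - 1`, quasi-polynomial in `n`. -/

set_option autoImplicit false

namespace Pool.Agent.DensePos

open Polynomial Pool.Agent.BakerGap

theorem strong_gap : ∃ C : ℕ, ∀ (d n : ℕ) (γ : ℂ) (g : ℤ[X]), g ≠ 0 → aeval γ g = 0 →
    ‖γ‖ = 1 → (∀ j : ℕ, 0 < j → γ ^ j ≠ 1) → g.natDegree ≤ d → (∀ i, |g.coeff i| ≤ 2 ^ d) →
    (2 + d) ^ C ≤ n →
    (1 / 2 : ℝ) ^ (((2 + d) * (Nat.log 2 n + 2)) ^ C) ≤ ‖γ ^ n - 1‖ := by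
  obtain ⟨C, hC⟩ := exists_threshold
  obtain ⟨E, hE⟩ : ∃ E, E = 2 * C + 2000 := ⟨_, rfl⟩
  refine ⟨E, ?_⟩
  intro d n γ g hg0 hg hγ htor hgd hgc hn
  have hE1 : 2 * C ≤ E := by omega
  have hE2 : 926 + 2 * 252 + 84 ≤ E := by omega
  obtain ⟨z, hz⟩ : ∃ z, z = 2 + d + 1 + 1 := ⟨_, rfl⟩
  have hw2 : 0 < 2 + d := by omega
  have hz3 : 3 ≤ z := by omega
  have hz0 : 0 < z := by omega
  have hzd : z ≤ (2 + d) ^ 2 := by rw [hz]; nlinarith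
  have hnz : z ^ C ≤ n := by
    calc z ^ C ≤ ((2 + d) ^ 2) ^ C := Nat.pow_le_pow_left hzd C
      _ = (2 + d) ^ (2 * C) := by rw [← pow_mul]
      _ ≤ (2 + d) ^ E := Nat.pow_le_pow_right hw2 hE1
      _ ≤ n := hn
  have hn0 : 0 < n := lt_of_lt_of_le (by positivity) hnz
  obtain ⟨r, hr⟩ : ∃ r, r = Nat.log 2 n := ⟨_, rfl⟩
  have hr2 : 0 < r + 2 := by omega
  have hw' : 2 ≤ (2 + d) * (r + 2) := by nlinarith
  rw [← hr]
  by_contra hcon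
  rw [not_le] at hcon
  -- parameters
  obtain ⟨y, hy⟩ : ∃ y, y = z ^ 3 * (r + 2) := ⟨_, rfl⟩
  have hy0 : 0 < y := by rw [hy]; positivity
  obtain ⟨N, hN⟩ : ∃ N, N = 2 ^ 22 * y ^ 2 := ⟨_, rfl⟩
  have hN0 : 0 < N := by rw [hN]; positivity
  obtain ⟨lam, hlam⟩ : ∃ lam, lam = 2 * z + r + 291 + 24 * Nat.log 2 y := ⟨_, rfl⟩
  have hzy : z ^ 3 ≤ y := by rw [hy]; exact Nat.le_mul_of_pos_right _ (by omega)
  have hz2y : z ^ 2 ≤ y := le_trans (Nat.pow_le_pow_right hz0 (by norm_num)) hzy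
  have hyy : y ≤ y ^ 2 := by rw [pow_two]; exact Nat.le_mul_of_pos_right _ hy0
  have hN5 : 5000 * (d * 1) * lam ≤ N := by
    have h1 : d * 1 ≤ z ^ 2 := by
      rw [pow_two]; exact Nat.mul_le_mul (by omega) (by omega)
    have h2 : Nat.log 2 y ≤ y := Nat.log_le_self 2 y
    have h3 : z ^ 2 * r ≤ y := by
      rw [hy]
      exact Nat.mul_le_mul (Nat.pow_le_pow_right hz0 (by norm_num)) (by omega)
    have h4 : z ^ 2 * y ≤ y ^ 2 := by rw [pow_two y]; exact Nat.mul_le_mul_right _ hz2y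
    have h5 : z ^ 2 * Nat.log 2 y ≤ z ^ 2 * y := Nat.mul_le_mul_left _ h2
    calc 5000 * (d * 1) * lam ≤ 5000 * z ^ 2 * lam := by gcongr
      _ = 5000 * (2 * z ^ 3 + z ^ 2 * r + 291 * z ^ 2 + 24 * (z ^ 2 * Nat.log 2 y)) := by
          rw [hlam]; ring
      _ ≤ 5000 * (2 * y ^ 2 + y ^ 2 + 291 * y ^ 2 + 24 * y ^ 2) := by
          have g1 : z ^ 3 ≤ y ^ 2 := hzy.trans hyy
          have g2 : z ^ 2 * r ≤ y ^ 2 := h3.trans hyy
          have g3 : z ^ 2 ≤ y ^ 2 := hz2y.trans hyy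
          have g4 : z ^ 2 * Nat.log 2 y ≤ y ^ 2 := h5.trans h4
          gcongr
      _ ≤ N := by rw [hN]; norm_num; nlinarith [hyy, hy0]
  have hlam1 : 2 * (d + 1) + 1 ≤ lam := by omega
  have hylog : y < 2 ^ (Nat.log 2 y + 1) := Nat.lt_pow_succ_log_self (by norm_num) y
  have hnlog : n < 2 ^ (r + 1) := by rw [hr]; exact Nat.lt_pow_succ_log_self (by norm_num) n
  have hX : 4 * n * N ^ 12 ≤ 2 ^ lam := by
    calc 4 * n * N ^ 12 = 2 ^ 266 * n * y ^ 24 := by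
          have e1 : (2 : ℕ) ^ 266 = 4 * 2 ^ 264 := by
            rw [show (4 : ℕ) = 2 ^ 2 by norm_num, ← pow_add]
          rw [hN, e1, mul_pow, ← pow_mul, ← pow_mul]
          norm_num only
          generalize (2 : ℕ) ^ 264 = c
          ring
      _ ≤ 2 ^ 266 * 2 ^ (r + 1) * (2 ^ (Nat.log 2 y + 1)) ^ 24 := by
          gcongr
      _ = 2 ^ (266 + (r + 1) + (Nat.log 2 y + 1) * 24) := by
          rw [← pow_mul, ← pow_add, ← pow_add]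
      _ ≤ 2 ^ lam := Nat.pow_le_pow_right (by norm_num) (by rw [hlam]; omega)
  -- the threshold
  have hth := hC z n hz3 hnz
  rw [← hr] at hth
  have hy84 : y ^ 84 = z ^ 252 * (r + 2) ^ 84 := by rw [hy, mul_pow, ← pow_mul]
  have hN42 : N ^ 42 = 2 ^ 924 * y ^ 84 := by rw [hN, mul_pow, ← pow_mul, ← pow_mul]
  obtain ⟨T, hT⟩ : ∃ T : ℕ, T = 2 ^ 926 := ⟨_, rfl⟩
  rw [← hT] at hth
  have hNn : 4 * N ^ 42 = T * z ^ 252 * (r + 2) ^ 84 := by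
    rw [hN42, hy84]
    have e1 : T = 4 * 2 ^ 924 := by
      rw [hT, show (4 : ℕ) = 2 ^ 2 by norm_num, ← pow_add]
    rw [e1]
    generalize (2 : ℕ) ^ 924 = c
    ring
  have hN6 : N ^ 6 ≤ n := by
    calc N ^ 6 ≤ N ^ 42 := Nat.pow_le_pow_right hN0 (by norm_num)
      _ ≤ 4 * N ^ 42 := Nat.le_mul_of_pos_left _ (by norm_num)
      _ = T * z ^ 252 * (r + 2) ^ 84 := hNn
      _ ≤ T * z ^ 253 * (r + 2) ^ 84 :=
          Nat.mul_le_mul_right _ (Nat.mul_le_mul_left _ (Nat.pow_le_pow_right hz0 (by norm_num)))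
      _ ≤ n := hth
  have hexp : 4 * N ^ 42 ≤ ((2 + d) * (r + 2)) ^ E := by
    have g1 : z ≤ ((2 + d) * (r + 2)) ^ 2 := by
      refine hzd.trans (Nat.pow_le_pow_left ?_ 2)
      exact Nat.le_mul_of_pos_right _ hr2
    have g2 : r + 2 ≤ (2 + d) * (r + 2) := Nat.le_mul_of_pos_left _ hw2
    have g3 : T ≤ ((2 + d) * (r + 2)) ^ 926 := by
      rw [hT]
      exact Nat.pow_le_pow_left hw' 926
    obtain ⟨w, hwdef⟩ : ∃ w, w = (2 + d) * (r + 2) := ⟨_, rfl⟩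
    rw [← hwdef] at hw' g1 g2 g3 ⊢
    calc 4 * N ^ 42 = T * z ^ 252 * (r + 2) ^ 84 := hNn
      _ ≤ w ^ 926 * (w ^ 2) ^ 252 * w ^ 84 :=
          Nat.mul_le_mul (Nat.mul_le_mul g3 (Nat.pow_le_pow_left g1 _)) (Nat.pow_le_pow_left g2 _)
      _ = w ^ (926 + 2 * 252 + 84) := by
          rw [← pow_mul, ← pow_add, ← pow_add]
      _ ≤ w ^ E := Nat.pow_le_pow_right (lt_of_lt_of_le Nat.zero_lt_two hw') hE2
  refine small_false d 1 n N lam γ 1 g (X - 1) hg0 hg hgd hgc (X_sub_C_ne_zero 1) (by simp)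
    (by rw [show (X - 1 : ℤ[X]) = X - Polynomial.C 1 by simp, natDegree_X_sub_C]) ?_ hγ htor hlam1 hN5 hX hN6 ?_
  · intro i
    rw [coeff_sub, coeff_X, coeff_one]
    split_ifs <;> norm_num
  · refine hcon.le.trans ?_
    exact pow_le_pow_of_le_one (by norm_num) (by norm_num) hexp

end Pool.Agent.DensePos
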