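import Pool.Agent.DensePos.ClassSmall
import Pool.Agent.DensePos.Strong
import Pool.Agent.DensePos.Remez

/-! DP6. The number of nonpositive terms in a dyadic block. -/

set_option autoImplicit false

namespace Pool.Agent.DD7719.M

open Finset Pool.Agent.DensePos

private theorem cn_nz_div (a b : ℂ) (h : ‖a‖ = ‖b‖) (hb : b ≠ 0) : nz a / nz b = a / b := by
  have ha : a ≠ 0 := by
    rintro rfl
    rw [norm_zero] at h
    exact hb (norm_eq_zero.1 h.symm)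
  have hb' : (‖b‖ : ℂ) ≠ 0 := by
    rw [Ne, Complex.ofReal_eq_zero]
    exact norm_ne_zero_iff.2 hb
  unfold nz
  rw [if_neg ha, if_neg hb, h]
  field_simp

private theorem cn_big (w : ℕ) : ∃ T : ℕ, ∀ t : ℕ, T ≤ t → (4 * t ^ w) ^ 2 ≤ 2 ^ t := by
  have h := tendsto_pow_const_div_const_pow_of_one_lt (2 * w) (r := (2 : ℝ)) (by norm_num)
  have h1 : ∀ᶠ n : ℕ in Filter.atTop, ((n : ℝ) ^ (2 * w) / 2 ^ n) < 1 / 16 :=
    h.eventually_lt_const (by norm_num)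
  obtain ⟨T, hT⟩ := Filter.eventually_atTop.1 h1
  refine ⟨T, fun t ht => ?_⟩
  have h2 := hT t ht
  rw [div_lt_iff₀ (by positivity)] at h2
  have h3 : (((4 * t ^ w) ^ 2 : ℕ) : ℝ) ≤ ((2 ^ t : ℕ) : ℝ) := by
    push_cast
    have h4 : ((4 : ℝ) * (t : ℝ) ^ w) ^ 2 = 16 * (t : ℝ) ^ (2 * w) := by
      rw [mul_pow, ← pow_mul, mul_comm w 2]
      norm_num
    rw [h4]
    linarith
  exact_mod_cast h3

private theorem cn_t2 {t : ℕ} (ht : 2 ≤ t) : 2 + t ≤ t ^ 2 := by nlinarith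

private theorem cn_log {C1 P a t n0 h K : ℕ} (ht : 2 ≤ t) (hP : P ≤ t) (hat : a ≤ t) (hK : K ≤ t)
    (hn0 : 0 < n0) (hh : 0 < h) (hn0t : n0 ≤ 2 ^ ((a + 1) * t))
    (hhb : h ≤ 2 ^ ((4 * t + 4) * K)) :
    ((2 + P) * (Nat.log 2 (n0 * h) + 2)) ^ C1 ≤ t ^ (8 * C1) := by
  rw [pow_mul]
  refine Nat.pow_le_pow_left ?_ C1
  have h1 : n0 * h ≤ 2 ^ ((a + 1) * t + (4 * t + 4) * K) := by
    rw [pow_add]
    exact Nat.mul_le_mul hn0t hhb
  have h2 : Nat.log 2 (n0 * h) ≤ (a + 1) * t + (4 * t + 4) * K := by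
    calc Nat.log 2 (n0 * h) ≤ Nat.log 2 (2 ^ ((a + 1) * t + (4 * t + 4) * K)) :=
          Nat.log_mono_right h1
      _ = _ := Nat.log_pow (by norm_num) _
  have h3 : (a + 1) * t + (4 * t + 4) * K ≤ 5 * t ^ 2 + 5 * t := by
    have e1 : (a + 1) * t ≤ (t + 1) * t := Nat.mul_le_mul_right _ (by omega)
    have e2 : (4 * t + 4) * K ≤ (4 * t + 4) * t := Nat.mul_le_mul_left _ hK
    calc (a + 1) * t + (4 * t + 4) * K ≤ (t + 1) * t + (4 * t + 4) * t := add_le_add e1 e2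
      _ = 5 * t ^ 2 + 5 * t := by ring
  have h4 : Nat.log 2 (n0 * h) + 2 ≤ t ^ 6 := by
    have e1 : 2 ^ 4 ≤ t ^ 4 := Nat.pow_le_pow_left ht 4
    have e2 : t ^ 6 = t ^ 4 * t ^ 2 := by ring
    have e3 : 16 * t ^ 2 ≤ t ^ 6 := by
      rw [e2]
      exact Nat.mul_le_mul_right _ (by omega)
    nlinarith
  calc (2 + P) * (Nat.log 2 (n0 * h) + 2) ≤ t ^ 2 * t ^ 6 :=
        Nat.mul_le_mul ((by omega : 2 + P ≤ 2 + t).trans (cn_t2 ht)) h4
    _ = t ^ 8 := by ring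

open scoped Classical in
private theorem cn_class {C1 d2 : ℕ}
    (hC1 : ∀ (d n : ℕ) (γ : ℂ) (g : Polynomial ℤ), g ≠ 0 → Polynomial.aeval γ g = 0 →
      ‖γ‖ = 1 → (∀ j : ℕ, 0 < j → γ ^ j ≠ 1) → g.natDegree ≤ d → (∀ i, |g.coeff i| ≤ 2 ^ d) →
      (2 + d) ^ C1 ≤ n →
      (1 / 2 : ℝ) ^ (((2 + d) * (Nat.log 2 n + 2)) ^ C1) ≤ ‖γ ^ n - 1‖)
    {k P : ℕ} {l c : Fin k → ℂ} {ex : Fin k → ℕ} {e : ℕ} (hD : DData k P l c ex e) {v : ℕ → ℝ}
    {n0 j : ℕ} (hn0 : 0 < n0) (hn0' : (2 + P) ^ C1 ≤ n0) {S : Finset (Fin k)} {C : Fin k → ℂ}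
    (hS : S.Nonempty)
    (hS1 : ∀ i ∈ S, l i ≠ 0 ∧ (1 / 2 : ℝ) ^ P ≤ ‖C i‖ ∧ ‖C i‖ ≤ 2 ^ (2 * P))
    (hS2 : ∀ i ∈ S, ∀ i' ∈ S, i ≠ i' → ‖l i‖ = ‖l i'‖ ∧ ∀ h : ℕ, 0 < h → (l i / l i') ^ h ≠ 1)
    (hS3 : ∀ m : ℕ, 2 ^ ((P + 2) ^ d2) ≤ j + n0 * m → v (j + n0 * m) ≤ 0 →
      ‖∑ i ∈ S, C i * (nz (l i) ^ n0) ^ m‖ * ((j + n0 * m : ℕ) : ℝ) ≤ 2 ^ ((P + 2) ^ d2))
    {a t q : ℕ} (ha : 2 ≤ a) (hPa : P ≤ a) (hat : a ≤ t)
    (hn0t : n0 ≤ 2 ^ ((a + 1) * t))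
    (hq1 : (P + 2) ^ d2 + (t + 2) * (2 * (2 * P) + (t ^ (8 * C1) + 1) * S.card + 3) ≤ q)
    (hq2 : (a + 1) * t + ((4 * t + 4) * S.card + 2 * t) ≤ q) :
    ((Ico (2 ^ q) (2 ^ (q + 1))).filter fun n => v n ≤ 0 ∧ ∃ m, n = j + n0 * m).card * 2 ^ t ≤
      2 * (2 * (2 * P) + (t ^ (8 * C1) + 1) * S.card + 3) * (2 ^ q / n0 + 2) := by
  have hSk : S.card ≤ k := by
    have := Finset.card_le_univ S
    rwa [Fintype.card_fin] at this
  have hSt : S.card ≤ t := hSk.trans (hD.kle.trans (hPa.trans hat))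
  have : Nonempty S := hS.to_subtype
  have hcard : Fintype.card S = S.card := Fintype.card_coe S
  have h2t : 2 ≤ t := ha.trans hat
  have key := remez_count (fun i : S => nz (l i) ^ n0) (fun i : S => C i)
    (fun i => by rw [norm_pow, norm_nz, one_pow]) (2 * P) (t ^ (8 * C1)) t h2t
    (by rw [hcard]; exact hSt)
    (fun i => by
      refine le_trans ?_ (hS1 i i.2).2.1
      exact pow_le_pow_of_le_one (by norm_num) (by norm_num) (by omega))
    (fun i => (hS1 i i.2).2.2)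
    (by
      intro h hh hhb i i' hii
      rw [hcard] at hhb
      have hne : (i : Fin k) ≠ i' := fun h => hii (Subtype.ext h)
      obtain ⟨h1, h2⟩ := hS2 i i.2 i' i'.2 hne
      have hi' := (hS1 i' i'.2).1
      obtain ⟨g, hg0, hg1, hg2, hg3⟩ := hD.pol i i' hi'
      have hγ : ‖l i / l i'‖ = 1 := by
        rw [norm_div, h1, div_self (norm_ne_zero_iff.2 hi')]
      have h3 := hC1 P (n0 * h) (l i / l i') g hg0 hg1 hγ h2 hg2 hg3
        (hn0'.trans (Nat.le_mul_of_pos_right _ hh))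
      have h4 : (nz (l i) ^ n0) ^ h - (nz (l i') ^ n0) ^ h =
          nz (l i') ^ (n0 * h) * ((l i / l i') ^ (n0 * h) - 1) := by
        have h5 : nz (l i') ≠ 0 := by
          rw [← norm_ne_zero_iff, norm_nz]
          exact one_ne_zero
        rw [← cn_nz_div _ _ h1 hi', div_pow, ← pow_mul, ← pow_mul]
        field_simp
      rw [h4, norm_mul, norm_pow, norm_nz, one_pow, one_mul]
      refine le_trans ?_ h3
      exact pow_le_pow_of_le_one (by norm_num) (by norm_num)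
        (cn_log h2t (hPa.trans hat) hat hSt hn0 hh hn0t hhb))
    (2 ^ ((P + 2) ^ d2) / 2 ^ q)
    (by
      rw [hcard, one_div, inv_pow, div_le_iff₀ (by positivity), inv_mul_eq_div,
        le_div_iff₀ (by positivity), ← pow_add]
      exact pow_le_pow_right₀ (by norm_num) hq1)
    ((2 ^ q - j) / n0) (2 ^ q / n0 + 2)
    (by
      rw [hcard]
      refine le_trans ?_ (Nat.le_add_right _ 2)
      rw [Nat.le_div_iff_mul_le hn0]
      calc 2 ^ ((4 * t + 4) * S.card + 2 * t) * n0 ≤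
          2 ^ ((4 * t + 4) * S.card + 2 * t) * 2 ^ ((a + 1) * t) := Nat.mul_le_mul_left _ hn0t
        _ = 2 ^ ((a + 1) * t + ((4 * t + 4) * S.card + 2 * t)) := by rw [← pow_add, add_comm]
        _ ≤ 2 ^ q := Nat.pow_le_pow_right (by norm_num) hq2)
  rw [hcard] at key
  refine le_trans (Nat.mul_le_mul_right _ ?_) key
  refine le_trans (Finset.card_le_card ?_) (Finset.card_image_le (f := fun m => j + n0 * m))
  intro n hn
  rw [Finset.mem_filter, Finset.mem_Ico] at hn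
  obtain ⟨⟨hn1, hn2⟩, hvn, m, rfl⟩ := hn
  refine Finset.mem_image.2 ⟨m, ?_, rfl⟩
  rw [Finset.mem_filter, Finset.mem_Ico]
  have hX := Nat.lt_mul_div_succ (2 ^ q - j) hn0
  have hY := Nat.lt_mul_div_succ (2 ^ q) hn0
  have hX' := Nat.mul_div_le (2 ^ q - j) n0
  refine ⟨⟨?_, ?_⟩, ?_⟩
  · -- lower bound
    by_contra hlt
    push Not at hlt
    have h1 : n0 * (m + 1) ≤ n0 * ((2 ^ q - j) / n0) := Nat.mul_le_mul_left _ hlt
    have h2 : n0 * (m + 1) = n0 * m + n0 := by ring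
    omega
  · by_contra hlt
    push Not at hlt
    have h1 := Nat.mul_le_mul_left n0 hlt
    have h2 : n0 * ((2 ^ q - j) / n0 + (2 ^ q / n0 + 2)) =
      n0 * ((2 ^ q - j) / n0 + 1) + n0 * (2 ^ q / n0 + 1) := by ring
    have h3 : 2 ^ (q + 1) = 2 * 2 ^ q := by ring
    omega
  · have h1 : 2 ^ ((P + 2) ^ d2) ≤ 2 ^ q := by
      refine Nat.pow_le_pow_right (by norm_num) ?_
      exact le_trans (Nat.le_add_right _ _) hq1
    have h2 := hS3 m (h1.trans hn1) hvn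
    rw [Finset.sum_coe_sort S (fun i => C i * (nz (l i) ^ n0) ^ m), le_div_iff₀ (by positivity)]
    refine le_trans (mul_le_mul_of_nonneg_left ?_ (norm_nonneg _)) h2
    exact_mod_cast hn1

open scoped Classical in
theorem count_nonpos : ∃ B : ℕ, ∀ (k P : ℕ) (l c : Fin k → ℂ) (ex : Fin k → ℕ) (e : ℕ),
    DData k P l c ex e → ∀ v : ℕ → ℝ,
    (∀ n, ∑ i, c i * (n.choose (ex i) : ℂ) * l i ^ (n - ex i) = (v n : ℂ)) → AEPos v →
    ∀ a q : ℕ, 2 ≤ a → P ≤ a → a ^ B ≤ q →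
      ((Ico (2 ^ q) (2 ^ (q + 1))).filter fun n => v n ≤ 0).card ≤ 2 ^ (q - a) := by
  obtain ⟨C1, hC1⟩ := strong_gap
  obtain ⟨d2, hd2⟩ := class_small
  obtain ⟨T, hT⟩ := cn_big (8 * C1 + 5)
  set w := 8 * C1 + 5 with hw
  set κ := T + C1 + 2 with hκ
  refine ⟨(κ + 1) * (2 * d2 + w + 9), fun k P l c ex e hD v hv hAE a q ha hPa hq => ?_⟩
  set t := κ * a with ht
  have hκt : κ ≤ t := Nat.le_mul_of_pos_right _ (by omega)
  have hat : a ≤ t := Nat.le_mul_of_pos_left _ (by omega)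
  have h2t : 2 ≤ t := ha.trans hat
  have ha1 : 1 ≤ a := by omega
  have htq : t ^ (2 * d2 + w + 9) ≤ q := by
    refine le_trans ?_ hq
    rw [pow_mul]
    refine Nat.pow_le_pow_left ?_ _
    have h1 : κ ≤ a ^ κ := (Nat.lt_pow_self (by omega : 1 < a)).le
    calc κ * a ≤ a ^ κ * a := Nat.mul_le_mul_right _ h1
      _ = a ^ (κ + 1) := (pow_succ _ _).symm
  have hmono : ∀ x y : ℕ, x ≤ y → t ^ x ≤ t ^ y := fun x y h =>
    Nat.pow_le_pow_right (by omega) h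
  -- the modulus
  set n0 := e * (2 + P) ^ C1 with hn0
  have hn0pos : 0 < n0 := Nat.mul_pos hD.epos (by positivity)
  have hn0t : n0 ≤ 2 ^ ((a + 1) * t) := by
    have h1 : 2 + P ≤ 2 ^ (a + 1) := by
      have : a + 2 ≤ 2 ^ (a + 1) := Nat.lt_two_pow_self (n := a + 1)
      omega
    calc n0 ≤ 2 ^ P * (2 ^ (a + 1)) ^ C1 := Nat.mul_le_mul hD.ele (Nat.pow_le_pow_left h1 _)
      _ = 2 ^ (P + (a + 1) * C1) := by rw [← pow_mul, ← pow_add]
      _ ≤ 2 ^ ((a + 1) * t) := by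
          refine Nat.pow_le_pow_right (by norm_num) ?_
          have h2 : (a + 1) * (C1 + 1) ≤ (a + 1) * t := Nat.mul_le_mul_left _ (by omega)
          have h3 : (a + 1) * (C1 + 1) = (a + 1) * C1 + (a + 1) := by ring
          omega
  -- the bound for the number of small values
  set r := t ^ w with hr
  have hrS : ∀ K : ℕ, K ≤ a → 2 * (2 * P) + (t ^ (8 * C1) + 1) * K + 3 ≤ r := by
    intro K hK
    have h1 : 1 ≤ t ^ (8 * C1) := Nat.one_le_pow _ _ (by omega)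
    have h2 : (t ^ (8 * C1) + 1) * K ≤ (t ^ (8 * C1) + t ^ (8 * C1)) * t :=
      Nat.mul_le_mul (by omega) (hK.trans hat)
    have h3 : 2 * (2 * P) + 3 ≤ t ^ (8 * C1) * (4 * t + 3) := by
      calc 2 * (2 * P) + 3 ≤ 1 * (4 * t + 3) := by omega
        _ ≤ t ^ (8 * C1) * (4 * t + 3) := Nat.mul_le_mul_right _ h1
    have h4 : 6 * t + 3 ≤ t ^ 5 := by
      have e1 : 2 ^ 4 ≤ t ^ 4 := Nat.pow_le_pow_left h2t 4
      have e2 : t ^ 5 = t ^ 4 * t := by ring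
      have e3 : 16 * t ≤ t ^ 5 := by
        rw [e2]
        exact Nat.mul_le_mul_right _ (by omega)
      omega
    calc 2 * (2 * P) + (t ^ (8 * C1) + 1) * K + 3 ≤
        t ^ (8 * C1) * (4 * t + 3) + (t ^ (8 * C1) + t ^ (8 * C1)) * t := by omega
      _ = t ^ (8 * C1) * (6 * t + 3) := by ring
      _ ≤ t ^ (8 * C1) * t ^ 5 := Nat.mul_le_mul_left _ h4
      _ = r := by rw [hr, hw, ← pow_add]
  have hq1 : ∀ K : ℕ, K ≤ a →
      (P + 2) ^ d2 + (t + 2) * (2 * (2 * P) + (t ^ (8 * C1) + 1) * K + 3) ≤ q := by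
    intro K hK
    refine le_trans ?_ htq
    have h1 : (P + 2) ^ d2 ≤ t ^ (2 * d2) := by
      rw [pow_mul]
      exact Nat.pow_le_pow_left ((by omega : P + 2 ≤ 2 + t).trans (cn_t2 h2t)) _
    have h2 : (t + 2) * (2 * (2 * P) + (t ^ (8 * C1) + 1) * K + 3) ≤ t ^ 2 * t ^ w :=
      Nat.mul_le_mul ((by omega : t + 2 ≤ 2 + t).trans (cn_t2 h2t)) (hrS K hK)
    have h3 : t ^ (2 * d2) ≤ t ^ (2 * d2 + w + 2) := hmono _ _ (by omega)
    have h4 : t ^ 2 * t ^ w ≤ t ^ (2 * d2 + w + 2) := by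
      rw [← pow_add]
      exact hmono _ _ (by omega)
    have h5 : 2 * t ^ (2 * d2 + w + 2) ≤ t ^ (2 * d2 + w + 3) := by
      rw [pow_succ t (2 * d2 + w + 2), mul_comm]
      exact Nat.mul_le_mul_left _ h2t
    have h6 : t ^ (2 * d2 + w + 3) ≤ t ^ (2 * d2 + w + 9) := hmono _ _ (by omega)
    omega
  have hq2 : ∀ K : ℕ, K ≤ a → (a + 1) * t + ((4 * t + 4) * K + 2 * t) + 1 ≤ q := by
    intro K hK
    refine le_trans ?_ htq
    have h1 : (a + 1) * t + ((4 * t + 4) * K + 2 * t) + 1 ≤ 5 * t ^ 2 + 7 * t + 1 := by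
      have e1 : (a + 1) * t ≤ (t + 1) * t := Nat.mul_le_mul_right _ (by omega)
      have e2 : (4 * t + 4) * K ≤ (4 * t + 4) * t := Nat.mul_le_mul_left _ (hK.trans hat)
      have e3 : (t + 1) * t + ((4 * t + 4) * t + 2 * t) + 1 = 5 * t ^ 2 + 7 * t + 1 := by ring
      omega
    have h2 : 5 * t ^ 2 + 7 * t + 1 ≤ t ^ 6 := by
      have e1 : 2 ^ 4 ≤ t ^ 4 := Nat.pow_le_pow_left h2t 4
      have e2 : t ^ 6 = t ^ 4 * t ^ 2 := by ring
      have e3 : 16 * t ^ 2 ≤ t ^ 6 := by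
        rw [e2]
        exact Nat.mul_le_mul_right _ (by omega)
      nlinarith
    have h3 : t ^ 6 ≤ t ^ (2 * d2 + w + 9) := hmono _ _ (by omega)
    omega
  -- the classes
  have hclass : ∀ j : ℕ, k ≤ j →
      ((Ico (2 ^ q) (2 ^ (q + 1))).filter fun n => v n ≤ 0 ∧ ∃ m, n = j + n0 * m).card * 2 ^ t ≤
        2 * r * (2 ^ q / n0 + 2) := by
    intro j hj
    obtain ⟨S, C, hS, hS1, hS2, hS3⟩ := hd2 k P l c ex e hD v hv hAE n0 j hn0pos
      (Dvd.intro _ rfl) hj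
    have hSa : S.card ≤ a := by
      have := Finset.card_le_univ S
      rw [Fintype.card_fin] at this
      exact this.trans (hD.kle.trans hPa)
    have h1 := cn_class hC1 hD hn0pos (Nat.le_mul_of_pos_left _ hD.epos) hS hS1 hS2 hS3 ha hPa
      hat hn0t (hq1 _ hSa) (by have := hq2 _ hSa; omega)
    refine h1.trans (Nat.mul_le_mul_right _ (Nat.mul_le_mul_left _ (hrS _ hSa)))
  -- the sum over the classes
  have hk2 : k ≤ 2 ^ q := by
    have h1 : a < 2 ^ a := Nat.lt_two_pow_self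
    have h2 : 2 ^ a ≤ 2 ^ q := by
      refine Nat.pow_le_pow_right (by norm_num) ?_
      have := hq2 0 (by omega)
      nlinarith
    have := hD.kle
    omega
  have hcov : ((Ico (2 ^ q) (2 ^ (q + 1))).filter fun n => v n ≤ 0) ⊆
      (Ico k (k + n0)).biUnion fun j =>
        (Ico (2 ^ q) (2 ^ (q + 1))).filter fun n => v n ≤ 0 ∧ ∃ m, n = j + n0 * m := by
    intro n hn
    rw [Finset.mem_filter] at hn
    have hn1 := (Finset.mem_Ico.1 hn.1).1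
    refine Finset.mem_biUnion.2 ⟨k + (n - k) % n0, ?_, ?_⟩
    · rw [Finset.mem_Ico]
      have := Nat.mod_lt (n - k) hn0pos
      omega
    · rw [Finset.mem_filter]
      refine ⟨hn.1, hn.2, (n - k) / n0, ?_⟩
      have := Nat.mod_add_div (n - k) n0
      omega
  have hsum : ((Ico (2 ^ q) (2 ^ (q + 1))).filter fun n => v n ≤ 0).card * 2 ^ t ≤
      n0 * (2 * r * (2 ^ q / n0 + 2)) := by
    calc _ ≤ (∑ j ∈ Ico k (k + n0), ((Ico (2 ^ q) (2 ^ (q + 1))).filter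
          fun n => v n ≤ 0 ∧ ∃ m, n = j + n0 * m).card) * 2 ^ t :=
          Nat.mul_le_mul_right _ ((Finset.card_le_card hcov).trans Finset.card_biUnion_le)
      _ = ∑ j ∈ Ico k (k + n0), ((Ico (2 ^ q) (2 ^ (q + 1))).filter
          fun n => v n ≤ 0 ∧ ∃ m, n = j + n0 * m).card * 2 ^ t := Finset.sum_mul _ _ _
      _ ≤ ∑ _j ∈ Ico k (k + n0), 2 * r * (2 ^ q / n0 + 2) :=
          Finset.sum_le_sum fun j hj => hclass j (Finset.mem_Ico.1 hj).1
      _ = n0 * (2 * r * (2 ^ q / n0 + 2)) := by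
          rw [Finset.sum_const, Nat.card_Ico, add_tsub_cancel_left, smul_eq_mul]
  have h1 : n0 * (2 * r * (2 ^ q / n0 + 2)) ≤ 4 * r * 2 ^ q := by
    have e1 : n0 * (2 ^ q / n0) ≤ 2 ^ q := Nat.mul_div_le _ _
    have e2 : 2 * n0 ≤ 2 ^ q := by
      calc 2 * n0 ≤ 2 * 2 ^ ((a + 1) * t) := Nat.mul_le_mul_left _ hn0t
        _ = 2 ^ ((a + 1) * t + 1) := by ring
        _ ≤ 2 ^ q := by
            refine Nat.pow_le_pow_right (by norm_num) ?_
            have := hq2 0 (by omega)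
            omega
    calc n0 * (2 * r * (2 ^ q / n0 + 2)) = 2 * r * (n0 * (2 ^ q / n0) + 2 * n0) := by ring
      _ ≤ 2 * r * (2 ^ q + 2 ^ q) := Nat.mul_le_mul_left _ (add_le_add e1 e2)
      _ = 4 * r * 2 ^ q := by ring
  have h2 : 4 * r ≤ 2 ^ (t - a) := by
    have e1 := hT t ((by omega : T ≤ κ).trans hκt)
    have e2 : t ≤ 2 * (t - a) := by
      have : 2 * a ≤ t := Nat.mul_le_mul_right _ (by omega)
      omega
    have e3 : (4 * r) ^ 2 ≤ (2 ^ (t - a)) ^ 2 := by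
      rw [← pow_mul, mul_comm (t - a) 2]
      exact e1.trans (Nat.pow_le_pow_right (by norm_num) e2)
    exact (Nat.pow_le_pow_iff_left (by norm_num)).1 e3
  have haq : a ≤ q := by
    have := hq2 0 (by omega)
    nlinarith
  have h3 : ((Ico (2 ^ q) (2 ^ (q + 1))).filter fun n => v n ≤ 0).card * 2 ^ t ≤
      2 ^ (q - a) * 2 ^ t := by
    refine hsum.trans (h1.trans ?_)
    calc 4 * r * 2 ^ q ≤ 2 ^ (t - a) * 2 ^ q := Nat.mul_le_mul_right _ h2
      _ = 2 ^ (q - a) * 2 ^ t := by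
          rw [← pow_add, ← pow_add]
          congr 1
          omega
  exact Nat.le_of_mul_le_mul_right h3 (by positivity)

end Pool.Agent.DD7719.M
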