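import Pool.Agent.AlmostPos.Defs
import Pool.Agent.AlmostPos.AEDef

/-! Positivity on a set of indices of density one, for all recurrences: definitions. -/

set_option autoImplicit false

namespace Pool.Agent.UltPos

open Filter Topology

/-- The terms are positive up to the index `2 ^ ((n + 2) ^ c)`, where `n` is the length of the code. -/
def Inst.SmallPos (c : ℕ) (I : Inst) : Prop :=
  ∀ v : ℕ → ℚ, I.IsSeq v → ∀ n, n < 2 ^ ((I.enc.length + 2) ^ c) → 0 < v n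

/-- The indices of all nonpositive terms of all almost everywhere positive instances with the
property `SmallPos c`. -/
def exceptions (c : ℕ) : Set ℕ :=
  {n | ∃ I : Inst, I.AEPositive ∧ I.SmallPos c ∧ ∃ v : ℕ → ℚ, I.IsSeq v ∧ v n ≤ 0}

end Pool.Agent.UltPos

namespace Pool.Agent.DD7719.M

open Polynomial Finset

open scoped Classical in
/-- Root data `l, c, ex` of a recurrence of order `k` with all the bounds, in terms of one
parameter `P`; `e` is a common torsion exponent of the ratios. -/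
structure DData (k P : ℕ) (l c : Fin k → ℂ) (ex : Fin k → ℕ) (e : ℕ) : Prop where
  kpos : 0 < k
  kle : k ≤ P
  exlt : ∀ i, ex i < k
  inj : Function.Injective fun i => (l i, ex i)
  lup : ∀ i, ‖l i‖ ≤ 2 ^ P
  llow : ∀ i, l i ≠ 0 → (1 / 2 : ℝ) ^ P ≤ ‖l i‖
  cup : ∀ i, ‖c i‖ ≤ 2 ^ P
  gap : ∀ i i', ‖l i‖ < ‖l i'‖ → ‖l i‖ ≤ (1 - (1 / 2) ^ P) * ‖l i'‖
  merged : ∀ (i0 : Fin k) (n0 a : ℕ), 0 < n0 → l i0 ≠ 0 →
    ∑ i with l i ^ n0 = l i0 ^ n0 ∧ ex i = ex i0, c i * (l i / l i0) ^ a ≠ 0 →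
    (1 / 2 : ℝ) ^ P ≤ ‖∑ i with l i ^ n0 = l i0 ^ n0 ∧ ex i = ex i0, c i * (l i / l i0) ^ a‖
  epos : 0 < e
  ele : e ≤ 2 ^ P
  tor : ∀ i i', l i ≠ 0 → l i' ≠ 0 → (∃ n : ℕ, 0 < n ∧ (l i / l i') ^ n = 1) →
    (l i / l i') ^ e = 1
  pol : ∀ i i', l i' ≠ 0 → ∃ g : ℤ[X], g ≠ 0 ∧ aeval (l i / l i') g = 0 ∧ g.natDegree ≤ P ∧
    ∀ t, |g.coeff t| ≤ 2 ^ P

end Pool.Agent.DD7719.M
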