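import Pool.Agent.DensePos.Defs
import Pool.Agent.DensePos.Conf
import Pool.Agent.AlmostPos.InstFew
import Pool.Agent.DD7719.NArith

/-! DP4. The data of an instance. -/

set_option autoImplicit false

namespace Pool.Agent.UltPos

open Pool.Agent.DD7719.M Pool.Agent.DD7719 Finset

/- PROOF SKETCH (uses DP3 = `conf_bounds`, which may still be sorry). `exists_parser`
(DD7719/Lang.lean) gives `I.k ≤ L` and the bounds `2^L` for numerators and denominators, `L` the length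
of the code, see the beginning of the proof of `Inst.few_violations` (AlmostPos/InstFew.lean). Take
root data `l, c, ex` (`exists_rootData`, `RootData.all`, `RootData.root`, `Inst.root_eq'`,
`Inst.all'`). As in InstFew (copy the private lemmas `ifq, ifw, ifb, if_int, ..`): the sequence
`q^n w v n` is integer valued and satisfies the recurrence with the integer coefficients `ifb I t`;
its root data are `q l i`, `w q^(ex i) c i`, `ex i`. `conf_bounds` for these (`R = 2^(poly L)`,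
`U = 2^(poly L)`) gives `cup`, `llow`, `merged` (divide by `w q^(ex i)`: constant on the merged sum;
the condition `l i ^ n0 = l i0 ^ n0` and the ratios do not change). `lup` = `root_norm_le`, `gap` =
`gap_of_roots` (both DD7719/TGap.lean), `e`, `ele`, `tor` = `torsion_of_roots` (DD7719/RootBound.lean)
with `2 (k!)^2 ≤ 2^(1 + 2 L L)`, `pol` = `exists_ratio_poly` (DD7719/NArith.lean); all bounds are
`2 ^ (polynomial in L)`, so a large `d` works. -/

/-- the product of the denominators of the coefficients -/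
private def ifq (I : Inst) : ℕ := ∏ s ∈ range I.k, I.den s

/-- the product of the denominators of the initial values -/
private def ifw (I : Inst) : ℕ := ∏ i : Fin I.k, I.uDen i

/-- the coefficients of the scaled recurrence -/
private def ifb (I : Inst) (t : ℕ) : ℤ :=
  (I.num t * ∏ s ∈ (range I.k).erase t, (I.den s : ℤ)) * (ifq I : ℤ) ^ t

private lemma ifq_pos (I : Inst) : 0 < ifq I :=
  Finset.prod_pos fun s hs => I.den_pos' s (Finset.mem_range.mp hs)

private lemma ifw_pos (I : Inst) : 0 < ifw I := Finset.prod_pos fun i _ => I.uDen_pos i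

private lemma ifb_cast {K : Type} [Field K] [CharZero K] (I : Inst) (t : ℕ) (ht : t < I.k) :
    ((ifb I t : ℤ) : K) = ((I.num t : K) / (I.den t : K)) * (ifq I : K) ^ (t + 1) := by
  have h1 : (I.den t : K) ≠ 0 := by exact_mod_cast (I.den_pos' t ht).ne'
  have h2n : ifq I = I.den t * ∏ s ∈ (range I.k).erase t, I.den s :=
    (Finset.mul_prod_erase (range I.k) I.den (Finset.mem_range.mpr ht)).symm
  have h2 : (ifq I : K) ^ (t + 1) = (I.den t : K) * (∏ s ∈ (range I.k).erase t, (I.den s : K)) *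
      (ifq I : K) ^ t := by
    have h3 : (ifq I : K) = (I.den t : K) * ∏ s ∈ (range I.k).erase t, (I.den s : K) := by
      conv_lhs => rw [h2n]
      push_cast
      rfl
    rw [pow_succ', ← h3]
  rw [h2, ifb]
  push_cast
  field_simp

private lemma if_rec {I : Inst} {v : ℕ → ℚ} (hv : I.IsSeq v) (n : ℕ) (hn : I.k ≤ n) :
    v n = ∑ t ∈ range I.k, ((I.num t : ℚ) / (I.den t : ℚ)) * v (n - 1 - t) := by
  rw [hv.2 n hn, Finset.sum_range]
  apply Finset.sum_congr rfl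
  intro t _
  simp only [Inst.num, Inst.den, t.2, dif_pos, Inst.a]

private lemma if_scaled {I : Inst} {v : ℕ → ℚ} (hv : I.IsSeq v) (n : ℕ) (hn : I.k ≤ n) :
    (ifq I : ℚ) ^ n * ifw I * v n = ∑ t ∈ range I.k, (ifb I t : ℚ) *
      ((ifq I : ℚ) ^ (n - 1 - t) * ifw I * v (n - 1 - t)) := by
  rw [if_rec hv n hn, mul_sum]
  apply Finset.sum_congr rfl
  intro t ht
  rw [Finset.mem_range] at ht
  rw [ifb_cast I t ht]
  have h1 : (ifq I : ℚ) ^ n = (ifq I : ℚ) ^ (t + 1) * (ifq I : ℚ) ^ (n - 1 - t) := by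
    rw [← pow_add]
    congr 1
    omega
  rw [h1]
  ring

private lemma if_int {I : Inst} {v : ℕ → ℚ} (hv : I.IsSeq v) : ∃ v' : ℕ → ℤ,
    (∀ n, (v' n : ℚ) = (ifq I : ℚ) ^ n * ifw I * v n) ∧
    ∀ n, I.k ≤ n → v' n = ∑ t ∈ range I.k, ifb I t * v' (n - 1 - t) := by
  have key : ∀ n, ∃ z : ℤ, (z : ℚ) = (ifq I : ℚ) ^ n * ifw I * v n := by
    intro n
    induction n using Nat.strong_induction_on with
    | _ n ih =>
    rcases lt_or_ge n I.k with hn | hn
    · refine ⟨(ifq I : ℤ) ^ n * (I.uNum ⟨n, hn⟩ *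
        ∏ i ∈ (Finset.univ : Finset (Fin I.k)).erase ⟨n, hn⟩, (I.uDen i : ℤ)), ?_⟩
      have h1 : (I.uDen ⟨n, hn⟩ : ℚ) ≠ 0 := by exact_mod_cast (I.uDen_pos _).ne'
      have h2 : (ifw I : ℚ) = (I.uDen ⟨n, hn⟩ : ℚ) *
          ∏ i ∈ (Finset.univ : Finset (Fin I.k)).erase ⟨n, hn⟩, (I.uDen i : ℚ) := by
        have h2n : ifw I = I.uDen ⟨n, hn⟩ *
            ∏ i ∈ (Finset.univ : Finset (Fin I.k)).erase ⟨n, hn⟩, I.uDen i :=
          (Finset.mul_prod_erase Finset.univ I.uDen (Finset.mem_univ _)).symm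
        conv_lhs => rw [h2n]
        push_cast
        rfl
      have h3 := hv.1 ⟨n, hn⟩
      simp only [Inst.u] at h3
      rw [h3, h2]
      push_cast
      field_simp
    · choose g hg using ih
      refine ⟨∑ t : Fin I.k, ifb I t * g (n - 1 - t) (by have := t.2; omega), ?_⟩
      rw [if_scaled hv n hn, Finset.sum_range]
      push_cast
      apply Finset.sum_congr rfl
      intro t _
      rw [hg]
  choose v' hv' using key
  refine ⟨v', hv', fun n hn => ?_⟩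
  have h1 : ((v' n : ℤ) : ℚ) = ((∑ t ∈ range I.k, ifb I t * v' (n - 1 - t) : ℤ) : ℚ) := by
    rw [hv', if_scaled hv n hn]
    push_cast
    apply Finset.sum_congr rfl
    intro t _
    rw [hv']
  exact_mod_cast h1

section bounds

variable (I : Inst) (L : ℕ) (hkL : I.k ≤ L)
    (hb : ∀ i, (I.aNum i).natAbs ≤ 2 ^ L ∧ I.aDen i ≤ 2 ^ L)
    (hb' : ∀ i, (I.uNum i).natAbs ≤ 2 ^ L ∧ I.uDen i ≤ 2 ^ L)

include hkL hb in
private lemma ifq_le : ifq I ≤ 2 ^ (L * L) := by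
  have h1 := prod_den_le (range I.k) I.den L (fun i hi => I.den_le' L hb i (Finset.mem_range.mp hi))
  rw [Finset.card_range] at h1
  exact h1.trans (Nat.pow_le_pow_right (by norm_num) (Nat.mul_le_mul_left _ hkL))

include hkL hb' in
private lemma ifw_le : ifw I ≤ 2 ^ (L * L) := by
  have h1 := prod_den_le (Finset.univ : Finset (Fin I.k)) I.uDen L (fun i _ => (hb' i).2)
  rw [Finset.card_univ, Fintype.card_fin] at h1
  exact h1.trans (Nat.pow_le_pow_right (by norm_num) (Nat.mul_le_mul_left _ hkL))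

include hkL hb in
private lemma ifb_le (t : ℕ) (ht : t < I.k) : (ifb I t).natAbs ≤ 2 ^ (L * L + L * L * L) := by
  have h1 := prod_den_le ((range I.k).erase t) I.den L
    (fun i hi => I.den_le' L hb i (Finset.mem_range.mp (Finset.mem_of_mem_erase hi)))
  rw [Finset.card_erase_of_mem (Finset.mem_range.mpr ht), Finset.card_range] at h1
  have h2 := I.num_le' L hb t ht
  have h3 := ifq_le I L hkL hb
  have h4 : (ifb I t).natAbs = (I.num t).natAbs * (∏ s ∈ (range I.k).erase t, I.den s) *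
      (ifq I) ^ t := by
    rw [ifb, Int.natAbs_mul, Int.natAbs_mul, Int.natAbs_pow, Int.natAbs_natCast,
      ← Nat.cast_prod, Int.natAbs_natCast]
  rw [h4]
  calc (I.num t).natAbs * (∏ s ∈ (range I.k).erase t, I.den s) * (ifq I) ^ t
      ≤ 2 ^ L * 2 ^ (L * (I.k - 1)) * (2 ^ (L * L)) ^ t := by gcongr
    _ = 2 ^ (L + L * (I.k - 1) + L * L * t) := by rw [← pow_mul, ← pow_add, ← pow_add]
    _ ≤ 2 ^ (L * L + L * L * L) := by
        apply Nat.pow_le_pow_right (by norm_num)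
        have e1 : L + L * (I.k - 1) ≤ L * L := by
          have : L + L * (I.k - 1) = L * (I.k - 1 + 1) := by ring
          rw [this]
          exact Nat.mul_le_mul_left _ (by omega)
        have e2 : L * L * t ≤ L * L * L := Nat.mul_le_mul_left _ (by omega)
        omega

end bounds


/-- all exponents are bounded by `(L + 2) ^ 7` -/
private lemma id_sizes (L : ℕ) : L ≤ (L + 2) ^ 7 ∧ 2 * L ≤ (L + 2) ^ 7 ∧
    L * L + (L * L + 2 * L) * L ≤ (L + 2) ^ 7 ∧
    L * L + (1 + (L * L + 2 * L)) * (L * L) + (L * L * L + L * L + L) ≤ (L + 2) ^ 7 ∧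
    (L + 3 * (L * L + (1 + (L * L + 2 * L)) * (L * L)) + (L * L * L + L * L + L)) * (L + 1) +
      (L * L + L * L * L) ≤ (L + 2) ^ 7 ∧
    1 + 2 * (L * L) ≤ (L + 2) ^ 7 ∧ pgd L ≤ (L + 2) ^ 7 := by
  have e : (L + 2) ^ 7 = L ^ 7 + 14 * L ^ 6 + 84 * L ^ 5 + 280 * L ^ 4 + 560 * L ^ 3 +
      672 * L ^ 2 + 448 * L + 128 := by ring
  rw [e, pgd]
  refine ⟨?_, ?_, ?_, ?_, ?_, ?_, ?_⟩ <;> ring_nf <;> nlinarith [Nat.zero_le (L ^ 7),
    Nat.zero_le (L ^ 6), Nat.zero_le (L ^ 5), Nat.zero_le (L ^ 4), Nat.zero_le (L ^ 3),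
    Nat.zero_le (L ^ 2)]

private lemma id_pg (L : ℕ) : pg L ≤ (L + 2) ^ 7 := by
  set x := L + 2 with hx
  have hx2 : 2 ≤ x := by omega
  unfold pg
  have e1 : 2 * (L * L) + 4 * L + 1 ≤ x * x ^ 2 := by
    have : x * x ^ 2 ≥ 2 * x ^ 2 := Nat.mul_le_mul_right _ hx2
    rw [hx] at this ⊢
    nlinarith
  have e2 : L ^ 4 + 1 ≤ x ^ 4 := by
    have := Nat.pow_lt_pow_left (show L < x by omega) (show (4 : ℕ) ≠ 0 by norm_num)
    omega
  calc (2 * (L * L) + 4 * L + 1) * (L ^ 4 + 1) ≤ (x * x ^ 2) * x ^ 4 := Nat.mul_le_mul e1 e2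
    _ = x ^ 7 := by ring

private lemma id_fact {k L : ℕ} (hkL : k ≤ L) : k.factorial ≤ 2 ^ (L * L) := by
  calc k.factorial ≤ k ^ k := Nat.factorial_le_pow k
    _ ≤ (2 ^ L) ^ k := Nat.pow_le_pow_left (hkL.trans Nat.lt_two_pow_self.le) _
    _ = 2 ^ (L * k) := by rw [← pow_mul]
    _ ≤ 2 ^ (L * L) := Nat.pow_le_pow_right (by norm_num) (Nat.mul_le_mul_left _ hkL)

/-- scaling root data -/
private lemma id_scale {k : ℕ} {a u : ℕ → ℝ} {l c : ℕ → ℂ} {ex : ℕ → ℕ}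
    (h : RootData k a u l c ex) (q w : ℕ) (hq : 0 < q) (b z : ℕ → ℝ)
    (hb : ∀ t, t < k → b t = a t * (q : ℝ) ^ (t + 1))
    (hz : ∀ n, n < k → z n = (q : ℝ) ^ n * w * u n) :
    RootData k b z (fun i => q * l i) (fun i => w * (q : ℂ) ^ ex i * c i) ex := by
  obtain ⟨h1, h2, h3, h4⟩ := h
  have hq0 : (q : ℂ) ≠ 0 := by exact_mod_cast hq.ne'
  refine ⟨h1, fun i hi i' hi' hne => ?_, fun i hi e he => ?_, fun n hn => ?_⟩
  · rcases h2 i hi i' hi' hne with h | h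
    · exact Or.inl fun h' => h (mul_left_cancel₀ hq0 h')
    · exact Or.inr h
  · have h5 := h3 i hi e he
    have h6 : (k.choose e : ℂ) * (q * l i) ^ (k - e) =
        (q : ℂ) ^ (k - e) * ((k.choose e : ℂ) * l i ^ (k - e)) := by
      rw [mul_pow]
      ring
    rw [h6, h5, mul_sum]
    apply Finset.sum_congr rfl
    intro t ht
    rw [Finset.mem_range] at ht
    rw [hb t ht]
    push_cast
    rcases lt_or_ge (k - 1 - t) e with hlt | hge
    · rw [Nat.choose_eq_zero_of_lt hlt]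
      simp
    · rw [mul_pow]
      have h7 : (q : ℂ) ^ (k - e) = (q : ℂ) ^ (t + 1) * (q : ℂ) ^ (k - 1 - t - e) := by
        rw [← pow_add]
        congr 1
        omega
      rw [h7]
      ring
  · have h5 := h4 n hn
    rw [hz n hn]
    push_cast
    rw [← h5, mul_sum]
    apply Finset.sum_congr rfl
    intro i hi
    rcases lt_or_ge n (ex i) with hlt | hge
    · rw [Nat.choose_eq_zero_of_lt hlt]
      simp
    · rw [mul_pow]
      have h6 : (q : ℂ) ^ n = (q : ℂ) ^ (ex i) * (q : ℂ) ^ (n - ex i) := by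
        rw [← pow_add]
        congr 1
        omega
      rw [h6]
      ring

theorem Inst.exists_dData : ∃ d : ℕ, ∀ (I : Inst) (v : ℕ → ℚ), I.IsSeq v →
    ∃ (l c : Fin I.k → ℂ) (ex : Fin I.k → ℕ) (e : ℕ),
      DData I.k ((I.enc.length + 2) ^ d) l c ex e ∧
      ∀ n : ℕ, ∑ i, c i * (n.choose (ex i) : ℂ) * l i ^ (n - ex i) = (((v n : ℚ) : ℝ) : ℂ) := by
  classical
  refine ⟨7, fun I v hv => ?_⟩
  obtain ⟨kk, sg, nb, db, -, -, -, -, hI⟩ := exists_parser
  obtain ⟨-, hkL, -, -, -, -, hbd⟩ := hI I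
  obtain ⟨L, hL⟩ : ∃ L, L = I.enc.length := ⟨_, rfl⟩
  rw [← hL] at hkL hbd ⊢
  have hb : ∀ i, (I.aNum i).natAbs ≤ 2 ^ L ∧ I.aDen i ≤ 2 ^ L :=
    fun i => ⟨(hbd i).1.le, (hbd i).2.1.le⟩
  have hb' : ∀ i, (I.uNum i).natAbs ≤ 2 ^ L ∧ I.uDen i ≤ 2 ^ L :=
    fun i => ⟨(hbd i).2.2.1.le, (hbd i).2.2.2.le⟩
  obtain ⟨z1, z2, z3, z4, z5, z6, z7⟩ := id_sizes L
  have z8 := id_pg L
  obtain ⟨P, hP⟩ : ∃ P, P = (L + 2) ^ 7 := ⟨_, rfl⟩
  rw [← hP] at z1 z2 z3 z4 z5 z6 z7 z8 ⊢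
  obtain ⟨l, c, ex, hrd, -, -⟩ := exists_rootData I.k I.aQ I.uQ
  have ha : ∀ t (h : t < I.k), (fun t => ((I.aQ t : ℚ) : ℝ)) t = (I.a ⟨t, h⟩ : ℝ) := by
    intro t h
    simp only [Inst.aQ, h, dif_pos]
  have hu : ∀ t (h : t < I.k), (fun t => ((I.uQ t : ℚ) : ℝ)) t = (I.u ⟨t, h⟩ : ℝ) := by
    intro t h
    simp only [Inst.uQ, h, dif_pos]
  have hroot : ∀ i : Fin I.k, l i ^ I.k =
      ∑ t ∈ range I.k, ((I.num t : ℂ) / (I.den t : ℂ)) * l i ^ (I.k - 1 - t) :=
    fun i => I.root_eq' _ _ ha hrd i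
  have hall := I.all' _ _ ha hu v hv hrd
  obtain ⟨e, he0, hele, htor⟩ := torsion_of_roots I.k I.num I.den I.den_pos' (fun i => l i) hroot
  obtain ⟨v', hv1, hv2⟩ := if_int hv
  have hqle := ifq_le I L hkL hb
  have hwle := ifw_le I L hkL hb'
  have hqp := ifq_pos I
  have hwp := ifw_pos I
  obtain ⟨q, hq⟩ : ∃ q, q = ifq I := ⟨_, rfl⟩
  obtain ⟨w, hw⟩ : ∃ w, w = ifw I := ⟨_, rfl⟩
  have hqw : ∀ n, (0 : ℚ) < (q : ℚ) ^ n * w := by
    intro n
    rw [hq, hw]
    have h1 : (0 : ℚ) < ifq I := by exact_mod_cast ifq_pos I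
    have h2 : (0 : ℚ) < ifw I := by exact_mod_cast ifw_pos I
    positivity
  have hs := id_scale hrd q w (hq ▸ hqp) (fun t => ((ifb I t : ℤ) : ℝ))
    (fun n => ((v' n : ℤ) : ℝ)) (by
      intro t ht
      have h1 := ha t ht
      simp only at h1
      rw [ifb_cast I t ht, h1, hq]
      simp only [Inst.num, Inst.den, ht, dif_pos, Inst.a]
      push_cast
      rfl) (by
      intro n hn
      have h0 := hu n hn
      simp only at h0
      have h1 := hv.1 ⟨n, hn⟩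
      have h2 : ((v' n : ℤ) : ℝ) = ((((ifq I : ℚ) ^ n * ifw I * v n : ℚ)) : ℝ) := by
        rw [← hv1]
        push_cast
        rfl
      simp only at h1
      rw [h0, h2, h1, hq, hw]
      push_cast
      rfl)
  have hR1 : (1 : ℝ) ≤ 2 ^ (L * L + 2 * L) := one_le_pow₀ (by norm_num)
  have hRl : ∀ i < I.k, ‖(q : ℂ) * l i‖ ≤ 2 ^ (L * L + 2 * L) := by
    intro i hi
    have h2 := root_norm_le I.k I.num I.den L hkL I.den_pos' (I.num_le' L hb) _ (hroot ⟨i, hi⟩)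
    have h3 : (q : ℝ) ≤ 2 ^ (L * L) := by rw [hq]; exact_mod_cast hqle
    rw [norm_mul, Complex.norm_natCast]
    calc (q : ℝ) * ‖l i‖ ≤ 2 ^ (L * L) * 2 ^ (2 * L) := by gcongr
      _ = 2 ^ (L * L + 2 * L) := by rw [← pow_add]
  have hvle : ∀ n < I.k, |(v' n : ℝ)| ≤ 2 ^ (L * L * L + L * L + L) := by
    intro n hn
    have h1 : |(v' n : ℚ)| ≤ 2 ^ (L * L * L + L * L + L) := by
      rw [hv1, abs_mul, abs_of_pos (by have := hqw n; rwa [hq, hw] at this)]
      have h2 : |v n| ≤ 2 ^ L := by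
        have h3 := hv.1 ⟨n, hn⟩
        simp only [Inst.u] at h3
        rw [h3, abs_div, Nat.abs_cast]
        have h4 : (1 : ℚ) ≤ I.uDen ⟨n, hn⟩ := by exact_mod_cast I.uDen_pos _
        have h5 : |(I.uNum ⟨n, hn⟩ : ℚ)| ≤ 2 ^ L := by
          have := (hb' ⟨n, hn⟩).1
          rw [← Int.cast_abs, Int.abs_eq_natAbs]
          exact_mod_cast this
        exact (div_le_self (abs_nonneg _) h4).trans h5
      have h6 : (ifq I : ℚ) ≤ 2 ^ (L * L) := by exact_mod_cast hqle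
      have h7 : (ifw I : ℚ) ≤ 2 ^ (L * L) := by exact_mod_cast hwle
      calc (ifq I : ℚ) ^ n * ifw I * |v n| ≤ (2 ^ (L * L)) ^ n * 2 ^ (L * L) * 2 ^ L := by
            gcongr
        _ = 2 ^ (L * L * n + L * L + L) := by rw [← pow_mul, ← pow_add, ← pow_add]
        _ ≤ 2 ^ (L * L * L + L * L + L) := by
            apply pow_le_pow_right₀ (by norm_num)
            have : L * L * n ≤ L * L * L := Nat.mul_le_mul_left _ (by omega)
            omega
    exact_mod_cast h1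
  obtain ⟨c1, c2, c3⟩ := conf_bounds I.k I.kpos (ifb I) v' _ _ ex hs (2 ^ (L * L + 2 * L))
    (2 ^ (L * L * L + L * L + L)) hR1 hRl (one_le_pow₀ (by norm_num)) hvle
  -- the factors
  have hq1 : (1 : ℝ) ≤ q := by rw [hq]; exact_mod_cast hqp
  have hw1 : (1 : ℝ) ≤ w := by rw [hw]; exact_mod_cast hwp
  have hqR : (q : ℝ) ≤ 2 ^ (L * L) := by rw [hq]; exact_mod_cast hqle
  have hwR : (w : ℝ) ≤ 2 ^ (L * L) := by rw [hw]; exact_mod_cast hwle
  have hkR : (I.k : ℝ) ≤ 2 ^ L := by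
    have : I.k ≤ 2 ^ L := hkL.trans Nat.lt_two_pow_self.le
    exact_mod_cast this
  have hfR : (I.k.factorial : ℝ) ≤ 2 ^ (L * L) := by exact_mod_cast id_fact hkL
  have hG : (I.k.factorial : ℝ) * (2 * 2 ^ (L * L + 2 * L)) ^ (I.k * I.k) ≤
      2 ^ (L * L + (1 + (L * L + 2 * L)) * (L * L)) := by
    have h1 : (2 : ℝ) * 2 ^ (L * L + 2 * L) = 2 ^ (1 + (L * L + 2 * L)) := by
      rw [pow_add 2 1, pow_one]
    rw [h1, ← pow_mul, pow_add 2 (L * L)]
    have h2 : (1 + (L * L + 2 * L)) * (I.k * I.k) ≤ (1 + (L * L + 2 * L)) * (L * L) :=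
      Nat.mul_le_mul_left _ (Nat.mul_le_mul hkL hkL)
    have h3 : (2 : ℝ) ^ ((1 + (L * L + 2 * L)) * (I.k * I.k)) ≤
        2 ^ ((1 + (L * L + 2 * L)) * (L * L)) := pow_le_pow_right₀ (by norm_num) h2
    gcongr
  have hpowR : ∀ a, a ≤ P → (2 : ℝ) ^ a ≤ 2 ^ P := fun a ha => pow_le_pow_right₀ (by norm_num) ha
  have hhalf : ∀ a, a ≤ P → ((1 : ℝ) / 2) ^ P ≤ (1 / 2) ^ a := fun a ha =>
    pow_le_pow_of_le_one (by norm_num) (by norm_num) ha
  have hqex : ∀ i : Fin I.k, (w : ℝ) * (q : ℝ) ^ ex i ≤ 2 ^ (L * L + L * L * L) := by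
    intro i
    have h1 : ex i ≤ L := (hrd.1 i i.2).le.trans hkL
    calc (w : ℝ) * (q : ℝ) ^ ex i ≤ 2 ^ (L * L) * (2 ^ (L * L)) ^ ex i := by gcongr
      _ ≤ 2 ^ (L * L) * (2 ^ (L * L)) ^ L := by
          gcongr
          exact one_le_pow₀ (by norm_num)
      _ = 2 ^ (L * L + L * L * L) := by rw [← pow_mul, ← pow_add]
  have hqex1 : ∀ i : Fin I.k, 1 ≤ (w : ℝ) * (q : ℝ) ^ ex i := fun i =>
    one_le_mul_of_one_le_of_one_le hw1 (one_le_pow₀ hq1)
  refine ⟨fun i => l i, fun i => c i, fun i => ex i, e, ?_, hall⟩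
  refine ⟨I.kpos, hkL.trans z1, fun i => hrd.1 i i.2, ?_, ?_, ?_, ?_, ?_, ?_, he0, ?_, htor, ?_⟩
  · intro i i' hii'
    by_contra hne
    have hne' : (i : ℕ) ≠ i' := fun h => hne (Fin.ext h)
    have h1 := Prod.ext_iff.mp hii'
    rcases hrd.2.1 i i.2 i' i'.2 hne' with h' | h'
    · exact h' h1.1
    · exact h' h1.2
  · intro i
    exact (root_norm_le I.k I.num I.den L hkL I.den_pos' (I.num_le' L hb) _ (hroot i)).trans
      (hpowR _ z2)
  · intro i hi
    have h1 := c2 i i.2 (mul_ne_zero (by exact_mod_cast (show q ≠ 0 by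
      rw [hq]
      exact hqp.ne')) hi)
    rw [norm_mul, Complex.norm_natCast] at h1
    have h2 : (q : ℝ) * (2 ^ (L * L + 2 * L)) ^ I.k ≤ 2 ^ (L * L + (L * L + 2 * L) * L) := by
      calc (q : ℝ) * (2 ^ (L * L + 2 * L)) ^ I.k
          ≤ 2 ^ (L * L) * (2 ^ (L * L + 2 * L)) ^ L := by
            gcongr
        _ = 2 ^ (L * L + (L * L + 2 * L) * L) := by rw [← pow_mul, ← pow_add]
    have h3 : 1 ≤ ‖l i‖ * 2 ^ (L * L + (L * L + 2 * L) * L) := by
      refine h1.trans ?_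
      calc (q : ℝ) * ‖l i‖ * (2 ^ (L * L + 2 * L)) ^ I.k
          = ‖l i‖ * ((q : ℝ) * (2 ^ (L * L + 2 * L)) ^ I.k) := by ring
        _ ≤ _ := by gcongr
    refine (hhalf _ z3).trans ?_
    rw [one_div, inv_pow, inv_eq_one_div, div_le_iff₀ (by positivity)]
    exact h3
  · intro i
    have h1 := c1 i i.2
    simp only [norm_mul, norm_pow, Complex.norm_natCast] at h1
    calc ‖c i‖ ≤ (w : ℝ) * (q : ℝ) ^ ex i * ‖c i‖ :=
          le_mul_of_one_le_left (norm_nonneg _) (hqex1 i)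
      _ ≤ _ := h1
      _ ≤ 2 ^ (L * L + (1 + (L * L + 2 * L)) * (L * L)) * 2 ^ (L * L * L + L * L + L) := by
          gcongr
      _ = 2 ^ (L * L + (1 + (L * L + 2 * L)) * (L * L) + (L * L * L + L * L + L)) := by
          rw [← pow_add]
      _ ≤ 2 ^ P := hpowR _ z4
  · intro i i' hii'
    have h2 := gap_of_roots I.k I.num I.den L hkL I.den_pos' (I.num_le' L hb)
      (I.den_le' L hb) (l i) (l i') (hroot i) (hroot i') hii'
    refine h2.trans ?_
    have h3 := hhalf _ z8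
    have h4 : (1 : ℝ) / 2 ^ pg L = (1 / 2) ^ pg L := by rw [one_div, one_div, inv_pow]
    rw [h4]
    gcongr
  · intro i0 n0 a hn0 hi0 hne
    have hq0 : (q : ℂ) ≠ 0 := by
      exact_mod_cast (show q ≠ 0 by
        rw [hq]
        exact hqp.ne')
    have hw0 : (w : ℂ) ≠ 0 := by
      exact_mod_cast (show w ≠ 0 by
        rw [hw]
        exact hwp.ne')
    have key : ∑ i ∈ range I.k with ((q : ℂ) * l i) ^ n0 = ((q : ℂ) * l i0) ^ n0 ∧ ex i = ex i0,
        ((w : ℂ) * (q : ℂ) ^ ex i * c i) * (((q : ℂ) * l i) / ((q : ℂ) * l i0)) ^ a =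
        ((w : ℂ) * (q : ℂ) ^ ex i0) * Finset.sum (Finset.univ.filter fun i : Fin I.k =>
          l (i : ℕ) ^ n0 = l (i0 : ℕ) ^ n0 ∧ ex (i : ℕ) = ex (i0 : ℕ))
          fun i => c (i : ℕ) * (l (i : ℕ) / l (i0 : ℕ)) ^ a := by
      rw [Finset.sum_filter, Finset.sum_filter, Finset.sum_range, mul_sum]
      apply Finset.sum_congr rfl
      intro i _
      have hiff : (((q : ℂ) * l i) ^ n0 = ((q : ℂ) * l i0) ^ n0 ∧ ex i = ex i0) ↔
          (l i ^ n0 = l i0 ^ n0 ∧ ex i = ex i0) := by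
        rw [mul_pow, mul_pow]
        constructor
        · rintro ⟨h, h'⟩
          exact ⟨mul_left_cancel₀ (pow_ne_zero _ hq0) h, h'⟩
        · rintro ⟨h, h'⟩
          exact ⟨by rw [h], h'⟩
      by_cases h : l i ^ n0 = l i0 ^ n0 ∧ ex i = ex i0
      · rw [if_pos (hiff.mpr h), if_pos h, h.2, mul_div_mul_left _ _ hq0]
        ring
      · rw [if_neg (mt hiff.mp h), if_neg h, mul_zero]
    have hne' : ∑ i ∈ range I.k with ((q : ℂ) * l i) ^ n0 = ((q : ℂ) * l i0) ^ n0 ∧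
        ex i = ex i0,
        ((w : ℂ) * (q : ℂ) ^ ex i * c i) * (((q : ℂ) * l i) / ((q : ℂ) * l i0)) ^ a ≠ 0 := by
      rw [key]
      exact mul_ne_zero (mul_ne_zero hw0 (pow_ne_zero _ hq0)) hne
    have h1 := c3 i0 n0 a i0.2 hn0 (mul_ne_zero hq0 hi0) hne'
    rw [key, norm_mul, norm_mul, norm_pow, Complex.norm_natCast, Complex.norm_natCast] at h1
    obtain ⟨S, hS⟩ : ∃ S : ℝ, S = ‖Finset.sum (Finset.univ.filter fun i : Fin I.k =>
      l (i : ℕ) ^ n0 = l (i0 : ℕ) ^ n0 ∧ ex (i : ℕ) = ex (i0 : ℕ))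
      fun i => c (i : ℕ) * (l (i : ℕ) / l (i0 : ℕ)) ^ a‖ := ⟨_, rfl⟩
    rw [← hS] at h1 ⊢
    have hS0 : 0 ≤ S := by rw [hS]; exact norm_nonneg _
    have h2 : (I.k : ℝ) * ((I.k.factorial : ℝ) * (2 * 2 ^ (L * L + 2 * L)) ^ (I.k * I.k)) ^ 3 *
        2 ^ (L * L * L + L * L + L) ≤
        2 ^ (L + 3 * (L * L + (1 + (L * L + 2 * L)) * (L * L)) + (L * L * L + L * L + L)) := by
      calc (I.k : ℝ) * ((I.k.factorial : ℝ) * (2 * 2 ^ (L * L + 2 * L)) ^ (I.k * I.k)) ^ 3 *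
            2 ^ (L * L * L + L * L + L)
          ≤ 2 ^ L * (2 ^ (L * L + (1 + (L * L + 2 * L)) * (L * L))) ^ 3 *
            2 ^ (L * L * L + L * L + L) := by gcongr
        _ = _ := by
            rw [← pow_mul, ← pow_add, ← pow_add, mul_comm _ 3]
    have h3 : ((I.k : ℝ) * ((I.k.factorial : ℝ) * (2 * 2 ^ (L * L + 2 * L)) ^ (I.k * I.k)) ^ 3 *
        2 ^ (L * L * L + L * L + L)) ^ (I.k + 1) ≤
        2 ^ ((L + 3 * (L * L + (1 + (L * L + 2 * L)) * (L * L)) + (L * L * L + L * L + L)) *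
          (L + 1)) := by
      refine (pow_le_pow_left₀ (by positivity) h2 _).trans ?_
      rw [← pow_mul]
      exact pow_le_pow_right₀ (by norm_num) (Nat.mul_le_mul_left _ (by omega))
    have h4 : 1 ≤ S * 2 ^ ((L + 3 * (L * L + (1 + (L * L + 2 * L)) * (L * L)) +
        (L * L * L + L * L + L)) * (L + 1) + (L * L + L * L * L)) := by
      refine h1.trans ?_
      rw [pow_add 2 ((L + 3 * (L * L + (1 + (L * L + 2 * L)) * (L * L)) +
        (L * L * L + L * L + L)) * (L + 1)), ← mul_assoc]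
      have h5 := hqex i0
      calc (w : ℝ) * (q : ℝ) ^ ex i0 * S * _ ≤ 2 ^ (L * L + L * L * L) * S *
            2 ^ ((L + 3 * (L * L + (1 + (L * L + 2 * L)) * (L * L)) +
              (L * L * L + L * L + L)) * (L + 1)) := by gcongr
        _ = _ := by ring
    refine (hhalf _ z5).trans ?_
    rw [one_div, inv_pow, inv_eq_one_div, div_le_iff₀ (by positivity)]
    exact h4
  · calc e ≤ 2 * I.k.factorial ^ 2 := hele
      _ ≤ 2 * (2 ^ (L * L)) ^ 2 := by
          gcongr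
          exact id_fact hkL
      _ = 2 ^ (1 + 2 * (L * L)) := by
          rw [← pow_mul, pow_add, pow_one, mul_comm (L * L) 2]
      _ ≤ 2 ^ P := Nat.pow_le_pow_right (by norm_num) z6
  · intro i i' hi'
    obtain ⟨g, hg0, hg1, hg2, hg3⟩ := exists_ratio_poly I.k I.num I.den L hkL I.den_pos'
      (I.num_le' L hb) (I.den_le' L hb) (l i) (l i') (hroot i) (hroot i') hi'
    exact ⟨g, hg0, hg1, hg2.trans z7, fun t => (hg3 t).trans
      (pow_le_pow_right₀ (by norm_num) z7)⟩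

end Pool.Agent.UltPos
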