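import Pool.Agent.DensePos.Sparse
import Pool.Agent.DensePos.Lang
import Pool.Agent.AlmostPos.Main

/-! Positivity and Ultimate Positivity of all recurrences on a universal set of indices of density
one. -/

set_option autoImplicit false

namespace Pool.Agent.UltPos

open Pool.Agent.PT Pool.Agent.AllR Filter Topology

/-- The terms of the instance are positive at all sufficiently large indices `n ∈ S`. -/
def Inst.UltPosOn (I : Inst) (S : Set ℕ) : Prop :=
  ∀ v : ℕ → ℚ, I.IsSeq v → ∃ N, ∀ n, N ≤ n → n ∈ S → 0 < v n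

private lemma dm_sparse_tendsto (S : Set ℕ) (δ : ℝ) (hδ : 0 < δ)
    (h : ∀ᶠ X : ℕ in atTop, ((S ∩ Set.Iio X).ncard : ℝ) ≤ X / 2 ^ ((Real.logb 2 X) ^ δ)) :
    Tendsto (fun X : ℕ => ((S ∩ Set.Iio X).ncard : ℝ) / X) atTop (𝓝 0) := by
  have hlog : Tendsto (fun X : ℕ => Real.logb 2 X) atTop atTop :=
    (Real.tendsto_logb_atTop (by norm_num)).comp tendsto_natCast_atTop_atTop
  have h1 : Tendsto (fun X : ℕ => (2 : ℝ) ^ ((Real.logb 2 X) ^ δ)) atTop atTop :=
    (tendsto_rpow_atTop_of_base_gt_one 2 (by norm_num)).comp ((tendsto_rpow_atTop hδ).comp hlog)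
  refine squeeze_zero' (Eventually.of_forall fun X => by positivity) ?_ h1.inv_tendsto_atTop
  filter_upwards [h, eventually_gt_atTop 0] with X hX hX0
  have hX0' : (0 : ℝ) < X := by exact_mod_cast hX0
  rw [div_le_iff₀ hX0', Pi.inv_apply]
  refine hX.trans (le_of_eq ?_)
  rw [div_eq_mul_inv, mul_comm]

/-- positivity at the large elements of a set of density one gives almost everywhere positivity -/
theorem aePositive_of_ultPosOn (I : Inst) (S : Set ℕ) (hS : I.UltPosOn S)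
    (h0 : Tendsto (fun X : ℕ => ((Sᶜ ∩ Set.Iio X).ncard : ℝ) / X) atTop (𝓝 0)) :
    I.AEPositive := by
  obtain ⟨v0, hv0, -⟩ := I.exists_unique_seq
  obtain ⟨N, hN⟩ := hS v0 hv0
  refine aePositive_of_set I (S ∩ Set.Ici N) (fun v hv n hn => ?_) ?_
  · rw [I.exists_unique_seq.unique hv hv0]
    exact hN n hn.2 hn.1
  · have h1 : Tendsto (fun X : ℕ => ((Sᶜ ∩ Set.Iio X).ncard : ℝ) / X + (N : ℝ) / X) atTop (𝓝 0) := by
      have h2 : Tendsto (fun X : ℕ => (N : ℝ) / X) atTop (𝓝 0) :=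
        tendsto_const_div_atTop_nhds_zero_nat _
      simpa using h0.add h2
    refine squeeze_zero (fun X => by positivity) (fun X => ?_) h1
    rw [← add_div]
    refine div_le_div_of_nonneg_right ?_ (by positivity)
    have h3 : (S ∩ Set.Ici N)ᶜ ∩ Set.Iio X ⊆ (Sᶜ ∩ Set.Iio X) ∪ Set.Iio N := by
      rintro n ⟨hn1, hn2⟩
      by_cases h4 : n ∈ S
      · right
        by_contra h5
        exact hn1 ⟨h4, by rw [Set.mem_Ici]; rw [Set.mem_Iio] at h5; omega⟩
      · exact Or.inl ⟨h4, hn2⟩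
    have h4 : ((Sᶜ ∩ Set.Iio X) ∪ Set.Iio N).Finite :=
      ((Set.finite_Iio X).subset Set.inter_subset_right).union (Set.finite_Iio N)
    have h5 := (Set.ncard_le_ncard h3 h4).trans (Set.ncard_union_le _ _)
    have h6 : (Set.Iio N).ncard = N := by
      have h7 : (Set.Iio N : Set ℕ) = ((Finset.range N : Finset ℕ) : Set ℕ) := by
        ext n
        simp
      rw [h7, Set.ncard_coe_finset, Finset.card_range]
    rw [h6] at h5
    exact_mod_cast h5

/-- **All recurrences, universal set of indices.** -/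
theorem general_main : ∃ (δ : ℝ) (c₀ : ℕ) (S : Set ℕ), 0 < δ ∧
    (∀ᶠ X : ℕ in atTop, ((Sᶜ ∩ Set.Iio X).ncard : ℝ) ≤ X / 2 ^ ((Real.logb 2 X) ^ δ)) ∧
    (∀ c, c₀ ≤ c → InForallR {w : List ISym | ∃ I : Inst, w = I.enc ∧ I.PosOn c S}) ∧
    InForallR {w : List ISym | ∃ I : Inst, w = I.enc ∧ I.UltPosOn S} ∧
    ∀ I : Inst, I.UltPosOn S → ∀ v : ℕ → ℚ, I.IsSeq v → ∀ n ∈ S,
      2 ^ ((I.enc.length + 2) ^ c₀) ≤ n → 0 < v n := by
  obtain ⟨δ, c, hδ, hc⟩ := exceptionsL_sparse
  have hden := dm_sparse_tendsto _ δ hδ hc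
  have hthr : ∀ I : Inst, I.AEPositive → ∀ v : ℕ → ℚ, I.IsSeq v → ∀ n,
      2 ^ ((I.enc.length + 2) ^ c) ≤ n → n ∈ (exceptionsL c)ᶜ → 0 < v n := by
    intro I hAE v hv n hn hS
    by_contra hcon
    exact hS ⟨I, hAE, hn, v, hv, not_lt.mp hcon⟩
  have key1 : ∀ I : Inst, I.UltPosOn (exceptionsL c)ᶜ ↔ I.AEPositive := by
    intro I
    constructor
    · intro h
      exact aePositive_of_ultPosOn I _ h (by rw [compl_compl]; exact hden)
    · intro h v hv
      exact ⟨2 ^ ((I.enc.length + 2) ^ c), fun n hn hS => hthr I h v hv n hn hS⟩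
  have key2 : ∀ c', c ≤ c' → ∀ I : Inst,
      I.PosOn c' (exceptionsL c)ᶜ ↔ I.AEPositive ∧ I.SmallPos c' := by
    intro c' hcc I
    constructor
    · intro h
      exact ⟨(key1 I).mp fun v hv => ⟨0, fun n _ hS => h v hv n (Or.inr hS)⟩,
        fun v hv n hn => h v hv n (Or.inl hn)⟩
    · rintro ⟨h1, h2⟩ v hv n hn
      rcases Nat.lt_or_ge n (2 ^ ((I.enc.length + 2) ^ c')) with h | h
      · exact h2 v hv n h
      · rcases hn with hn | hn
        · omega
        · refine hthr I h1 v hv n (le_trans ?_ h) hn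
          exact Nat.pow_le_pow_right (by norm_num) (Nat.pow_le_pow_right (by omega) hcc)
  refine ⟨δ, c, (exceptionsL c)ᶜ, hδ, by rw [compl_compl]; exact hc, ?_, ?_, ?_⟩
  · intro c' hcc
    simp only [key2 c' hcc]
    exact inForallR_AE_small c'
  · simp only [key1]
    exact inForallR_AEPositive
  · intro I hI v hv n hn hle
    exact hthr I ((key1 I).mp hI) v hv n hle hn

end Pool.Agent.UltPos
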