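import Pool.Agent.DensePos.InstData
import Pool.Agent.DensePos.Count

/-! DP7. The set of exceptions is sparse. -/

set_option autoImplicit false

namespace Pool.Agent.UltPos

open Filter Topology Pool.Agent.DD7719.M

/-- The indices `n ≥ 2 ^ ((L + 2) ^ c)` of the nonpositive terms of the almost everywhere positive
instances, `L` the length of the code of the instance. -/
def exceptionsL (c : ℕ) : Set ℕ :=
  {n | ∃ I : Inst, I.AEPositive ∧ 2 ^ ((I.enc.length + 2) ^ c) ≤ n ∧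
    ∃ v : ℕ → ℚ, I.IsSeq v ∧ v n ≤ 0}

/- PROOF (uses DP4 `Inst.exists_dData` and DP6 `count_nonpos`). Let `d` be from DP4
and `B` from DP6; choose `c > d B`, e.g. `c = (d + 4) (B + 1)`. Let `n ∈ exceptionsL c`,
`2^q ≤ n < 2^(q+1)`, witnessed by `I` with `L = I.enc.length`: `2^((L+2)^c) ≤ n` gives
`(L+2)^c ≤ q`. Put `s = ⌊q^(1/c)⌋` (`s^c ≤ q < (s+1)^c`), so `L + 2 ≤ s`, and `a = 8 s^(d+1)`:
`a ≥ (L+2)^d = P`, `a ≥ 8 s` and `a^B ≤ q`. So `I` has at most `2^(q - a)` such `n`; there are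
at most `7^s ≤ 2^(3 s)` words of length `< s` (`ISym` has 6 letters, `I` determines `v`
(`Inst.exists_unique_seq`) and its code determines `I`), so the block contains at most
`2^(q - a + 3 s) ≤ 2^(q - 5 s)` exceptions. Sum over the blocks `q' ≤ log2 X`: those below
`(log2 X)/2` contribute at most `√X`, the others at most `2 X / 2^(5 s')` together, `s'` for
`(log2 X)/2`. So `δ = 1 / (2 c)` works. -/

open scoped Classical in
/-- the nonpositive terms of one instance in a dyadic block -/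
private lemma dps_inst (d B : ℕ)
    (hd : ∀ (I : Inst) (v : ℕ → ℚ), I.IsSeq v →
      ∃ (l c : Fin I.k → ℂ) (ex : Fin I.k → ℕ) (e : ℕ),
        DData I.k ((I.enc.length + 2) ^ d) l c ex e ∧
        ∀ n : ℕ, ∑ i, c i * (n.choose (ex i) : ℂ) * l i ^ (n - ex i) = (((v n : ℚ) : ℝ) : ℂ))
    (hB : ∀ (k P : ℕ) (l c : Fin k → ℂ) (ex : Fin k → ℕ) (e : ℕ),
      DData k P l c ex e → ∀ v : ℕ → ℝ,
      (∀ n, ∑ i, c i * (n.choose (ex i) : ℂ) * l i ^ (n - ex i) = (v n : ℂ)) → AEPos v →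
      ∀ a q : ℕ, 2 ≤ a → P ≤ a → a ^ B ≤ q →
        ((Finset.Ico (2 ^ q) (2 ^ (q + 1))).filter fun n => v n ≤ 0).card ≤ 2 ^ (q - a))
    (I : Inst) (v : ℕ → ℚ) (hv : I.IsSeq v) (hI : I.AEPositive) (a q : ℕ) (ha : 2 ≤ a)
    (hP : (I.enc.length + 2) ^ d ≤ a) (haq : a ^ B ≤ q) :
    ((Finset.Ico (2 ^ q) (2 ^ (q + 1))).filter fun n => v n ≤ 0).card ≤ 2 ^ (q - a) := by
  obtain ⟨l, c, ex, e, h1, h2⟩ := hd I v hv
  have h3 : AEPos fun n => ((v n : ℚ) : ℝ) := by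
    unfold AEPos
    refine (hI v hv).congr fun X => ?_
    congr 2
    refine congrArg Finset.card (Finset.ext fun n => ?_)
    rw [Finset.mem_filter, Finset.mem_filter, Rat.cast_nonpos]
  refine (Finset.card_le_card ?_).trans
    (hB _ _ l c ex e h1 (fun n => ((v n : ℚ) : ℝ)) h2 h3 a q ha hP haq)
  intro n hn
  rw [Finset.mem_filter] at hn ⊢
  exact ⟨hn.1, Rat.cast_nonpos.2 hn.2⟩

open scoped Classical in
/-- the exceptions in a dyadic block -/
private lemma dps_block (d B c : ℕ) (hc : c = (d + 4) * (B + 1))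
    (hd : ∀ (I : Inst) (v : ℕ → ℚ), I.IsSeq v →
      ∃ (l c : Fin I.k → ℂ) (ex : Fin I.k → ℕ) (e : ℕ),
        DData I.k ((I.enc.length + 2) ^ d) l c ex e ∧
        ∀ n : ℕ, ∑ i, c i * (n.choose (ex i) : ℂ) * l i ^ (n - ex i) = (((v n : ℚ) : ℝ) : ℂ))
    (hB : ∀ (k P : ℕ) (l c : Fin k → ℂ) (ex : Fin k → ℕ) (e : ℕ),
      DData k P l c ex e → ∀ v : ℕ → ℝ,
      (∀ n, ∑ i, c i * (n.choose (ex i) : ℂ) * l i ^ (n - ex i) = (v n : ℂ)) → AEPos v →
      ∀ a q : ℕ, 2 ≤ a → P ≤ a → a ^ B ≤ q →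
        ((Finset.Ico (2 ^ q) (2 ^ (q + 1))).filter fun n => v n ≤ 0).card ≤ 2 ^ (q - a))
    (q s : ℕ) (hs : s ^ c ≤ q) (hm : ∀ m, m ^ c ≤ q → m ≤ s) :
    (exceptionsL c ∩ Set.Ico (2 ^ q) (2 ^ (q + 1))).ncard * 2 ^ (5 * s) ≤ 2 ^ q := by
  have hlen : ∀ (I : Inst) (n : ℕ), 2 ^ ((I.enc.length + 2) ^ c) ≤ n →
      n < 2 ^ (q + 1) → I.enc.length + 2 ≤ s := by
    intro I n h1 hnq
    apply hm
    have h2 := (Nat.pow_lt_pow_iff_right (by norm_num)).1 (h1.trans_lt hnq)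
    omega
  by_cases h2 : 2 ≤ s
  swap
  · have h0 : exceptionsL c ∩ Set.Ico (2 ^ q) (2 ^ (q + 1)) = ∅ := by
      rw [Set.eq_empty_iff_forall_notMem]
      rintro n ⟨⟨I, -, hI, -⟩, -, hn2⟩
      have := hlen I n hI hn2
      omega
    rw [h0, Set.ncard_empty, zero_mul]
    exact Nat.zero_le _
  set a : ℕ := 8 * s ^ (d + 1) with ha
  have haB : a ^ (B + 1) ≤ q := by
    have h8 : 8 ≤ s ^ 3 := by
      calc 8 = 2 ^ 3 := by norm_num
        _ ≤ s ^ 3 := Nat.pow_le_pow_left h2 3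
    calc a ^ (B + 1) ≤ (s ^ 3 * s ^ (d + 1)) ^ (B + 1) :=
          Nat.pow_le_pow_left (Nat.mul_le_mul_right _ h8) _
      _ = s ^ c := by
          rw [hc, ← pow_add, ← pow_mul]
          congr 1
          ring
      _ ≤ q := hs
  have ha1 : 1 ≤ s ^ (d + 1) := Nat.one_le_pow _ _ (by omega)
  have ha2 : 2 ≤ a := by omega
  have haq : a ≤ q := (Nat.le_self_pow (by omega) a).trans haB
  have haB' : a ^ B ≤ q := (Nat.pow_le_pow_right (by omega) (Nat.le_succ B)).trans haB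
  have hsa : 8 * s ≤ a := by
    rw [ha, pow_succ]
    have h3 : 1 ≤ s ^ d := Nat.one_le_pow _ _ (by omega)
    nlinarith
  let P : (Fin s → Option ISym) → Inst × (ℕ → ℚ) → Prop := fun k p =>
    (∀ i : Fin s, p.1.enc[(i : ℕ)]? = k i) ∧ p.1.enc.length + 2 ≤ s ∧
      p.1.AEPositive ∧ p.1.IsSeq p.2
  have huniq : ∀ k p p', P k p → P k p' → p = p' := by
    rintro k ⟨I, v⟩ ⟨I', v'⟩ ⟨h1, h2, -, h5⟩ ⟨h1', h2', -, h5'⟩
    have hI : I = I' := by
      apply enc_injective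
      apply List.ext_getElem?
      intro i
      by_cases hi : i < s
      · exact (h1 ⟨i, hi⟩).trans (h1' ⟨i, hi⟩).symm
      · simp only at h2 h2'
        rw [List.getElem?_eq_none (by omega), List.getElem?_eq_none (by omega)]
    subst hI
    have hv : v = v' := I.exists_unique_seq.unique h5 h5'
    rw [hv]
  let S : (Fin s → Option ISym) → Finset ℕ := fun k =>
    if h : ∃ p, P k p then
      (Finset.Ico (2 ^ q) (2 ^ (q + 1))).filter (fun n => h.choose.2 n ≤ 0) else ∅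
  have hS : ∀ k, (S k).card ≤ 2 ^ (q - a) := by
    intro k
    by_cases h : ∃ p, P k p
    · have e : S k = (Finset.Ico (2 ^ q) (2 ^ (q + 1))).filter
          (fun n => h.choose.2 n ≤ 0) := dif_pos h
      obtain ⟨h1, h2, h4, h5⟩ := h.choose_spec
      rw [e]
      refine dps_inst d B hd hB _ _ h5 h4 a q ha2 ?_ haB'
      calc (h.choose.1.enc.length + 2) ^ d ≤ s ^ d := Nat.pow_le_pow_left h2 d
        _ ≤ s ^ (d + 1) := Nat.pow_le_pow_right (by omega) (Nat.le_succ d)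
        _ ≤ a := by omega
    · have e : S k = ∅ := dif_neg h
      rw [e]
      simp
  have hsub : exceptionsL c ∩ Set.Ico (2 ^ q) (2 ^ (q + 1)) ⊆ ↑((Finset.univ).biUnion S) := by
    rintro n ⟨⟨I, hA, hI, v, hv, hn⟩, hn1, hn2⟩
    let k : Fin s → Option ISym := fun i => I.enc[(i : ℕ)]?
    have hP : P k (I, v) := ⟨fun i => rfl, hlen I n hI hn2, hA, hv⟩
    have hex : ∃ p, P k p := ⟨_, hP⟩
    have e : S k = (Finset.Ico (2 ^ q) (2 ^ (q + 1))).filter
          (fun n => hex.choose.2 n ≤ 0) := dif_pos hex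
    have h5 : hex.choose = (I, v) := huniq k _ _ hex.choose_spec hP
    rw [Finset.mem_coe, Finset.mem_biUnion]
    refine ⟨k, Finset.mem_univ _, ?_⟩
    rw [e, h5, Finset.mem_filter, Finset.mem_Ico]
    exact ⟨⟨hn1, hn2⟩, hn⟩
  have hcard : (exceptionsL c ∩ Set.Ico (2 ^ q) (2 ^ (q + 1))).ncard ≤ 2 ^ (3 * s) * 2 ^ (q - a) :=
    calc (exceptionsL c ∩ Set.Ico (2 ^ q) (2 ^ (q + 1))).ncard
      ≤ (↑((Finset.univ).biUnion S) : Set ℕ).ncard :=
        Set.ncard_le_ncard hsub (Finset.finite_toSet _)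
    _ = ((Finset.univ).biUnion S).card := Set.ncard_coe_finset _
    _ ≤ (Finset.univ : Finset (Fin s → Option ISym)).card * 2 ^ (q - a) :=
        Finset.card_biUnion_le_card_mul _ _ _ fun k _ => hS k
    _ = 7 ^ s * 2 ^ (q - a) := by
        congr 1
        rw [Finset.card_univ, Fintype.card_fun, Fintype.card_option, Fintype.card_fin]
        rfl
    _ ≤ 2 ^ (3 * s) * 2 ^ (q - a) := by
        apply Nat.mul_le_mul_right
        rw [pow_mul]
        exact Nat.pow_le_pow_left (by norm_num) s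
  calc (exceptionsL c ∩ Set.Ico (2 ^ q) (2 ^ (q + 1))).ncard * 2 ^ (5 * s)
      ≤ 2 ^ (3 * s) * 2 ^ (q - a) * 2 ^ (5 * s) := Nat.mul_le_mul_right _ hcard
    _ = 2 ^ (q - a + 8 * s) := by
        rw [← pow_add, ← pow_add]
        congr 1
        ring
    _ ≤ 2 ^ q := Nat.pow_le_pow_right (by norm_num) (by omega)

/-- the exceptions up to `X` -/
private lemma dps_sum (c : ℕ) (σ : ℕ → ℕ)
    (hb : ∀ q, (exceptionsL c ∩ Set.Ico (2 ^ q) (2 ^ (q + 1))).ncard * 2 ^ (5 * σ q) ≤ 2 ^ q)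
    (hσ : Monotone σ) (h J : ℕ) :
    (exceptionsL c ∩ Set.Iio (2 ^ (J + 1))).ncard * 2 ^ (5 * σ h) ≤
      2 ^ h * 2 ^ (5 * σ h) + 2 ^ (J + 1) := by
  have hsub : exceptionsL c ∩ Set.Iio (2 ^ (J + 1)) ⊆
      Set.Iio (2 ^ h) ∪ ⋃ q ∈ Finset.Ico h (J + 1),
        (exceptionsL c ∩ Set.Ico (2 ^ q) (2 ^ (q + 1))) := by
    rintro n ⟨hn, hnX⟩
    rcases lt_or_ge n (2 ^ h) with h1 | h1
    · exact Or.inl h1
    · right
      have hn0 : n ≠ 0 := by
        have : 0 < 2 ^ h := by positivity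
        omega
      refine Set.mem_biUnion (x := Nat.log 2 n) ?_ ⟨hn, Nat.pow_log_le_self 2 hn0,
        Nat.lt_pow_succ_log_self (by norm_num) n⟩
      rw [Finset.mem_coe, Finset.mem_Ico]
      exact ⟨Nat.le_log_of_pow_le (by norm_num) h1, Nat.log_lt_of_lt_pow hn0 hnX⟩
  have hfin : (Set.Iio (2 ^ h) ∪ ⋃ q ∈ Finset.Ico h (J + 1),
        (exceptionsL c ∩ Set.Ico (2 ^ q) (2 ^ (q + 1)))).Finite := by
    refine (Set.finite_Iio _).union ?_
    refine Set.Finite.biUnion (Finset.finite_toSet _) fun q _ => ?_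
    exact (Set.finite_Ico _ _).subset Set.inter_subset_right
  have h1 : (exceptionsL c ∩ Set.Iio (2 ^ (J + 1))).ncard ≤ 2 ^ h +
      ∑ q ∈ Finset.Ico h (J + 1), (exceptionsL c ∩ Set.Ico (2 ^ q) (2 ^ (q + 1))).ncard := by
    refine (Set.ncard_le_ncard hsub hfin).trans ((Set.ncard_union_le _ _).trans ?_)
    apply add_le_add
    · rw [← Finset.coe_range, Set.ncard_coe_finset, Finset.card_range]
    · exact Finset.set_ncard_biUnion_le _ _
  have h2 : (∑ q ∈ Finset.Ico h (J + 1),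
      (exceptionsL c ∩ Set.Ico (2 ^ q) (2 ^ (q + 1))).ncard) * 2 ^ (5 * σ h) ≤ 2 ^ (J + 1) := by
    rw [Finset.sum_mul]
    calc ∑ q ∈ Finset.Ico h (J + 1),
          (exceptionsL c ∩ Set.Ico (2 ^ q) (2 ^ (q + 1))).ncard * 2 ^ (5 * σ h)
        ≤ ∑ q ∈ Finset.Ico h (J + 1), 2 ^ q := by
          refine Finset.sum_le_sum fun q hq => ?_
          refine le_trans (Nat.mul_le_mul_left _ ?_) (hb q)
          apply Nat.pow_le_pow_right (by norm_num)
          have := hσ (Finset.mem_Ico.1 hq).1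
          omega
      _ ≤ ∑ q ∈ Finset.range (J + 1), 2 ^ q := by
          apply Finset.sum_le_sum_of_subset
          intro q hq
          rw [Finset.mem_range]
          exact (Finset.mem_Ico.1 hq).2
      _ ≤ 2 ^ (J + 1) := by
          have := Nat.geomSum_eq (le_refl 2) (J + 1)
          rw [this]
          simp
  calc (exceptionsL c ∩ Set.Iio (2 ^ (J + 1))).ncard * 2 ^ (5 * σ h)
      ≤ (2 ^ h + ∑ q ∈ Finset.Ico h (J + 1),
          (exceptionsL c ∩ Set.Ico (2 ^ q) (2 ^ (q + 1))).ncard) * 2 ^ (5 * σ h) :=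
        Nat.mul_le_mul_right _ h1
    _ ≤ 2 ^ h * 2 ^ (5 * σ h) + 2 ^ (J + 1) := by
        rw [add_mul]
        exact Nat.add_le_add_left h2 _

/-- the integral part of the `c`-th root -/
private lemma dps_root (c : ℕ) (hc : 1 ≤ c) : ∃ σ : ℕ → ℕ, (∀ q, σ q ^ c ≤ q) ∧
    (∀ q m, m ^ c ≤ q → m ≤ σ q) ∧ Monotone σ := by
  have h1 : ∀ q, (Nat.findGreatest (fun m => m ^ c ≤ q) q) ^ c ≤ q := by
    intro q
    have h0 : (fun m => m ^ c ≤ q) 0 := by
      change 0 ^ c ≤ q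
      rw [zero_pow (by omega)]
      exact Nat.zero_le _
    exact Nat.findGreatest_spec (P := fun m => m ^ c ≤ q) (Nat.zero_le q) h0
  have h2 : ∀ q m, m ^ c ≤ q → m ≤ Nat.findGreatest (fun m => m ^ c ≤ q) q := by
    intro q m hm
    have hmJ : m ≤ q := (Nat.le_self_pow (by omega) m).trans hm
    exact Nat.le_findGreatest (P := fun m => m ^ c ≤ q) hmJ hm
  exact ⟨fun q => Nat.findGreatest (fun m => m ^ c ≤ q) q, h1, h2,
    fun q q' hq => h2 _ _ ((h1 q).trans hq)⟩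

theorem exceptionsL_sparse : ∃ (δ : ℝ) (c : ℕ), 0 < δ ∧ ∀ᶠ X : ℕ in atTop,
    ((exceptionsL c ∩ Set.Iio X).ncard : ℝ) ≤ X / 2 ^ ((Real.logb 2 X) ^ δ) := by
  obtain ⟨d, hd⟩ := Inst.exists_dData
  obtain ⟨B, hB⟩ := count_nonpos
  set c : ℕ := (d + 4) * (B + 1) with hc
  have hc1 : 1 ≤ c := by
    rw [hc]
    nlinarith
  have hc0 : (0 : ℝ) < c := by exact_mod_cast hc1
  obtain ⟨σ, hσ1, hσ2, hσ3⟩ := dps_root c hc1
  have hsum := dps_sum c σ
    (fun q => dps_block d B c hc hd hB q (σ q) (hσ1 q) (hσ2 q)) hσ3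
  refine ⟨1 / (2 * c), c, by positivity, ?_⟩
  have htend : Tendsto (fun X : ℕ => Real.logb 2 (X : ℝ)) atTop atTop :=
    (Real.tendsto_logb_atTop (by norm_num)).comp tendsto_natCast_atTop_atTop
  filter_upwards [htend.eventually_ge_atTop ((2 ^ (c + 1) + 2) ^ 2),
    eventually_ge_atTop 1] with X hx hX1
  set x : ℝ := Real.logb 2 (X : ℝ) with hxdef
  set t : ℝ := x ^ (1 / (2 * c) : ℝ) with ht
  set J : ℕ := Nat.log 2 X with hJ
  set h : ℕ := J / 2 with hh
  have hK : (2 : ℝ) ^ (c + 1) ≥ 2 ^ 2 :=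
    pow_le_pow_right₀ (by norm_num) (by omega)
  have hx0 : 0 < x := lt_of_lt_of_le (by positivity) hx
  have hXpos : (0 : ℝ) < X := by exact_mod_cast hX1
  have hXx : (2 : ℝ) ^ x = X := Real.rpow_logb (by norm_num) (by norm_num) hXpos
  -- `u = √x = t ^ c`
  have htc : t ^ c = Real.sqrt x := by
    rw [ht, ← Real.rpow_natCast, ← Real.rpow_mul hx0.le, Real.sqrt_eq_rpow]
    congr 1
    field_simp
  set u : ℝ := Real.sqrt x with hu
  have huu : u ^ 2 = x := Real.sq_sqrt hx0.le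
  have huK : (2 : ℝ) ^ (c + 1) + 2 ≤ u := by
    rw [hu]
    exact Real.le_sqrt_of_sq_le hx
  have ht0 : 0 ≤ t := Real.rpow_nonneg hx0.le _
  have ht1 : 1 ≤ t := by
    by_contra hlt
    push Not at hlt
    have : t ^ c ≤ 1 := pow_le_one₀ ht0 hlt.le
    rw [htc] at this
    linarith
  have htu : t ≤ u := by
    rw [← htc]
    exact le_self_pow₀ ht1 (by omega)
  -- bounds for `J`
  have hJx : (J : ℝ) ≤ x := by
    rw [hxdef, Real.le_logb_iff_rpow_le (by norm_num) hXpos, Real.rpow_natCast]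
    exact_mod_cast Nat.pow_log_le_self 2 (by omega)
  have hxJ : x < J + 1 := by
    rw [hxdef, Real.logb_lt_iff_lt_rpow (by norm_num) hXpos]
    have h1 : X < 2 ^ (J + 1) := Nat.lt_pow_succ_log_self (by norm_num) X
    have h2 : (X : ℝ) < 2 ^ (J + 1) := by exact_mod_cast h1
    rw [show ((J : ℝ) + 1) = ((J + 1 : ℕ) : ℝ) by push_cast; ring, Real.rpow_natCast]
    exact h2
  have hh1 : (h : ℝ) ≤ x / 2 := by
    have h1 : 2 * h ≤ J := by omega
    have h2 : (2 : ℝ) * h ≤ J := by exact_mod_cast h1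
    linarith
  have hh2 : x / 2 - 1 ≤ h := by
    have h1 : J ≤ 2 * h + 1 := by omega
    have h2 : (J : ℝ) ≤ 2 * h + 1 := by exact_mod_cast h1
    linarith
  -- `t ≤ σ h`
  have hσt : t ≤ σ h := by
    refine (Nat.le_ceil t).trans ?_
    have h1 : ⌈t⌉₊ ≤ σ h := by
      apply hσ2
      have h2 : ((⌈t⌉₊ : ℕ) : ℝ) ≤ 2 * t := by
        have := (Nat.ceil_lt_add_one ht0).le
        linarith
      have h3 : ((⌈t⌉₊ : ℕ) : ℝ) ^ c ≤ h := by
        calc ((⌈t⌉₊ : ℕ) : ℝ) ^ c ≤ (2 * t) ^ c := pow_le_pow_left₀ (by positivity) h2 c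
          _ = 2 ^ c * u := by rw [mul_pow, htc]
          _ ≤ x / 2 - 1 := by
              rw [← huu]
              have h4 : (2 : ℝ) ^ (c + 1) = 2 * 2 ^ c := by rw [pow_succ]; ring
              rw [h4] at huK
              nlinarith [pow_pos (show (0 : ℝ) < 2 by norm_num) c]
          _ ≤ h := hh2
      exact_mod_cast h3
    exact_mod_cast h1
  -- the final estimate
  have hle : (exceptionsL c ∩ Set.Iio X).ncard ≤ (exceptionsL c ∩ Set.Iio (2 ^ (J + 1))).ncard := by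
    apply Set.ncard_le_ncard
    · intro n hn
      exact ⟨hn.1, lt_of_lt_of_le hn.2 (Nat.lt_pow_succ_log_self (by norm_num) X).le⟩
    · exact (Set.finite_Iio _).subset Set.inter_subset_right
  have h1 : ((exceptionsL c ∩ Set.Iio X).ncard : ℝ) * 2 ^ (5 * σ h) ≤
      2 ^ h * 2 ^ (5 * σ h) + 2 ^ (J + 1) := by
    have h2 := (Nat.mul_le_mul_right (2 ^ (5 * σ h)) hle).trans (hsum h J)
    exact_mod_cast h2
  have hpos : (0 : ℝ) < 2 ^ (5 * σ h) := by positivity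
  have h2 : ((exceptionsL c ∩ Set.Iio X).ncard : ℝ) ≤ 2 ^ h + 2 ^ (J + 1) / 2 ^ (5 * σ h) := by
    rw [← sub_le_iff_le_add', le_div_iff₀ hpos]
    linarith
  have h3 : (2 : ℝ) ^ h ≤ X / 2 ^ (t + 1) := by
    rw [le_div_iff₀ (by positivity), ← hXx, ← Real.rpow_natCast, ← Real.rpow_add (by norm_num)]
    apply Real.rpow_le_rpow_of_exponent_le (by norm_num)
    nlinarith
  have h4 : (2 : ℝ) ^ (J + 1) / 2 ^ (5 * σ h) ≤ X / 2 ^ (t + 1) := by
    rw [div_le_div_iff₀ hpos (by positivity), ← hXx, ← Real.rpow_natCast, ← Real.rpow_natCast,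
      ← Real.rpow_add (by norm_num), ← Real.rpow_add (by norm_num)]
    apply Real.rpow_le_rpow_of_exponent_le (by norm_num)
    push_cast
    linarith
  calc ((exceptionsL c ∩ Set.Iio X).ncard : ℝ) ≤ X / 2 ^ (t + 1) + X / 2 ^ (t + 1) :=
        h2.trans (add_le_add h3 h4)
    _ = X / 2 ^ t := by
        rw [Real.rpow_add (by norm_num), Real.rpow_one]
        have : (0 : ℝ) < 2 ^ t := Real.rpow_pos_of_pos (by norm_num) t
        field_simp
        ring

end Pool.Agent.UltPos
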