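import Mathlib

/-! DP2a. Exponential polynomials with frequencies near zero: a discrete Remez inequality. -/

set_option autoImplicit false

namespace Pool.Agent.DensePos

open Finset

/- PROOF SKETCH. `K = card ι`, `M = 2^(2a)`, `g = 2^a`, `f t = ∑ b i w i ^ t`.
(1) If the set `A` of the `t < M` with `‖f t‖ ≤ ε` has more than `r g` elements, then it contains
`t_0 < … < t_r` with `t_j + g ≤ t_(j+1)` (greedy: remove the at most `g` elements below `t_0 + g`).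
(2) `w i = exp (I θ i)` with `|θ i| ≤ 2^(-4a)` (`θ = arg`, `|arg w| ≤ (π/2) ‖w - 1‖`), so for
`t ≤ M`, `|θ i t| ≤ 2^(-2a) ≤ 1`, and by Taylor (`Complex.exp_bound`) `‖f t - p t‖ ≤ τ :=
K 2^P 2 (2^(-2a))^(r+1)` for `p t = ∑ b i ∑_{j ≤ r} (I θ i t)^j / j!`, a polynomial in `t` of
degree `≤ r`.
(3) Lagrange interpolation at the `t_j` (`Lagrange.interpolate`, or directly
`p t = ∑_j p t_j ∏_{l ≠ j} (t - t_l)/(t_j - t_l)`): for `t < M`,
`‖p t‖ ≤ (r+1) (ε + τ) (M/g)^r = (r+1) (ε + τ) 2^(a r)`. So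
`‖f t‖ ≤ (r+1) 2^(a r) ε + (r+2) 2^(a r) τ` for all `t < M`, in particular for `t < K` (`K ≤ a ≤ M`).
(4) Put `ℓ_i = ∏_{j ≠ i} (X - w j)/(w i - w j) = ∑_{t < K} A_t X^t`; then
`b i = ∑_j b j ℓ_i (w j) = ∑_t A_t f t` and `∑ ‖A_t‖ ≤ (2/Δ)^(K-1)`, `Δ = 2^(-D)` (multiply out; for a
product of linear factors `X - w`, `‖w‖ = 1`, the sum of the norms of the coefficients is at most
`2^(number of factors)`). So `2^(-P) ≤ ‖b i‖ ≤ 2^((D+1) K) max_{t<K} ‖f t‖`.
(5) `r = 2P + (D+1) K + 3`, `ε ≤ 2^(-(a+2) r)`, `K ≤ a`, `2 ≤ a` give a contradiction: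
`(r+1) 2^(a r) ε 2^((D+1)K) ≤ 2^(-r) (r+1) 2^(-r) 2^((D+1)K) < 2^(-P-1)` and
`(r+2) 2^(a r) 2 K 2^P 2^(-2 a (r+1)) 2^((D+1)K) < 2^(-P-1)`, using `r + 1 ≤ 2^r`, `r + 2 ≤ 2^(r+1)`,
`2 r ≤ a r`, `K ≤ 2^a`. -/

/-- separated elements -/
private theorem window_sep {g r : ℕ} {A : Finset ℕ} (hg : 0 < g) (h : r * g < A.card) :
    ∃ T ⊆ A, T.card = r + 1 ∧ ∀ x ∈ T, ∀ y ∈ T, x ≠ y → (g : ℝ) ≤ |(x : ℝ) - y| := by
  obtain ⟨c, -, hc⟩ := Finset.exists_lt_card_fiber_of_mul_lt_card_of_maps_to (s := A)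
    (t := range g) (f := fun x => x % g) (n := r) (fun a _ => mem_range.2 (Nat.mod_lt _ hg))
    (by rw [card_range, mul_comm]; exact h)
  obtain ⟨T, hT, hTc⟩ := Finset.exists_subset_card_eq (n := r + 1) hc
  refine ⟨T, hT.trans (filter_subset _ _), hTc, ?_⟩
  intro x hx y hy hxy
  have h1 : x % g = c := (mem_filter.1 (hT hx)).2
  have h2 : y % g = c := (mem_filter.1 (hT hy)).2
  have h3 : (g : ℤ) ∣ (x : ℤ) - y := Nat.modEq_iff_dvd.1 (show y ≡ x [MOD g] from h2.trans h1.symm)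
  have h4 : (x : ℤ) - y ≠ 0 := by omega
  have h5 := Int.le_of_dvd (abs_pos.2 h4) ((dvd_abs _ _).2 h3)
  exact_mod_cast h5

/-- a lower bound for the first values of an exponential polynomial -/
private theorem window_lower {ι : Type} [Fintype ι] [DecidableEq ι] (w b : ι → ℂ)
    (hw : ∀ i, ‖w i‖ = 1) {B : ℝ} {K : ℕ} (hB : ∀ t < K, ‖∑ i, b i * w i ^ t‖ ≤ B)
    (s : Finset ι) : ∀ t, t + s.card < K →
      ‖∑ i, b i * (∏ j ∈ s, (w i - w j)) * w i ^ t‖ ≤ 2 ^ s.card * B := by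
  induction s using Finset.induction_on with
  | empty => simpa using hB
  | insert j s hj ih =>
    intro t ht
    rw [card_insert_of_notMem hj] at ht ⊢
    have h1 : ∑ i, b i * (∏ l ∈ insert j s, (w i - w l)) * w i ^ t =
        (∑ i, b i * (∏ l ∈ s, (w i - w l)) * w i ^ (t + 1)) -
          w j * ∑ i, b i * (∏ l ∈ s, (w i - w l)) * w i ^ t := by
      rw [mul_sum, ← sum_sub_distrib]
      refine sum_congr rfl fun i _ => ?_
      rw [prod_insert hj]
      ring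
    rw [h1]
    refine (norm_sub_le _ _).trans ?_
    rw [norm_mul, hw j, one_mul]
    have h2 := ih (t + 1) (by omega)
    have h3 := ih t (by omega)
    rw [pow_succ]
    linarith

/-- the tail of the binomial expansion -/
private theorem window_tail {δ : ℂ} {t : ℕ} {y : ℝ} (hy : (t : ℝ) * ‖δ‖ ≤ y) (hy2 : y ≤ 1 / 2)
    (r : ℕ) : ‖(1 + δ) ^ t - ∑ j ∈ range (r + 1), (t.choose j : ℂ) * δ ^ j‖ ≤
      2 * y ^ (r + 1) := by
  have hy0 : 0 ≤ y := le_trans (by positivity) hy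
  have h1 : (1 + δ) ^ t = ∑ j ∈ range (r + 1 + t), (t.choose j : ℂ) * δ ^ j := by
    rw [add_comm 1 δ, add_pow]
    have h2 : range (t + 1) ⊆ range (r + 1 + t) := range_subset_range.2 (by omega)
    rw [← sum_subset h2]
    · refine sum_congr rfl fun j _ => ?_
      rw [one_pow, mul_one, mul_comm]
    · intro j _ hj
      rw [mem_range, not_lt] at hj
      rw [Nat.choose_eq_zero_of_lt (by omega), Nat.cast_zero, zero_mul]
  rw [h1, sum_range_add, add_sub_cancel_left]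
  have h2 : ∀ j, ‖(t.choose j : ℂ) * δ ^ j‖ ≤ y ^ j := by
    intro j
    rw [norm_mul, norm_pow, Complex.norm_natCast]
    calc (t.choose j : ℝ) * ‖δ‖ ^ j ≤ (t : ℝ) ^ j * ‖δ‖ ^ j := by
          gcongr
          exact_mod_cast Nat.choose_le_pow t j
      _ = (t * ‖δ‖) ^ j := (mul_pow _ _ _).symm
      _ ≤ y ^ j := by gcongr
  have h3 : ∑ x ∈ range t, (1 / 2 : ℝ) ^ x ≤ 2 := by
    have := geom_sum_eq (by norm_num : (1 / 2 : ℝ) ≠ 1) t
    rw [this]
    have h4 : 0 < (1 / 2 : ℝ) ^ t := by positivity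
    rw [div_le_iff_of_neg (by norm_num)]
    linarith
  calc ‖∑ x ∈ range t, (t.choose (r + 1 + x) : ℂ) * δ ^ (r + 1 + x)‖
      ≤ ∑ x ∈ range t, ‖(t.choose (r + 1 + x) : ℂ) * δ ^ (r + 1 + x)‖ := norm_sum_le _ _
    _ ≤ ∑ x ∈ range t, y ^ (r + 1) * (1 / 2 : ℝ) ^ x := by
        refine sum_le_sum fun x _ => (h2 _).trans ?_
        rw [pow_add]
        gcongr
    _ = y ^ (r + 1) * ∑ x ∈ range t, (1 / 2 : ℝ) ^ x := by rw [mul_sum]
    _ ≤ y ^ (r + 1) * 2 := by gcongr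
    _ = 2 * y ^ (r + 1) := mul_comm _ _

/-- Lagrange interpolation at separated points -/
private theorem window_lagrange {p : Polynomial ℂ} {r : ℕ} (hp : p.degree < (r + 1 : ℕ))
    {T : Finset ℕ} (hT : T.card = r + 1) {g M : ℝ} (hg : 0 < g)
    (hsep : ∀ x ∈ T, ∀ y ∈ T, x ≠ y → g ≤ |(x : ℝ) - y|) (hM : ∀ x ∈ T, (x : ℝ) ≤ M) {E : ℝ}
    (hE : ∀ x ∈ T, ‖p.eval (x : ℂ)‖ ≤ E) {t : ℕ} (ht : (t : ℝ) ≤ M) :
    ‖p.eval (t : ℂ)‖ ≤ (r + 1) * (E * (M / g) ^ r) := by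
  have hinj : Set.InjOn (fun x : ℕ => (x : ℂ)) T := fun x _ y _ h => Nat.cast_injective h
  have h1 := Lagrange.eq_interpolate (v := fun x : ℕ => (x : ℂ)) hinj (by rw [hT]; exact hp)
  have hM0 : 0 ≤ M := le_trans (Nat.cast_nonneg t) ht
  have h2 : p.eval (t : ℂ) = ∑ x ∈ T, p.eval (x : ℂ) *
      ∏ y ∈ T.erase x, (((x : ℂ) - y)⁻¹ * ((t : ℂ) - y)) := by
    conv_lhs => rw [h1]
    rw [Lagrange.interpolate_apply, Polynomial.eval_finsetSum]
    refine sum_congr rfl fun x _ => ?_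
    rw [Polynomial.eval_mul, Polynomial.eval_C, Lagrange.basis, Polynomial.eval_prod]
    congr 1
    refine prod_congr rfl fun y _ => ?_
    simp [Lagrange.basisDivisor]
  rw [h2]
  refine (norm_sum_le _ _).trans ?_
  have h3 : ∀ x ∈ T, ‖p.eval (x : ℂ) *
      ∏ y ∈ T.erase x, (((x : ℂ) - y)⁻¹ * ((t : ℂ) - y))‖ ≤ E * (M / g) ^ r := by
    intro x hx
    rw [norm_mul, norm_prod]
    have h4 : ∏ y ∈ T.erase x, ‖((x : ℂ) - y)⁻¹ * ((t : ℂ) - y)‖ ≤ (M / g) ^ r := by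
      have h5 : (T.erase x).card = r := by rw [card_erase_of_mem hx, hT, Nat.add_sub_cancel]
      rw [← h5]
      refine (Finset.prod_le_prod (fun y _ => norm_nonneg _) fun y hy => ?_).trans_eq
        (prod_const (M / g))
      rw [mem_erase] at hy
      rw [norm_mul, norm_inv, div_eq_mul_inv, mul_comm M]
      have e1 : ‖(x : ℂ) - y‖ = |(x : ℝ) - y| := by
        rw [show (x : ℂ) - y = (((x : ℝ) - y : ℝ) : ℂ) by push_cast; rfl, Complex.norm_real,
          Real.norm_eq_abs]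
      have e2 : ‖(t : ℂ) - y‖ = |(t : ℝ) - y| := by
        rw [show (t : ℂ) - y = (((t : ℝ) - y : ℝ) : ℂ) by push_cast; rfl, Complex.norm_real,
          Real.norm_eq_abs]
      rw [e1, e2]
      have e3 := hsep x hx y hy.2 hy.1.symm
      have e4 : |(t : ℝ) - y| ≤ M := by
        have := hM y hy.2
        have e5 : (0 : ℝ) ≤ t := Nat.cast_nonneg t
        have e6 : (0 : ℝ) ≤ y := Nat.cast_nonneg y
        rw [abs_le]
        constructor <;> linarith
      gcongr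
    exact mul_le_mul (hE x hx) h4 (prod_nonneg fun y _ => norm_nonneg _)
      ((norm_nonneg _).trans (hE x hx))
  refine (sum_le_sum h3).trans_eq ?_
  rw [sum_const, hT, nsmul_eq_mul]
  push_cast
  ring

open scoped Classical in
theorem window_count {ι : Type} [Fintype ι] [Nonempty ι] (w b : ι → ℂ) (hw : ∀ i, ‖w i‖ = 1)
    (P D a : ℕ) (ha : 2 ≤ a) (hK : Fintype.card ι ≤ a)
    (hw1 : ∀ i, ‖w i - 1‖ ≤ 7 / 2 ^ (4 * a + 4))
    (hb1 : ∀ i, (1 / 2 : ℝ) ^ P ≤ ‖b i‖) (hb2 : ∀ i, ‖b i‖ ≤ 2 ^ P)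
    (hsep : ∀ i j, i ≠ j → (1 / 2 : ℝ) ^ D ≤ ‖w i - w j‖)
    (ε : ℝ) (hε : ε ≤ (1 / 2) ^ ((a + 2) * (2 * P + (D + 1) * Fintype.card ι + 3))) :
    ((range (2 ^ (2 * a))).filter fun t => ‖∑ i, b i * w i ^ t‖ ≤ ε).card ≤
      (2 * P + (D + 1) * Fintype.card ι + 3) * 2 ^ a := by
  by_contra hcon
  rw [not_le] at hcon
  set K := Fintype.card ι with hKdef
  set r := 2 * P + (D + 1) * K + 3 with hr
  have hK1 : 1 ≤ K := Fintype.card_pos
  have hDK : (D + 1) * (K - 1) + (D + 1) = (D + 1) * K := by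
    obtain ⟨m, hm⟩ := Nat.exists_eq_add_of_le hK1
    rw [hm, Nat.add_sub_cancel_left]
    ring
  obtain ⟨T, hTA, hTc, hTs⟩ := window_sep (g := 2 ^ a) (by positivity) hcon
  have hTM : ∀ x ∈ T, x < 2 ^ (2 * a) := fun x hx => mem_range.1 (mem_filter.1 (hTA hx)).1
  have hTε : ∀ x ∈ T, ‖∑ i, b i * w i ^ x‖ ≤ ε := fun x hx => (mem_filter.1 (hTA hx)).2
  -- the approximating polynomial
  let p : Polynomial ℂ := ∑ i, ∑ j ∈ range (r + 1),
    (b i * (w i - 1) ^ j / (j.factorial : ℂ)) • descPochhammer ℂ j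
  have hpdeg : p.degree < (r + 1 : ℕ) := by
    rw [← Polynomial.mem_degreeLT]
    refine Submodule.sum_mem _ fun i _ => Submodule.sum_mem _ fun j hj =>
      Submodule.smul_mem _ _ ?_
    rw [Polynomial.mem_degreeLT, Polynomial.degree_eq_natDegree
      (monic_descPochhammer ℂ j).ne_zero, descPochhammer_natDegree]
    exact_mod_cast mem_range.1 hj
  have hpeval : ∀ t : ℕ, p.eval (t : ℂ) =
      ∑ i, b i * ∑ j ∈ range (r + 1), (t.choose j : ℂ) * (w i - 1) ^ j := by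
    intro t
    simp only [p, Polynomial.eval_finsetSum, Polynomial.eval_smul, smul_eq_mul,
      descPochhammer_eval_eq_descFactorial, mul_sum]
    refine sum_congr rfl fun i _ => sum_congr rfl fun j _ => ?_
    rw [Nat.descFactorial_eq_factorial_mul_choose]
    have : (j.factorial : ℂ) ≠ 0 := Nat.cast_ne_zero.2 j.factorial_ne_zero
    push_cast
    field_simp
  have happ : ∀ t : ℕ, t ≤ 2 ^ (2 * a) → ‖∑ i, b i * w i ^ t - p.eval (t : ℂ)‖ ≤
      K * (2 ^ P * (2 * ((1 / 2 : ℝ) ^ (2 * a + 1)) ^ (r + 1))) := by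
    intro t ht
    rw [hpeval, ← sum_sub_distrib]
    refine (norm_sum_le _ _).trans ?_
    have h1 : ∀ i ∈ (univ : Finset ι), ‖b i * w i ^ t -
        b i * ∑ j ∈ range (r + 1), (t.choose j : ℂ) * (w i - 1) ^ j‖ ≤
        2 ^ P * (2 * ((1 / 2 : ℝ) ^ (2 * a + 1)) ^ (r + 1)) := by
      intro i _
      rw [← mul_sub, norm_mul]
      have h2 : (t : ℝ) * ‖w i - 1‖ ≤ (1 / 2 : ℝ) ^ (2 * a + 1) := by
        calc (t : ℝ) * ‖w i - 1‖ ≤ 2 ^ (2 * a) * (7 / 2 ^ (4 * a + 4)) :=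
              mul_le_mul (by exact_mod_cast ht) (hw1 i) (norm_nonneg _) (by positivity)
          _ ≤ 2 ^ (2 * a) * (8 / 2 ^ (4 * a + 4)) := by gcongr; norm_num
          _ = (1 / 2 : ℝ) ^ (2 * a + 1) := by
              have e : (2 : ℝ) ^ (4 * a + 4) = 8 * (2 ^ (2 * a) * 2 ^ (2 * a + 1)) := by
                rw [← pow_add, show (8 : ℝ) = 2 ^ 3 by norm_num, ← pow_add]
                congr 1
                omega
              rw [e, one_div, inv_pow]
              have e2 : (2 : ℝ) ^ (2 * a) ≠ 0 := by positivity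
              have e3 : (2 : ℝ) ^ (2 * a + 1) ≠ 0 := by positivity
              field_simp
      have h3 : (1 / 2 : ℝ) ^ (2 * a + 1) ≤ 1 / 2 := by
        calc (1 / 2 : ℝ) ^ (2 * a + 1) ≤ (1 / 2 : ℝ) ^ 1 :=
              pow_le_pow_of_le_one (by norm_num) (by norm_num) (by omega)
          _ = 1 / 2 := pow_one _
      have h4 := window_tail h2 h3 r
      rw [add_sub_cancel] at h4
      exact mul_le_mul (hb2 i) h4 (norm_nonneg _) (by positivity)
    refine (sum_le_sum h1).trans_eq ?_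
    rw [sum_const, card_univ, nsmul_eq_mul]
  -- the estimate of the approximation error
  have hτ : (K : ℝ) * (2 ^ P * (2 * ((1 / 2 : ℝ) ^ (2 * a + 1)) ^ (r + 1))) ≤
      (1 / 2 : ℝ) ^ (2 * r + a * r + r + 2 - P) := by
    have h1 : (K : ℝ) ≤ 2 ^ a := by
      have h2 : K < 2 ^ a := lt_of_le_of_lt hK a.lt_two_pow_self
      exact_mod_cast h2.le
    calc (K : ℝ) * (2 ^ P * (2 * ((1 / 2 : ℝ) ^ (2 * a + 1)) ^ (r + 1)))
        ≤ 2 ^ a * (2 ^ P * (2 * ((1 / 2 : ℝ) ^ (2 * a + 1)) ^ (r + 1))) := by gcongr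
      _ = 2 ^ (a + P + 1) * (1 / 2 : ℝ) ^ ((2 * a + 1) * (r + 1)) := by
          rw [← pow_mul]
          ring
      _ = (1 / 2 : ℝ) ^ ((2 * a + 1) * (r + 1) - (a + P + 1)) := by
          have h2 : a + P + 1 ≤ (2 * a + 1) * (r + 1) := by
            have : P ≤ r := by omega
            nlinarith
          obtain ⟨m, hm⟩ := Nat.exists_eq_add_of_le h2
          rw [hm, Nat.add_sub_cancel_left, pow_add (1 / 2 : ℝ) (a + P + 1) m, ← mul_assoc,
            ← mul_pow]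
          norm_num
      _ ≤ (1 / 2 : ℝ) ^ (2 * r + a * r + r + 2 - P) := by
          refine pow_le_pow_of_le_one (by norm_num) (by norm_num) ?_
          have h3 : 2 * r ≤ a * r := Nat.mul_le_mul_right r ha
          have h4 : (2 * a + 1) * (r + 1) = a * r + a * r + 2 * a + r + 1 := by ring
          rw [h4]
          omega
  set τ : ℝ := (K : ℝ) * (2 ^ P * (2 * ((1 / 2 : ℝ) ^ (2 * a + 1)) ^ (r + 1))) with hτdef
  have hτ0 : 0 ≤ τ := by positivity
  -- the values of `f` in the window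
  have hmain : ∀ t < 2 ^ (2 * a), ‖∑ i, b i * w i ^ t‖ ≤ (1 / 2 : ℝ) ^ (r - 1) := by
    intro t ht
    have hE : ∀ x ∈ T, ‖p.eval (x : ℂ)‖ ≤ ε + τ := by
      intro x hx
      have h1 := happ x (hTM x hx).le
      have h2 := hTε x hx
      have h3 : p.eval (x : ℂ) = ∑ i, b i * w i ^ x - (∑ i, b i * w i ^ x - p.eval (x : ℂ)) := by
        ring
      rw [h3]
      exact (norm_sub_le _ _).trans (add_le_add h2 h1)
    have h1 := window_lagrange hpdeg hTc (g := 2 ^ a) (M := 2 ^ (2 * a)) (by positivity)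
      (fun x hx y hy hxy => by
        have := hTs x hx y hy hxy
        push_cast at this
        exact this)
      (fun x hx => by exact_mod_cast (hTM x hx).le) hE (t := t) (by exact_mod_cast ht.le)
    have h2 : (2 : ℝ) ^ (2 * a) / 2 ^ a = 2 ^ a := by
      rw [div_eq_iff (by positivity), ← pow_add]
      congr 1
      omega
    rw [h2, ← pow_mul] at h1
    have h3 := happ t ht.le
    have h4 : ‖∑ i, b i * w i ^ t‖ ≤ τ + (r + 1) * ((ε + τ) * 2 ^ (a * r)) := by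
      have h5 : ∑ i, b i * w i ^ t = (∑ i, b i * w i ^ t - p.eval (t : ℂ)) + p.eval (t : ℂ) := by
        ring
      rw [h5]
      exact (norm_add_le _ _).trans (add_le_add h3 h1)
    refine h4.trans ?_
    have h5 : (1 : ℝ) ≤ 2 ^ (a * r) := one_le_pow₀ (by norm_num)
    have hr1 : ((r : ℝ) + 1) ≤ 2 ^ r := by
      have := (Nat.succ_le_of_lt r.lt_two_pow_self)
      exact_mod_cast this
    have hr2 : ((r : ℝ) + 2) ≤ 2 ^ (r + 1) := by
      have e1 : (1 : ℝ) ≤ 2 ^ r := one_le_pow₀ (by norm_num)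
      rw [pow_succ]
      linarith
    have h6 : τ + (r + 1) * ((ε + τ) * 2 ^ (a * r)) ≤
        (r + 1) * (2 ^ (a * r) * (1 / 2) ^ ((a + 2) * r)) + (r + 2) * (2 ^ (a * r) * τ) := by
      have e1 : τ ≤ 2 ^ (a * r) * τ := le_mul_of_one_le_left hτ0 h5
      have e2 : ((r : ℝ) + 1) * (2 ^ (a * r) * ε) ≤
          (r + 1) * (2 ^ (a * r) * (1 / 2) ^ ((a + 2) * r)) := by gcongr
      calc τ + (r + 1) * ((ε + τ) * 2 ^ (a * r))
          = τ + (r + 1) * (2 ^ (a * r) * τ) + (r + 1) * (2 ^ (a * r) * ε) := by ring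
        _ ≤ 2 ^ (a * r) * τ + (r + 1) * (2 ^ (a * r) * τ) +
            (r + 1) * (2 ^ (a * r) * (1 / 2) ^ ((a + 2) * r)) := by gcongr
        _ = _ := by ring
    refine h6.trans ?_
    have h7 : ((r : ℝ) + 1) * (2 ^ (a * r) * (1 / 2) ^ ((a + 2) * r)) ≤ (1 / 2) ^ r := by
      calc ((r : ℝ) + 1) * (2 ^ (a * r) * (1 / 2) ^ ((a + 2) * r))
          ≤ 2 ^ r * (2 ^ (a * r) * (1 / 2) ^ ((a + 2) * r)) := by gcongr
        _ = (2 ^ (r + a * r) * (1 / 2) ^ (r + a * r)) * (1 / 2) ^ r := by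
            rw [show (a + 2) * r = (r + a * r) + r by ring, pow_add, pow_add 2 r (a * r)]
            ring
        _ = (1 / 2) ^ r := by rw [← mul_pow]; norm_num
    have h8 : ((r : ℝ) + 2) * (2 ^ (a * r) * τ) ≤ (1 / 2) ^ r := by
      calc ((r : ℝ) + 2) * (2 ^ (a * r) * τ)
          ≤ 2 ^ (r + 1) * (2 ^ (a * r) * (1 / 2 : ℝ) ^ (2 * r + a * r + r + 2 - P)) := by gcongr
        _ = 2 ^ (r + 1 + a * r) * (1 / 2 : ℝ) ^ (2 * r + a * r + r + 2 - P) := by
            rw [pow_add 2 (r + 1) (a * r)]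
            ring
        _ = (1 / 2 : ℝ) ^ (2 * r + a * r + r + 2 - P - (r + 1 + a * r)) := by
            have e1 : r + 1 + a * r ≤ 2 * r + a * r + r + 2 - P := by omega
            obtain ⟨m, hm⟩ := Nat.exists_eq_add_of_le e1
            rw [hm, Nat.add_sub_cancel_left, pow_add (1 / 2 : ℝ) (r + 1 + a * r) m, ← mul_assoc,
              ← mul_pow]
            norm_num
        _ ≤ (1 / 2) ^ r := pow_le_pow_of_le_one (by norm_num) (by norm_num) (by omega)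
    have h9 : (1 / 2 : ℝ) ^ (r - 1) = (1 / 2) ^ r + (1 / 2) ^ r := by
      obtain ⟨m, hm⟩ : ∃ m, r = m + 1 := ⟨r - 1, by omega⟩
      rw [hm, Nat.add_sub_cancel, pow_succ]
      ring
    rw [h9]
    exact add_le_add h7 h8
  -- the contradiction
  obtain ⟨i⟩ := ‹Nonempty ι›
  have hKM : K ≤ 2 ^ (2 * a) := by
    calc K ≤ a := hK
      _ ≤ 2 * a := by omega
      _ ≤ 2 ^ (2 * a) := (2 * a).lt_two_pow_self.le
  have h1 := window_lower w b hw (K := K) (fun t ht => hmain t (lt_of_lt_of_le ht hKM))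
    (univ.erase i) 0 (by
      rw [card_erase_of_mem (mem_univ i), card_univ]
      omega)
  have hcard : (univ.erase i : Finset ι).card = K - 1 := by
    rw [card_erase_of_mem (mem_univ i), card_univ]
  rw [hcard] at h1
  have h2 : ∑ i', b i' * (∏ j ∈ univ.erase i, (w i' - w j)) * w i' ^ 0 =
      b i * ∏ j ∈ univ.erase i, (w i - w j) := by
    rw [Finset.sum_eq_single i]
    · rw [pow_zero, mul_one]
    · intro i' _ hi'
      rw [prod_eq_zero (mem_erase.2 ⟨hi', mem_univ i'⟩) (sub_self (w i')), mul_zero, zero_mul]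
    · intro h
      exact absurd (mem_univ i) h
  rw [h2, norm_mul, norm_prod] at h1
  have h3 : ((1 / 2 : ℝ) ^ D) ^ (K - 1) ≤ ∏ j ∈ univ.erase i, ‖w i - w j‖ := by
    rw [← hcard, ← prod_const]
    refine Finset.prod_le_prod (fun j _ => by positivity) fun j hj => hsep i j ?_
    exact (mem_erase.1 hj).1.symm
  have h4 : (1 / 2 : ℝ) ^ P * ((1 / 2 : ℝ) ^ D) ^ (K - 1) ≤ 2 ^ (K - 1) * (1 / 2 : ℝ) ^ (r - 1) :=
    (mul_le_mul (hb1 i) h3 (by positivity) (norm_nonneg _)).trans h1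
  have h5 : (1 / 2 : ℝ) ^ (P + (D + 1) * (K - 1)) ≤ (1 / 2 : ℝ) ^ (r - 1) := by
    have e1 : (1 / 2 : ℝ) ^ (P + (D + 1) * (K - 1)) =
        (1 / 2) ^ (K - 1) * ((1 / 2 : ℝ) ^ P * ((1 / 2 : ℝ) ^ D) ^ (K - 1)) := by
      rw [← pow_mul, ← pow_add, ← pow_add]
      congr 1
      ring
    have e2 : (1 / 2 : ℝ) ^ (r - 1) = (1 / 2) ^ (K - 1) * (2 ^ (K - 1) * (1 / 2 : ℝ) ^ (r - 1)) := by
      rw [← mul_assoc, ← mul_pow]
      norm_num
    rw [e1, e2]
    gcongr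
  have h6 : (1 / 2 : ℝ) ^ (r - 1) < (1 / 2 : ℝ) ^ (P + (D + 1) * (K - 1)) :=
    pow_lt_pow_right_of_lt_one₀ (by norm_num) (by norm_num) (by omega)
  exact absurd h5 (not_le.2 h6)

end Pool.Agent.DensePos
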